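import Mathlib

/-!
# Real algebras with an involution whose trace form is not positive definite
-/

open Polynomial

namespace Pool.Agent.J4H47.SG

variable {B : Type*} [Ring B] [Algebra ℝ B]

/-- A real algebra with an involution and a nondegenerate trace. -/
structure InvAlg (st : B →ₗ[ℝ] B) (τ : B →ₗ[ℝ] ℝ) : Prop where
  smul : ∀ x y, st (x * y) = st y * st x
  inv : ∀ x, st (st x) = x
  cyc : ∀ x y, τ (x * y) = τ (y * x)
  idem : ∀ e, e * e = e → ∃ n : ℕ, τ e = n ∧ (n = 0 → e = 0)
  nil : ∀ x (m : ℕ), x ^ m = 0 → τ x = 0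
  alg : ∀ x : B, ∃ p : ℝ[X], p ≠ 0 ∧ aeval x p = 0
  nondeg : ∀ x, (∀ y, τ (x * y) = 0) → x = 0

/-- An anti-isometry of the image of a symmetric idempotent. -/
def HasAnti (st : B →ₗ[ℝ] B) : Prop :=
  ∃ h j : B, h * h = h ∧ st h = h ∧ h ≠ 0 ∧ h * j = j ∧ j * h = j ∧ st j * j = -h

namespace InvAlg

variable {st : B →ₗ[ℝ] B} {τ : B →ₗ[ℝ] ℝ} (A : InvAlg st τ)

include A

lemma st_one : st 1 = 1 := by
  have h1 := A.smul 1 (st 1)
  rw [one_mul, A.inv, one_mul] at h1
  exact h1.symm

lemma st_pow (x : B) (m : ℕ) : st (x ^ m) = st x ^ m := by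
  induction m with
  | zero => rw [pow_zero, pow_zero, A.st_one]
  | succ m ih => rw [pow_succ, A.smul, ih, pow_succ']

lemma st_aeval {s : B} (hs : st s = s) (p : ℝ[X]) : st (aeval s p) = aeval s p := by
  induction p using Polynomial.induction_on' with
  | add p q hp hq => rw [map_add, map_add, hp, hq]
  | monomial n a =>
    rw [aeval_monomial, A.smul, A.st_pow, hs]
    rw [Algebra.algebraMap_eq_smul_one, map_smul, A.st_one, smul_mul_assoc, one_mul,
      mul_smul_comm, mul_one]

/-- An element which is not nilpotent has a multiple which is an idempotent. -/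
lemma exists_idem {x : B} (hx : τ x ≠ 0) : ∃ w : B, x * w ≠ 0 ∧ (x * w) * (x * w) = x * w := by
  obtain ⟨p, hp0, hp⟩ := A.alg x
  obtain ⟨r, hr, hX⟩ := exists_eq_pow_rootMultiplicity_mul_and_not_dvd p hp0 0
  set m := rootMultiplicity 0 p
  rw [map_zero, sub_zero] at hr hX
  have hcop : IsCoprime (X ^ (m + 1)) r := by
    apply IsCoprime.pow_left
    exact (Polynomial.prime_X.coprime_iff_not_dvd).2 hX
  obtain ⟨a, c, hac⟩ := hcop
  have h1 : aeval x (X ^ (m + 1) * r) = 0 := by
    have : (X ^ (m + 1) * r : ℝ[X]) = X * p := by rw [pow_succ', mul_assoc, ← hr]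
    rw [this, map_mul, hp, mul_zero]
  have hcomm : ∀ p q : ℝ[X], aeval x p * aeval x q = aeval x (p * q) := fun p q => (map_mul _ _ _).symm
  have hX1 : x * aeval x (a * X ^ m) = aeval x (a * X ^ (m + 1)) := by
    have : (a * X ^ (m + 1) : ℝ[X]) = X * (a * X ^ m) := by ring
    rw [this, map_mul (aeval x) X, aeval_X]
  refine ⟨aeval x (a * X ^ m), ?_, ?_⟩
  · rw [hX1]
    intro h0
    apply hx
    apply A.nil x (m + 1)
    have h2 : aeval x (X ^ (m + 1) : ℝ[X]) = aeval x (X ^ (m + 1) : ℝ[X]) *
        aeval x (a * X ^ (m + 1) + c * r) := by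
      rw [hac, map_one, mul_one]
    rw [map_add, h0, zero_add, hcomm] at h2
    have h3 : (X ^ (m + 1) * (c * r) : ℝ[X]) = c * (X ^ (m + 1) * r) := by ring
    rw [h3, map_mul, h1, mul_zero] at h2
    simpa using h2
  · rw [hX1, hcomm]
    have h4 : (a * X ^ (m + 1) * (a * X ^ (m + 1)) : ℝ[X]) =
        a * X ^ (m + 1) - a * c * (X ^ (m + 1) * r) := by
      have : (c * r : ℝ[X]) = 1 - a * X ^ (m + 1) := by rw [← hac]; ring
      calc (a * X ^ (m + 1) * (a * X ^ (m + 1)) : ℝ[X]) =
          a * X ^ (m + 1) - a * X ^ (m + 1) * (1 - a * X ^ (m + 1)) := by ring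
        _ = _ := by rw [← this]; ring
    rw [h4, map_sub, map_mul (aeval x) (a * c), h1, mul_zero, sub_zero]

/-- An isotropic element gives a hyperbolic idempotent. -/
lemma anti_of_iso {z : B} (hz : z ≠ 0) (hzz : st z * z = 0) : HasAnti st := by
  obtain ⟨b, hb⟩ : ∃ b, τ (z * b) ≠ 0 := by
    by_contra h
    push Not at h
    exact hz (A.nondeg z h)
  obtain ⟨w, hw0, hw⟩ := A.exists_idem hb
  set e := z * b * w with he
  have hee : st e * e = 0 := by
    rw [he, mul_assoc, A.smul]
    calc st (b * w) * st z * (z * (b * w)) = st (b * w) * (st z * z) * (b * w) := by noncomm_ring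
      _ = 0 := by rw [hzz]; simp
  clear_value e
  set g := e - (1 / 2 : ℝ) • (e * st e) with hg
  have hg1 : g * g = g := by
    have h1 : e * (e * st e) = e * st e := by rw [← mul_assoc, hw]
    have h2 : e * st e * e = 0 := by rw [mul_assoc, hee, mul_zero]
    have h3 : e * st e * (e * st e) = 0 := by rw [← mul_assoc, h2, zero_mul]
    rw [hg, sub_mul, mul_sub, mul_sub, hw, mul_smul_comm, h1, smul_mul_assoc, h2, smul_zero,
      smul_mul_assoc, mul_smul_comm, h3]
    simp
  have hsg : st g = st e - (1 / 2 : ℝ) • (e * st e) := by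
    rw [hg, map_sub, map_smul, A.smul, A.inv]
  have hsee : st e * st e = st e := by rw [← A.smul, hw]
  have hg2 : g * st g = 0 := by
    have h1 : e * (e * st e) = e * st e := by rw [← mul_assoc, hw]
    have h2 : e * st e * st e = e * st e := by rw [mul_assoc, hsee]
    have h2' : e * st e * e = 0 := by rw [mul_assoc, hee, mul_zero]
    have h3 : e * st e * (e * st e) = 0 := by rw [← mul_assoc, h2', zero_mul]
    rw [hsg, hg, sub_mul, mul_sub, mul_sub, mul_smul_comm, h1, smul_mul_assoc, h2,
      smul_mul_assoc, mul_smul_comm, h3]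
    simp only [smul_zero, sub_zero]
    rw [sub_sub, ← add_smul]
    norm_num
  have hg3 : st g * g = 0 := by
    have h1 : st e * (e * st e) = 0 := by rw [← mul_assoc, hee, zero_mul]
    have h2' : e * st e * e = 0 := by rw [mul_assoc, hee, mul_zero]
    have h3 : e * st e * (e * st e) = 0 := by rw [← mul_assoc, h2', zero_mul]
    rw [hsg, hg, sub_mul, mul_sub, mul_sub, hee, mul_smul_comm, h1, smul_mul_assoc, h2',
      smul_mul_assoc, mul_smul_comm, h3]
    simp
  have hg0 : g ≠ 0 := by
    intro h0
    apply hw0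
    have h1 : e * e = ((1 / 2 : ℝ) • (e * st e)) * e := by
      rw [hg, sub_eq_zero] at h0
      rw [← h0]
    rw [← hw, h1, smul_mul_assoc, mul_assoc, hee, mul_zero, smul_zero]
  have hsgg : st g * st g = st g := by rw [← A.smul, hg1]
  clear_value g
  refine ⟨g + st g, g - st g, ?_, ?_, ?_, ?_, ?_, ?_⟩
  · rw [add_mul, mul_add, mul_add, hg1, hg2, hg3, hsgg, add_zero, zero_add]
  · rw [map_add, A.inv, add_comm]
  · intro h0
    apply hg0
    have h1 : g * (g + st g) = 0 := by rw [h0, mul_zero]
    rwa [mul_add, hg1, hg2, add_zero] at h1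
  · rw [add_mul, mul_sub, mul_sub, hg1, hg2, hg3, hsgg]; abel
  · rw [sub_mul, mul_add, mul_add, hg1, hg2, hg3, hsgg]; abel
  · rw [map_sub, A.inv, sub_mul, mul_sub, mul_sub, hg1, hg2, hg3, hsgg]; abel

/-- The spectral alternative. -/
lemma spectral (hno : ¬ HasAnti st) {e s : B} (he : e * e = e) (hse : st e = e) (he0 : e ≠ 0)
    (hs : st s = s) (hes : e * s = s) (hs' : s * e = s)
    (hM : ∀ p : ℝ[X], (aeval s p * e) * (aeval s p * e) = aeval s p * e →
      aeval s p * e = 0 ∨ aeval s p * e = e) : ∃ t : ℝ, s = t • e := by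
  classical
  have hiso : ∀ z, st z * z = 0 → z = 0 := fun z hz => by
    by_contra h0; exact hno (A.anti_of_iso h0 hz)
  have hce : ∀ p : ℝ[X], Commute (aeval s p) e := by
    intro p
    have : Commute s e := by rw [Commute, SemiconjBy, hs', hes]
    induction p using Polynomial.induction_on' with
    | add p q hp hq => rw [map_add]; exact hp.add_left hq
    | monomial n a =>
      rw [aeval_monomial]
      exact (Algebra.commute_algebraMap_left a e).mul_left (this.pow_left n)
  -- the polynomials which kill `e`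
  have hmulE : ∀ p q : ℝ[X], (aeval s p * e) * (aeval s q * e) = aeval s (p * q) * e := by
    intro p q
    rw [map_mul, mul_assoc, ← mul_assoc e, ← (hce q).eq, mul_assoc (aeval s q), he, mul_assoc]
  have hsE : ∀ p : ℝ[X], st (aeval s p * e) = aeval s p * e := by
    intro p
    rw [A.smul, hse, A.st_aeval hs, (hce p).eq]
  have hex : ∃ d, ∃ g : ℝ[X], g ≠ 0 ∧ aeval s g * e = 0 ∧ g.natDegree = d := by
    obtain ⟨p, hp0, hp⟩ := A.alg s
    exact ⟨_, p, hp0, by rw [hp, zero_mul], rfl⟩
  obtain ⟨g, hg0, hg, hgd⟩ := Nat.find_spec hex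
  have hmin : ∀ p : ℝ[X], p ≠ 0 → aeval s p * e = 0 → g.natDegree ≤ p.natDegree := by
    intro p hp0 hp
    rw [hgd]
    exact Nat.find_min' hex ⟨p, hp0, hp, rfl⟩
  have hgu : ¬ IsUnit g := by
    intro hu
    obtain ⟨c, hc, hc'⟩ := Polynomial.isUnit_iff.1 hu
    rw [← hc', aeval_C, Algebra.algebraMap_eq_smul_one, smul_mul_assoc, one_mul] at hg
    rcases smul_eq_zero.1 hg with h | h
    · rw [h] at hc; exact not_isUnit_zero hc
    · exact he0 h
  obtain ⟨q, hq, g1, hqg⟩ := WfDvdMonoid.exists_irreducible_factor hgu hg0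
  have hg10 : g1 ≠ 0 := by rintro rfl; exact hg0 (by rw [hqg, mul_zero])
  have hq0 : q ≠ 0 := hq.ne_zero
  have hqd : 0 < q.natDegree := hq.natDegree_pos
  have hdeg : g.natDegree = q.natDegree + g1.natDegree := by
    rw [hqg, natDegree_mul hq0 hg10]
  -- `q` and `g1` are coprime
  have hcop : IsCoprime q g1 := by
    rcases em (q ∣ g1) with h | h
    swap
    · exact (hq.coprime_iff_not_dvd).2 h
    · exfalso
      obtain ⟨g2, hg2⟩ := h
      have hg20 : g2 ≠ 0 := by rintro rfl; exact hg10 (by rw [hg2, mul_zero])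
      have h1 : aeval s (q * g2) * e = 0 := by
        apply hiso
        rw [hsE, hmulE]
        have : (q * g2 * (q * g2) : ℝ[X]) = g2 * g := by rw [hqg, hg2]; ring
        rw [this, map_mul, mul_assoc, hg, mul_zero]
      have h2 := hmin _ (mul_ne_zero hq0 hg20) h1
      have h3 : g1.natDegree = q.natDegree + g2.natDegree := by rw [hg2, natDegree_mul hq0 hg20]
      rw [natDegree_mul hq0 hg20] at h2
      omega
  obtain ⟨a, c, hac⟩ := hcop
  have hgz : ∀ r : ℝ[X], aeval s (r * g) * e = 0 := by
    intro r; rw [map_mul, mul_assoc, hg, mul_zero]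
  have hone : aeval s (a * q) * e + aeval s (c * g1) * e = e := by
    rw [← add_mul, ← map_add, hac, map_one, one_mul]
  have hid : (aeval s (c * g1) * e) * (aeval s (c * g1) * e) = aeval s (c * g1) * e := by
    rw [hmulE]
    have h1 : (c * g1 * (c * g1) : ℝ[X]) = c * g1 - a * c * g := by
      have h2 : (a * q : ℝ[X]) = 1 - c * g1 := by rw [← hac]; ring
      calc (c * g1 * (c * g1) : ℝ[X]) = c * g1 - (1 - c * g1) * (c * g1) := by ring
        _ = c * g1 - (a * q) * (c * g1) := by rw [h2]
        _ = _ := by rw [hqg]; ring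
    rw [h1, map_sub, sub_mul, hgz, sub_zero]
  have hqs : aeval s q * e = 0 := by
    rcases hM _ hid with h | h
    · exfalso
      have h1 : aeval s g1 * e = 0 := by
        have h2 : aeval s g1 * e = aeval s (a * g) * e + aeval s (g1 * (c * g1)) * e := by
          rw [← add_mul, ← map_add]
          congr 2
          calc g1 = g1 * (a * q + c * g1) := by rw [hac, mul_one]
            _ = _ := by rw [hqg]; ring
        rw [h2, hgz, zero_add, map_mul, mul_assoc, h, mul_zero]
      have h3 := hmin _ hg10 h1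
      omega
    · have h0 : aeval s (a * q) * e = 0 := by
        rw [h] at hone
        exact add_eq_right.1 hone
      have h2 : aeval s q * e = aeval s (q * (a * q)) * e + aeval s (c * g) * e := by
        rw [← add_mul, ← map_add]
        congr 2
        calc q = q * (a * q + c * g1) := by rw [hac, mul_one]
          _ = _ := by rw [hqg]; ring
      rw [h2, hgz, add_zero, map_mul, mul_assoc, h0, mul_zero]
  -- the degree of `q`
  have hd2 := hq.natDegree_le_two
  have h12 : q.natDegree = 1 ∨ q.natDegree = 2 := by omega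
  rcases h12 with h1 | h2
  · obtain ⟨α, hα, β, hαβ⟩ := Polynomial.natDegree_eq_one.1 h1
    rw [← hαβ, map_add, map_mul, aeval_X, aeval_C, aeval_C, add_mul,
      ← Algebra.smul_def, smul_mul_assoc, hs', ← Algebra.smul_def] at hqs
    refine ⟨-(β / α), ?_⟩
    have h3 : α • s = -(β • e) := eq_neg_of_add_eq_zero_left hqs
    calc s = α⁻¹ • (α • s) := by rw [smul_smul, inv_mul_cancel₀ hα, one_smul]
      _ = _ := by rw [h3, smul_neg, smul_smul, neg_smul]; congr 2; ring
  · exfalso
    apply hno
    obtain ⟨α, β, γ, hα, hq'⟩ : ∃ α β γ : ℝ, α ≠ 0 ∧ q = C α * X ^ 2 + C β * X + C γ := by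
      refine ⟨q.coeff 2, q.coeff 1, q.coeff 0, ?_, ?_⟩
      · rw [← h2]; exact leadingCoeff_ne_zero.2 hq0
      · conv_lhs => rw [q.as_sum_range_C_mul_X_pow, h2]
        simp [Finset.sum_range_succ]; ring
    have hdisc : β ^ 2 - 4 * α * γ < 0 := by
      by_contra hge
      push Not at hge
      set r := (-β + Real.sqrt (β ^ 2 - 4 * α * γ)) / (2 * α) with hr
      have hsq := Real.mul_self_sqrt hge
      have hroot : q.IsRoot r := by
        rw [IsRoot.def, hq']
        simp only [eval_add, eval_mul, eval_C, eval_pow, eval_X]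
        have e3 : α * r ^ 2 + β * r + γ = (Real.sqrt (β ^ 2 - 4 * α * γ) *
            Real.sqrt (β ^ 2 - 4 * α * γ) - (β ^ 2 - 4 * α * γ)) / (4 * α) := by
          rw [hr]
          field_simp
          ring
        rw [e3, hsq, sub_self, zero_div]
      have := Polynomial.degree_eq_one_of_irreducible_of_root hq hroot
      rw [Polynomial.degree_eq_natDegree hq0, h2] at this
      norm_num at this
    set δ := Real.sqrt (4 * α * γ - β ^ 2) with hδ
    have hδ0 : 0 < δ := Real.sqrt_pos.2 (by linarith)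
    have hδ2 : δ * δ = 4 * α * γ - β ^ 2 := Real.mul_self_sqrt (by linarith)
    set P : ℝ[X] := C (2 * α / δ) * X + C (β / δ) with hP
    have hPP : (aeval s P * e) * (aeval s P * e) = -e := by
      rw [hmulE]
      have h3 : (P * P : ℝ[X]) = C (4 * α / (δ * δ)) * q - 1 := by
        rw [hP, hq']
        have e1 : (C (2 * α / δ) * X + C (β / δ)) * (C (2 * α / δ) * X + C (β / δ)) =
          C ((2 * α / δ) * (2 * α / δ)) * X ^ 2 + C (2 * (2 * α / δ) * (β / δ)) * X +
            C ((β / δ) * (β / δ)) := by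
          simp only [map_mul, C_ofNat]; ring
        have e2 : C (4 * α / (δ * δ)) * (C α * X ^ 2 + C β * X + C γ) - 1 =
          C ((4 * α / (δ * δ)) * α) * X ^ 2 + C ((4 * α / (δ * δ)) * β) * X +
            C ((4 * α / (δ * δ)) * γ - 1) := by
          simp only [map_mul, map_sub, C_1]; ring
        rw [e1, e2]
        congr 3
        · congr 1; field_simp; ring
        · congr 1; field_simp; ring
        · field_simp
          nlinarith [hδ2]
      rw [h3, map_sub, map_mul, sub_mul, mul_assoc, hqs, mul_zero, map_one, one_mul, zero_sub]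
    refine ⟨e, aeval s P * e, he, hse, he0, ?_, ?_, ?_⟩
    · rw [← mul_assoc, ← (hce P).eq, mul_assoc, he]
    · rw [mul_assoc, he]
    · rw [hsE, hPP]

/-- **The key lemma.** -/
theorem has_anti {x : B} (hx : τ (st x * x) < 0) : HasAnti st := by
  classical
  by_contra hno
  have hiso : ∀ z, st z * z = 0 → z = 0 := fun z hz => by
    by_contra h0; exact hno (A.anti_of_iso h0 hz)
  -- a minimal symmetric idempotent which supports a negative element
  have hex : ∃ n : ℕ, ∃ e x : B, e * e = e ∧ st e = e ∧ x * e = x ∧ τ (st x * x) < 0 ∧ τ e = n := by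
    obtain ⟨n, hn, -⟩ := A.idem 1 (mul_one 1)
    exact ⟨n, 1, x, mul_one 1, A.st_one, mul_one x, hx, hn⟩
  obtain ⟨e, x, he, hse, hxe, hneg, hn⟩ := Nat.find_spec hex
  set n := Nat.find hex with hndef
  have hmin : ∀ e' x' : B, e' * e' = e' → st e' = e' → x' * e' = x' → τ (st x' * x') < 0 →
      τ e ≤ τ e' := by
    intro e' x' h1 h2 h3 h4
    obtain ⟨n', hn', -⟩ := A.idem e' h1
    rw [hn, hn']
    exact_mod_cast Nat.find_min' hex ⟨e', x', h1, h2, h3, h4, hn'⟩
  have he0 : e ≠ 0 := by
    rintro rfl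
    rw [mul_zero] at hxe
    rw [← hxe, mul_zero, map_zero] at hneg
    exact lt_irrefl _ hneg
  have hpos : ∀ e', e' * e' = e' → e' ≠ 0 → 0 < τ e' := by
    intro e' h1 h2
    obtain ⟨n', hn', hn0⟩ := A.idem e' h1
    rw [hn']
    have : n' ≠ 0 := fun h => h2 (hn0 h)
    exact_mod_cast Nat.pos_of_ne_zero this
  -- splitting
  have hsplit : ∀ (y e' : B), y * e = y → τ (st y * y) < 0 → e' * e' = e' → st e' = e' →
      e * e' = e' → e' * e = e' → Commute (st y * y) e' → e' = 0 ∨ e' = e := by
    intro y e' hye hyneg h1 h2 h3 h4 h5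
    have hc1 : τ (st (y * e') * (y * e')) = τ (st y * y * e') := by
      rw [A.smul, h2]
      calc τ (e' * st y * (y * e')) = τ (e' * (st y * y * e')) := by congr 1; noncomm_ring
        _ = τ (st y * y * e' * e') := A.cyc _ _
        _ = _ := by rw [mul_assoc, h1]
    have h6 : (e - e') * (e - e') = e - e' := by
      rw [sub_mul, mul_sub, mul_sub, he, h1, h3, h4]; abel
    have h7 : st (e - e') = e - e' := by rw [map_sub, hse, h2]
    have hc2 : τ (st (y * (e - e')) * (y * (e - e'))) = τ (st y * y * (e - e')) := by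
      rw [A.smul, h7]
      calc τ ((e - e') * st y * (y * (e - e'))) = τ ((e - e') * (st y * y * (e - e'))) := by
            congr 1; noncomm_ring
        _ = τ (st y * y * (e - e') * (e - e')) := A.cyc _ _
        _ = _ := by rw [mul_assoc, h6]
    have hsum : τ (st y * y * e') + τ (st y * y * (e - e')) = τ (st y * y) := by
      rw [← map_add, ← mul_add, add_sub_cancel, mul_assoc, hye]
    by_cases h8 : τ (st (y * e') * (y * e')) < 0
    · right
      have h9 := hmin e' (y * e') h1 h2 (by rw [mul_assoc, h1]) h8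
      by_contra hne
      have h10 := hpos (e - e') h6 (fun h => hne (sub_eq_zero.1 h).symm)
      rw [map_sub] at h10
      linarith
    · left
      have h8' : τ (st (y * (e - e')) * (y * (e - e'))) < 0 := by
        rw [hc2]; rw [hc1] at h8; linarith
      have h9 := hmin (e - e') (y * (e - e')) h6 h7 (by rw [mul_assoc, h6]) h8'
      by_contra hne
      have h10 := hpos e' h1 hne
      rw [map_sub] at h9
      linarith
  -- the element `s`
  set s := st x * x with hs
  have hs1 : st s = s := by rw [hs, A.smul, A.inv]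
  have hs2 : s * e = s := by rw [hs, mul_assoc, hxe]
  have hs3 : e * s = s := by
    have := congrArg st hs2
    rwa [A.smul, hs1, hse] at this
  have haev : ∀ (s : B) (hes : e * s = s) (hse' : s * e = s) (p : ℝ[X]), Commute (aeval s p) e := by
    intro s hes hse' p
    have : Commute s e := by rw [Commute, SemiconjBy, hse', hes]
    induction p using Polynomial.induction_on' with
    | add p q hp hq => rw [map_add]; exact hp.add_left hq
    | monomial n a =>
      rw [aeval_monomial]
      exact (Algebra.commute_algebraMap_left a e).mul_left (this.pow_left n)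
  have hse2 : ∀ (s : B) (_ : st s = s) (hes : e * s = s) (hse' : s * e = s) (p : ℝ[X]),
      st (aeval s p * e) = aeval s p * e ∧ e * (aeval s p * e) = aeval s p * e ∧
        (aeval s p * e) * e = aeval s p * e := by
    intro s h1 h2 h3 p
    have h4 := haev s h2 h3 p
    refine ⟨?_, ?_, ?_⟩
    · rw [A.smul, hse, A.st_aeval h1, h4.eq]
    · rw [← mul_assoc, ← h4.eq, mul_assoc, he]
    · rw [mul_assoc, he]
  obtain ⟨t, ht⟩ := A.spectral hno he hse he0 hs1 hs3 hs2 (by
    intro p hp
    obtain ⟨h1, h2, h3⟩ := hse2 s hs1 hs3 hs2 p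
    refine hsplit x _ hxe hneg hp h1 h2 h3 ?_
    rw [← hs]
    have h4 : Commute s (aeval s p) := by
      have h6 : aeval s (X : ℝ[X]) * aeval s p = aeval s p * aeval s (X : ℝ[X]) := by
        rw [← map_mul, mul_comm, map_mul]
      rwa [aeval_X] at h6
    have h5 : Commute s e := by rw [Commute, SemiconjBy, hs2, hs3]
    exact h4.mul_right h5)
  have htneg : t < 0 := by
    rw [ht, map_smul, smul_eq_mul] at hneg
    have := hpos e he he0
    by_contra h0
    push Not at h0
    have := mul_nonneg h0 this.le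
    linarith
  set y := (Real.sqrt (-t))⁻¹ • x with hy
  have hyy : st y * y = -e := by
    rw [hy, map_smul, smul_mul_assoc, mul_smul_comm, smul_smul, ← hs, ht, smul_smul,
      ← mul_inv, Real.mul_self_sqrt (by linarith)]
    rw [show (-t)⁻¹ * t = -1 by
      rw [inv_neg, neg_mul, inv_mul_cancel₀ htneg.ne], neg_one_smul]
  have hye : y * e = y := by rw [hy, smul_mul_assoc, hxe]
  have hyneg : τ (st y * y) < 0 := by
    rw [hyy, map_neg, neg_lt_zero]; exact hpos e he he0
  clear_value y
  -- every symmetric element of the corner is scalar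
  have hscal : ∀ s' : B, st s' = s' → e * s' = s' → s' * e = s' → ∃ t : ℝ, s' = t • e := by
    intro s' h1 h2 h3
    refine A.spectral hno he hse he0 h1 h2 h3 (fun p hp => ?_)
    obtain ⟨h4, h5, h6⟩ := hse2 s' h1 h2 h3 p
    refine hsplit y _ hye hyneg hp h4 h5 h6 ?_
    rw [hyy, Commute, SemiconjBy, neg_mul, mul_neg, h5, h6]
  obtain ⟨γ, hγ⟩ := hscal (e * y + st y * e) (by
    rw [map_add, A.smul, A.smul, A.inv, hse, add_comm]) (by
    rw [mul_add, ← mul_assoc, he, ← mul_assoc]
    congr 2
    have := congrArg st hye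
    rwa [A.smul, hse] at this) (by
    rw [add_mul, mul_assoc, hye, mul_assoc, he])
  set α := (-γ + Real.sqrt (γ ^ 2 + 4)) / 2 with hα
  have hα2 : α * α + α * γ - 1 = 0 := by
    have := Real.mul_self_sqrt (show 0 ≤ γ ^ 2 + 4 by positivity)
    rw [hα]
    nlinarith
  have hz : st (α • e + y) * (α • e + y) = 0 := by
    rw [map_add, map_smul, hse, add_mul, mul_add, mul_add, smul_mul_assoc, mul_smul_comm, he,
      smul_mul_assoc, mul_smul_comm, hyy]
    clear_value α
    have h1 : α • α • e + α • (e * y) + (α • (st y * e) + -e) =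
        α • α • e + α • (e * y + st y * e) - e := by rw [smul_add]; abel
    rw [h1, hγ, smul_smul, smul_smul, ← add_smul]
    nth_rewrite 2 [← one_smul ℝ e]
    rw [← sub_smul, hα2, zero_smul]
  have h1 := hiso _ hz
  have h2 : y = -(α • e) := eq_neg_of_add_eq_zero_right h1
  rw [h2, map_neg, map_smul, hse, neg_mul_neg, smul_mul_assoc, mul_smul_comm, he, smul_smul] at hyy
  have h3 : (α * α + 1) • e = 0 := by rw [add_smul, one_smul, hyy, neg_add_cancel]
  rcases smul_eq_zero.1 h3 with h | h
  · nlinarith [mul_self_nonneg α]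
  · exact he0 h

end InvAlg

end Pool.Agent.J4H47.SG
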