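import Pool.Agent.J4H47.SG.AlgK
import Pool.Agent.H914R2.Core0

/-!
# Exact anti-isometries in real algebras of operators
-/

open Polynomial

namespace Pool.Agent.J4H47.SG

lemma factor {R Q M : Type*} [AddCommGroup R] [Module ℝ R] [AddCommGroup Q] [Module ℝ Q]
    [AddCommGroup M] [Module ℝ M] (π : R →ₗ[ℝ] Q) (hπ : Function.Surjective π) (g : R →ₗ[ℝ] M)
    (h : ∀ x, π x = 0 → g x = 0) : ∃ g' : Q →ₗ[ℝ] M, ∀ x, g' (π x) = g x := by
  refine ⟨((LinearMap.ker π).liftQ g (fun x hx => h x hx)) ∘ₗ
    (π.quotKerEquivOfSurjective hπ).symm.toLinearMap, fun x => ?_⟩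
  have h1 : (π.quotKerEquivOfSurjective hπ).symm (π x) =
      (LinearMap.ker π).mkQ x := by
    rw [LinearEquiv.symm_apply_eq]
    rfl
  rw [LinearMap.comp_apply, LinearEquiv.coe_coe, h1]
  rfl

/-- The inverse square root of `1 - X`. -/
lemma exists_sqrt (m : ℕ) : ∃ p : ℝ[X], p.eval 0 = 1 ∧ X ^ (m + 1) ∣ p * p * (1 - X) - 1 := by
  induction m with
  | zero => exact ⟨1, by simp, ⟨-1, by ring⟩⟩
  | succ m ih =>
    obtain ⟨p, hp, r, hr⟩ := ih
    have h1 : X ∣ r + C (-(r.eval 0)) * (p * (1 - X)) := by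
      rw [X_dvd_iff, coeff_zero_eq_eval_zero]
      simp [hp]
    obtain ⟨s, hs⟩ := h1
    refine ⟨p + C (-(r.eval 0) / 2) * X ^ (m + 1), by simp [hp], ?_⟩
    refine ⟨s + (C (-(r.eval 0) / 2)) ^ 2 * X ^ m * (1 - X), ?_⟩
    have h2 : (C (-(r.eval 0)) : ℝ[X]) = 2 * C (-(r.eval 0) / 2) := by
      rw [← C_ofNat, ← C_mul]; congr 1; ring
    rw [h2] at hs
    generalize (C (-(r.eval 0) / 2) : ℝ[X]) = c at hs ⊢
    have h3 : (p + c * X ^ (m + 1)) * (p + c * X ^ (m + 1)) * (1 - X) - 1 =
        (p * p * (1 - X) - 1) + X ^ (m + 1) * (2 * c * (p * (1 - X))) +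
          c ^ 2 * X ^ (m + 1 + (m + 1)) * (1 - X) := by ring
    rw [h3, hr, ← mul_add, hs]
    ring

section Poly

variable {R : Type*} [Ring R] [Algebra ℝ R]

/-- The polynomial which lifts idempotents modulo elements with vanishing `m`-th powers. -/
lemma exists_idem_poly {Q : Type*} [Ring Q] [Algebra ℝ Q] (m : ℕ) : ∃ p : ℝ[X],
    (∀ x : R, (x * x - x) ^ (m + 1) = 0 → aeval x p * aeval x p = aeval x p) ∧
    (∀ e : Q, e * e = e → aeval e p = e) := by
  have hcop : IsCoprime (X ^ (m + 1) : ℝ[X]) ((1 - X) ^ (m + 1)) := by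
    apply IsCoprime.pow
    exact ⟨1, 1, by ring⟩
  obtain ⟨u, v, huv⟩ := hcop
  refine ⟨u * X ^ (m + 1), ?_, ?_⟩
  · intro x hx
    rw [← map_mul]
    have h1 : (u * X ^ (m + 1) * (u * X ^ (m + 1)) : ℝ[X]) =
        u * X ^ (m + 1) - u * v * ((-1) ^ (m + 1) * (X * X - X) ^ (m + 1)) := by
      have h2 : ((-1) ^ (m + 1) * (X * X - X) ^ (m + 1) : ℝ[X]) = X ^ (m + 1) * (1 - X) ^ (m + 1) := by
        rw [← mul_pow, ← mul_pow]; congr 1; ring
      rw [h2]
      calc (u * X ^ (m + 1) * (u * X ^ (m + 1)) : ℝ[X]) =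
          u * X ^ (m + 1) * ((u * X ^ (m + 1) + v * (1 - X) ^ (m + 1)) -
            v * (1 - X) ^ (m + 1)) := by ring
        _ = _ := by rw [huv]; ring
    have h3 : aeval x (X * X - X : ℝ[X]) = x * x - x := by
      rw [map_sub, map_mul, aeval_X]
    rw [h1, map_sub, map_mul (aeval x) (u * v), map_mul (aeval x) ((-1) ^ (m + 1)),
      map_pow (aeval x) (X * X - X), h3, hx, mul_zero, mul_zero, sub_zero]
  · intro e he
    have hpow : ∀ n, e ^ (n + 1) = e := by
      intro n
      induction n with
      | zero => rw [zero_add, pow_one]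
      | succ n ih => rw [pow_succ, ih, he]
    have h1 := congrArg (fun p => aeval e p * e) huv
    simp only [map_add, map_mul, map_pow, aeval_X, map_sub, map_one, one_mul, add_mul] at h1
    have h2 : (1 - e) ^ (m + 1) * e = 0 := by
      rw [pow_succ, mul_assoc, sub_mul, one_mul, he, sub_self, mul_zero]
    rw [mul_assoc, mul_assoc, h2, mul_zero, add_zero, hpow m, he] at h1
    rw [map_mul, map_pow, aeval_X, hpow m]
    exact h1

lemma comm_aeval {w h : R} (hc : Commute w h) (p : ℝ[X]) : Commute (aeval w p) h := by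
  induction p using Polynomial.induction_on' with
  | add p q hp hq => rw [map_add]; exact hp.add_left hq
  | monomial n a =>
    rw [aeval_monomial]
    exact (Algebra.commute_algebraMap_left a h).mul_left (hc.pow_left n)

lemma sqrt_aeval {w : R} {m : ℕ} (hw : w ^ (m + 1) = 0) {p : ℝ[X]}
    (hp : X ^ (m + 1) ∣ p * p * (1 - X) - 1) : aeval w p * aeval w p * (1 - w) = 1 := by
  obtain ⟨r, hr⟩ := hp
  have h1 := congrArg (aeval w) hr
  simp only [map_sub, map_mul, map_one, aeval_X, map_pow] at h1
  rw [hw, zero_mul, sub_eq_zero] at h1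
  exact h1

end Poly

/-- A real algebra of operators over a field which contains the real numbers, with real traces
and an involution. -/
structure RealOps {L : Type*} [Field L] [Algebra ℝ L] {V : Type*} [AddCommGroup V] [Module L V]
    {R : Type*} [Ring R] [Algebra ℝ R] (ρ : R →+* Module.End L V) (st : R →ₗ[ℝ] R)
    (τ : R →ₗ[ℝ] ℝ) : Prop where
  inj : Function.Injective ρ
  sc : ∀ (c : ℝ) x, ρ (c • x) = algebraMap ℝ L c • ρ x
  tr : ∀ x, algebraMap ℝ L (τ x) = LinearMap.trace L V (ρ x)
  smul : ∀ x y, st (x * y) = st y * st x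
  inv : ∀ x, st (st x) = x
  stτ : ∀ x, τ (st x) = τ x

namespace RealOps

variable {L : Type*} [Field L] [CharZero L] [Algebra ℝ L] {V : Type*} [AddCommGroup V]
  [Module L V] [Module.Finite L V] {R : Type*} [Ring R] [Algebra ℝ R]
  {ρ : R →+* Module.End L V} {st : R →ₗ[ℝ] R} {τ : R →ₗ[ℝ] ℝ} (O : RealOps ρ st τ)

include O

omit [CharZero L] [Module.Finite L V] in
lemma cyc (x y : R) : τ (x * y) = τ (y * x) := by
  apply (algebraMap ℝ L).injective
  rw [O.tr, O.tr, map_mul ρ, map_mul ρ, LinearMap.trace_mul_comm]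

/-- The radical is nil. -/
lemma nil_of_rad {x : R} (hx : ∀ y, τ (x * y) = 0) : IsNilpotent x := by
  have h1 : IsNilpotent (ρ x) := by
    apply Pool.Agent.H914.isNilpotent_of_trace_pow
    intro r
    rw [← map_pow, ← O.tr, pow_succ', hx, map_zero]
  obtain ⟨m, hm⟩ := h1
  exact ⟨m, O.inj (by rw [map_pow, hm, map_zero])⟩

lemma τ_nil {x : R} (hx : IsNilpotent x) : τ x = 0 := by
  apply (algebraMap ℝ L).injective
  rw [O.tr, map_zero]
  exact (LinearMap.isNilpotent_trace_of_isNilpotent (hx.map ρ)).eq_zero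

omit [CharZero L] in
lemma τ_idem {x : R} (hx : x * x = x) : (τ x : ℝ) = Module.finrank L (LinearMap.range (ρ x)) := by
  apply (algebraMap ℝ L).injective
  rw [O.tr, map_natCast]
  exact Pool.Agent.H914.trace_idem (by rw [← map_mul, hx])

omit [CharZero L] in
lemma idem_zero {x : R} (hx : x * x = x) (h0 : Module.finrank L (LinearMap.range (ρ x)) = 0) :
    x = 0 := by
  apply O.inj
  rw [map_zero, ← LinearMap.range_eq_bot]
  exact Submodule.finrank_eq_zero.1 h0

/-- The main lemma on real algebras of operators: an exact anti-isometry. -/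
theorem exists_anti {x : R} (hx : τ (st x * x) < 0) : ∃ h j : R, h * h = h ∧ st h = h ∧
    h * j = j ∧ j * h = j ∧ st j * j = -h ∧ 2 ≤ Module.finrank L (LinearMap.range (ρ h)) := by
  classical
  -- the radical
  let I : Ideal R :=
    { carrier := {x | ∀ y, τ (x * y) = 0}
      add_mem' := by
        intro a b ha hb y
        rw [add_mul, map_add, ha y, hb y, add_zero]
      zero_mem' := by intro y; rw [zero_mul, map_zero]
      smul_mem' := by
        intro c a ha y
        rw [smul_eq_mul, mul_assoc, O.cyc, mul_assoc]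
        exact ha _ }
  have hI : ∀ x, x ∈ I ↔ ∀ y, τ (x * y) = 0 := fun x => Iff.rfl
  have : I.IsTwoSided := ⟨by
    intro a b ha y
    rw [mul_assoc]; exact ha _⟩
  let π : R →ₐ[ℝ] (R ⧸ I) := Ideal.Quotient.mkₐ ℝ I
  have hπ : Function.Surjective π := Ideal.Quotient.mkₐ_surjective ℝ I
  have hker : ∀ x, π x = 0 ↔ x ∈ I := fun x => Ideal.Quotient.eq_zero_iff_mem
  have hnil : ∀ x, π x = 0 → IsNilpotent x := fun x hx => O.nil_of_rad ((hker x).1 hx)
  obtain ⟨τ', hτ'⟩ := factor π.toLinearMap hπ τ (fun x hx => by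
    have := (hker x).1 hx 1
    rwa [mul_one] at this)
  have hτ : ∀ x, τ' (π x) = τ x := hτ'
  obtain ⟨st', hst'⟩ := factor π.toLinearMap hπ (π.toLinearMap ∘ₗ st) (fun x hx => by
    have h1 := (hker x).1 hx
    change π (st x) = 0
    rw [hker]
    intro y
    rw [← O.stτ, O.smul, O.inv, O.cyc]
    exact h1 _)
  have hst : ∀ x, st' (π x) = π (st x) := hst'
  -- finite dimension
  have hfin : Module.Finite ℝ (R ⧸ I) := by
    rw [← Module.rank_lt_aleph0_iff]
    refine lt_of_le_of_lt (rank_le (n := Module.finrank L (Module.End L V)) ?_)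
      (Cardinal.natCast_lt_aleph0)
    intro s hs
    choose f hf using fun i : s => hπ (i : R ⧸ I)
    have hli : LinearIndependent L (fun i : s => ρ (f i)) := by
      rw [Fintype.linearIndependent_iff]
      intro g hg
      have hs' := Fintype.linearIndependent_iff.1 hs
      have key : ∀ φ : Module.Dual ℝ L, ∀ i, φ (g i) = 0 := by
        intro φ
        apply hs' (fun i => φ (g i))
        have h1 : ∑ i, φ (g i) • (i : R ⧸ I) = π (∑ i, φ (g i) • f i) := by
          rw [map_sum]
          apply Finset.sum_congr rfl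
          intro i _
          rw [map_smul, hf]
        rw [h1, hker]
        intro y
        rw [Finset.sum_mul, map_sum]
        have h2 : ∑ i, φ (g i • algebraMap ℝ L (τ (f i * y))) = 0 := by
          rw [← map_sum]
          have h3 : ∑ i, g i • algebraMap ℝ L (τ (f i * y)) = 0 := by
            have h4 := congrArg (fun z => LinearMap.trace L V (z * ρ y)) hg
            simp only [Finset.sum_mul, map_sum, smul_mul_assoc, map_smul, zero_mul, map_zero] at h4
            rw [← h4]
            apply Finset.sum_congr rfl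
            intro i _
            rw [O.tr, map_mul ρ]
          rw [h3, map_zero]
        rw [← h2]
        apply Finset.sum_congr rfl
        intro i _
        rw [smul_mul_assoc, map_smul, smul_eq_mul, smul_eq_mul]
        have h5 : g i * algebraMap ℝ L (τ (f i * y)) = (τ (f i * y)) • g i := by
          rw [Algebra.smul_def, mul_comm]
        rw [h5, map_smul, smul_eq_mul, mul_comm]
      intro i
      exact (Module.forall_dual_apply_eq_zero_iff ℝ (g i)).1 (fun φ => key φ i)
    have := hli.fintype_card_le_finrank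
    rwa [Fintype.card_coe] at this
  have hA : InvAlg st' τ' := by
    refine ⟨?_, ?_, ?_, ?_, ?_, ?_, ?_⟩
    · intro x y
      obtain ⟨x, rfl⟩ := hπ x
      obtain ⟨y, rfl⟩ := hπ y
      rw [← map_mul, hst, hst, hst, O.smul, map_mul]
    · intro x
      obtain ⟨x, rfl⟩ := hπ x
      rw [hst, hst, O.inv]
    · intro x y
      obtain ⟨x, rfl⟩ := hπ x
      obtain ⟨y, rfl⟩ := hπ y
      rw [← map_mul, ← map_mul, hτ, hτ, O.cyc]
    · intro e he
      obtain ⟨x, rfl⟩ := hπ e
      obtain ⟨m, hm⟩ := hnil (x * x - x) (by rw [map_sub, map_mul, he, sub_self])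
      obtain ⟨p, hp1, hp2⟩ := exists_idem_poly (R := R) (Q := R ⧸ I) m
      have h1 := hp1 x (by rw [pow_succ, hm, zero_mul])
      have h2 : π (aeval x p) = π x := by rw [← aeval_algHom_apply, hp2 _ he]
      refine ⟨Module.finrank L (LinearMap.range (ρ (aeval x p))), ?_, ?_⟩
      · rw [← h2, hτ, O.τ_idem h1]
      · intro h0
        rw [← h2, O.idem_zero h1 h0, map_zero]
    · intro x m hx
      obtain ⟨x, rfl⟩ := hπ x
      rw [← map_pow] at hx
      rw [hτ]
      apply O.τ_nil
      obtain ⟨n, hn⟩ := hnil _ hx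
      exact ⟨m * n, by rw [pow_mul, hn]⟩
    · intro x
      obtain ⟨p, hp, hp'⟩ := IsIntegral.of_finite ℝ x
      exact ⟨p, hp.ne_zero, hp'⟩
    · intro x hx
      obtain ⟨x, rfl⟩ := hπ x
      rw [hker]
      intro y
      have := hx (π y)
      rwa [← map_mul, hτ] at this
  obtain ⟨h0, j0, hh, hsh, hne, hj1, hj2, hj3⟩ := hA.has_anti (x := π x) (by
    rw [hst, ← map_mul, hτ]; exact hx)
  -- the lift of the idempotent
  obtain ⟨a, ha⟩ := hπ h0
  set a' := (1 / 2 : ℝ) • (a + st a) with ha'
  have hsa : st a' = a' := by rw [ha', map_smul, map_add, O.inv, add_comm]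
  have hπa : π a' = h0 := by
    rw [ha', map_smul, map_add, ← hst, ha, hsh, ← two_smul ℝ h0, smul_smul]
    norm_num
  obtain ⟨m, hm⟩ := hnil (a' * a' - a') (by rw [map_sub, map_mul, hπa, hh, sub_self])
  obtain ⟨p, hp1, hp2⟩ := exists_idem_poly (R := R) (Q := R ⧸ I) m
  have h1 := hp1 a' (by rw [pow_succ, hm, zero_mul])
  set h := aeval a' p with hh'
  have hπh : π h = h0 := by rw [hh', ← aeval_algHom_apply, hπa, hp2 _ hh]
  have hst_one : st 1 = 1 := by
    have h1 := O.smul 1 (st 1)
    rw [one_mul, O.inv, one_mul] at h1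
    exact h1.symm
  have hst_pow : ∀ (x : R) (m : ℕ), st (x ^ m) = st x ^ m := by
    intro x m
    induction m with
    | zero => rw [pow_zero, pow_zero, hst_one]
    | succ m ih => rw [pow_succ, O.smul, ih, pow_succ']
  have hst_aeval : ∀ {s : R} (hs : st s = s) (p : ℝ[X]), st (aeval s p) = aeval s p := by
    intro s hs p
    induction p using Polynomial.induction_on' with
    | add p q hp hq => rw [map_add, map_add, hp, hq]
    | monomial n a =>
      rw [aeval_monomial, O.smul, hst_pow, hs]
      rw [Algebra.algebraMap_eq_smul_one, map_smul, hst_one, smul_mul_assoc, one_mul,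
        mul_smul_comm, mul_one]
  have hsh' : st h = h := hst_aeval hsa p
  clear_value h
  -- the lift of the anti-isometry
  obtain ⟨b, hb⟩ := hπ j0
  set b' := h * b * h with hb'
  have hb1 : h * b' = b' := by rw [hb', ← mul_assoc, ← mul_assoc, h1]
  have hb2 : b' * h = b' := by rw [hb', mul_assoc, h1]
  have hb3 : π b' = j0 := by rw [hb', map_mul, map_mul, hπh, hb, hj1, hj2]
  clear_value b'
  set w := st b' * b' + h with hw
  have hw1 : h * w = w := by
    have := congrArg st hb2
    rw [O.smul, hsh'] at this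
    rw [hw, mul_add, h1, ← mul_assoc, this]
  have hw2 : w * h = w := by rw [hw, add_mul, h1, mul_assoc, hb2]
  have hw3 : st w = w := by rw [hw, map_add, O.smul, O.inv, hsh']
  obtain ⟨n, hn⟩ := hnil w (by
    rw [hw, map_add, map_mul, ← hst, hb3, hj3, hπh, neg_add_cancel])
  obtain ⟨q, -, hq⟩ := exists_sqrt n
  have hq1 := sqrt_aeval (w := w) (m := n) (by rw [pow_succ, hn, zero_mul]) hq
  have hcwh : Commute w h := by rw [Commute, SemiconjBy, hw1, hw2]
  have hcV := comm_aeval hcwh q
  have hcVw := comm_aeval (Commute.refl w) q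
  have hsV := hst_aeval hw3 q
  set U := aeval w q with hU
  clear_value U
  refine ⟨h, b' * U, h1, hsh', by rw [← mul_assoc, hb1], by
    rw [mul_assoc, hcV.eq, ← mul_assoc, hb2], ?_, ?_⟩
  · have hbb : st b' * b' = -(h * (1 - w)) := by
      rw [mul_sub, mul_one, hw1, hw]; abel
    rw [O.smul, hsV]
    calc U * st b' * (b' * U) = U * (st b' * b') * U := by noncomm_ring
      _ = -(h * (U * U * (1 - w))) := by
        rw [hbb, mul_neg, neg_mul]
        congr 1
        calc U * (h * (1 - w)) * U = (U * h) * ((1 - w) * U) := by noncomm_ring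
          _ = (h * U) * (U * (1 - w)) := by
            have h5 : (1 - w) * U = U * (1 - w) := by
              rw [sub_mul, mul_sub, one_mul, mul_one, hcVw.eq]
            rw [hcV.eq, h5]
          _ = _ := by noncomm_ring
      _ = -h := by rw [hq1, mul_one]
  · have hjh : (b' * U) * h = b' * U := by rw [mul_assoc, hcV.eq, ← mul_assoc, hb2]
    have hhj : h * (b' * U) = b' * U := by rw [← mul_assoc, hb1]
    have hne' : h ≠ 0 := by
      intro h0'
      apply hne
      rw [← hπh, h0', map_zero]
    have hsq : st (b' * U) * (b' * U) = -h := by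
      have hbb : st b' * b' = -(h * (1 - w)) := by
        rw [mul_sub, mul_one, hw1, hw]; abel
      rw [O.smul, hsV]
      calc U * st b' * (b' * U) = U * (st b' * b') * U := by noncomm_ring
        _ = -(h * (U * U * (1 - w))) := by
          rw [hbb, mul_neg, neg_mul]
          congr 1
          calc U * (h * (1 - w)) * U = (U * h) * ((1 - w) * U) := by noncomm_ring
            _ = (h * U) * (U * (1 - w)) := by
              have h5 : (1 - w) * U = U * (1 - w) := by
                rw [sub_mul, mul_sub, one_mul, mul_one, hcVw.eq]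
              rw [hcV.eq, h5]
            _ = _ := by noncomm_ring
        _ = -h := by rw [hq1, mul_one]
    generalize b' * U = j at hjh hhj hsq
    by_contra hlt
    push Not at hlt
    have h1r : Module.finrank L (LinearMap.range (ρ h)) = 1 := by
      have h0r : Module.finrank L (LinearMap.range (ρ h)) ≠ 0 := fun h0' => hne' (O.idem_zero h1 h0')
      omega
    obtain ⟨v, hv0, hv⟩ := finrank_eq_one_iff'.1 h1r
    obtain ⟨l, hl⟩ := hv ⟨ρ j v, by
      rw [← hhj, map_mul]
      exact ⟨ρ j v, rfl⟩⟩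
    have hl' : l • (v : V) = ρ j v := congrArg Subtype.val hl
    have hρ : ρ j = l • ρ h := by
      apply LinearMap.ext
      intro z
      obtain ⟨c, hc⟩ := hv ⟨ρ h z, ⟨z, rfl⟩⟩
      have hc' : c • (v : V) = ρ h z := congrArg Subtype.val hc
      have e1 : ρ j z = ρ j (ρ h z) := by
        rw [← Module.End.mul_apply, ← map_mul, hjh]
      rw [e1, ← hc', map_smul, ← hl', LinearMap.smul_apply, ← hc', smul_comm]
    have hlr : l = algebraMap ℝ L (τ j) := by
      rw [O.tr, hρ, map_smul, ← O.tr, O.τ_idem h1, h1r, Nat.cast_one, map_one, smul_eq_mul, mul_one]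
    have hj : j = τ j • h := by
      apply O.inj
      rw [O.sc, ← hlr]; exact hρ
    generalize τ j = t at hj
    rw [hj, map_smul, hsh', smul_mul_assoc, mul_smul_comm, h1, smul_smul] at hsq
    have h9 : (t * t + 1) • h = 0 := by rw [add_smul, one_smul, hsq, neg_add_cancel]
    rcases smul_eq_zero.1 h9 with h | h
    · nlinarith [mul_self_nonneg t]
    · exact hne' h

end RealOps

end Pool.Agent.J4H47.SG
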