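import Pool.Agent.J4H47.SG.ROp
import Pool.Agent.Y163.Defs

/-!
# Anti-isometries on the powers of a variety
-/

open CategoryTheory AlgebraicGeometry Finset

universe u v

namespace Pool.Agent.J4H47.SG

open Pool.Agent.H914 Pool.Agent.H914.VarClass Pool.Agent.H914.VarClass.Obj
  Pool.Agent.H914.WeilCohomology Pool.Agent.H281R3.HT Pool.Agent.W552 Pool.Agent.W539.Ker

variable {k : Type u} [Field k] {𝒱 : VarClass k} {ops : CycleOps 𝒱}
  {W : WeilCohomology.{u, v} ops} (r : ℝ →+* W.K) {X Y Z : 𝒱.Obj}

/-- The real algebra of operators of weight zero. -/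
noncomputable def RAlg (X : 𝒱.Obj) : Subring (Module.End W.K (W.H X)) where
  carrier := {u | RC r X X 0 u}
  mul_mem' := fun h h' => h.mul h'
  one_mem' := RC.one
  add_mem' := fun h h' => h.add h'
  zero_mem' := RC.zero
  neg_mem' := fun h => h.neg

variable {r}

section One

variable {D : X.Cycles} {f : Module.End W.K (W.H X)} (G : Gd W X D f)

include G

/-- A negative class gives an exact anti-isometry. -/
theorem exists_pair {u u' : Module.End W.K (W.H X)} (hu : RC r X X 0 u)
    (hadj : Adj W D f D f u u') {t : ℝ} (ht : LinearMap.trace W.K (W.H X) (u' * u) = r t)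
    (hneg : t < 0) : ∃ h j j' : Module.End W.K (W.H X), RC r X X 0 h ∧ RC r X X 0 j ∧
      RC r X X 0 j' ∧ Adj W D f D f h h ∧ Adj W D f D f j j' ∧ h * h = h ∧ h * j = j ∧
      j * h = j ∧ j' * j = -h ∧ 2 ≤ Module.finrank W.K (LinearMap.range h) := by
  classical
  let _ : Algebra ℝ W.K := r.toAlgebra
  let i : ℝ →+* RAlg r X :=
    { toFun := fun c => ⟨r c • 1, RC.one.smul c⟩
      map_one' := Subtype.ext (by
        change r 1 • (1 : Module.End W.K (W.H X)) = 1
        rw [map_one, one_smul])
      map_mul' := fun c d => Subtype.ext (by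
        change r (c * d) • (1 : Module.End W.K (W.H X)) = (r c • 1) * (r d • 1)
        rw [map_mul, smul_mul_assoc, one_mul, smul_smul])
      map_zero' := Subtype.ext (by
        change r 0 • (1 : Module.End W.K (W.H X)) = 0
        rw [map_zero, zero_smul])
      map_add' := fun c d => Subtype.ext (by
        change r (c + d) • (1 : Module.End W.K (W.H X)) = r c • 1 + r d • 1
        rw [map_add, add_smul]) }
  let _ : Algebra ℝ (RAlg r X) := RingHom.toAlgebra' i (by
    intro c x
    apply Subtype.ext
    change (r c • (1 : Module.End W.K (W.H X))) * (x : Module.End W.K (W.H X)) =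
      (x : Module.End W.K (W.H X)) * (r c • 1)
    rw [smul_mul_assoc, one_mul, mul_smul_comm, mul_one])
  have hsmul : ∀ (c : ℝ) (x : RAlg r X), ((c • x : RAlg r X) : Module.End W.K (W.H X)) =
      r c • (x : Module.End W.K (W.H X)) := by
    intro c x
    rw [Algebra.smul_def]
    change (r c • (1 : Module.End W.K (W.H X))) * (x : Module.End W.K (W.H X)) = _
    rw [smul_mul_assoc, one_mul]
  choose s hs hs' using fun x : RAlg r X => RC.adj G G x.2
  have hs0 : ∀ x : RAlg r X, RC r X X 0 (s x) := fun x => by have := hs x; rwa [neg_zero] at this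
  let st : RAlg r X →ₗ[ℝ] RAlg r X :=
    { toFun := fun x => ⟨s x, hs0 x⟩
      map_add' := fun x y => Subtype.ext (Adj.uniq G (hs' (x + y)) ((hs' x).add (hs' y)))
      map_smul' := fun c x => Subtype.ext (by
        rw [RingHom.id_apply, hsmul]
        refine Adj.uniq G (hs' (c • x)) ?_
        rw [hsmul]
        exact (hs' x).smul _) }
  have hst : ∀ x : RAlg r X, Adj W D f D f (x : Module.End W.K (W.H X)) (st x : RAlg r X) := hs'
  choose T hT using fun x : RAlg r X => RC.trace G x.2
  have hrinj : Function.Injective r := r.injective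
  let τ : RAlg r X →ₗ[ℝ] ℝ :=
    { toFun := T
      map_add' := fun x y => hrinj (by
        rw [map_add, ← hT, ← hT, ← hT, Subring.coe_add, map_add])
      map_smul' := fun c x => hrinj (by
        rw [RingHom.id_apply, smul_eq_mul, map_mul, ← hT, ← hT, hsmul, map_smul, smul_eq_mul]) }
  have hτ : ∀ x : RAlg r X, r (τ x) = LinearMap.trace W.K (W.H X) (x : Module.End W.K (W.H X)) :=
    fun x => (hT x).symm
  have O : RealOps (L := W.K) (RAlg r X).subtype st τ := by
    refine ⟨Subtype.val_injective, ?_, ?_, ?_, ?_, ?_⟩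
    · intro c x
      exact hsmul c x
    · intro x
      exact hτ x
    · intro x y
      apply Subtype.ext
      refine Adj.uniq G (hst (x * y)) ?_
      have := (hst y).comp (hst x)
      exact this
    · intro x
      apply Subtype.ext
      refine Adj.uniq G (hst (st x)) ?_
      exact Adj.symm' G G (hst x) (RC.par_comm x.2)
    · intro x
      apply hrinj
      rw [hτ, hτ]
      exact Adj.trace_eq G (hst x)
  obtain ⟨h, j, h1, h2, h3, h4, h5, h6⟩ := O.exists_anti (x := ⟨u, hu⟩) (by
    have e1 : ((st ⟨u, hu⟩ : RAlg r X) : Module.End W.K (W.H X)) = u' :=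
      Adj.uniq G (hst ⟨u, hu⟩) hadj
    have e2 : r (τ (st ⟨u, hu⟩ * ⟨u, hu⟩)) = r t := by
      rw [hτ, ← ht, Subring.coe_mul, e1]
    rw [hrinj e2]; exact hneg)
  refine ⟨h, j, st j, h.2, j.2, (st j).2, ?_, hst j, ?_, ?_, ?_, ?_, h6⟩
  · have := hst h
    rwa [h2] at this
  · exact congrArg Subtype.val h1
  · exact congrArg Subtype.val h3
  · exact congrArg Subtype.val h4
  · exact congrArg Subtype.val h5

end One

/-- An operator `J` on the cohomology of `X` which changes the sign of the form on the kernel of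
a symmetric operator `F` of rank at most `N`. -/
def AntiIso (r : ℝ →+* W.K) (D : X.Cycles) (f : Module.End W.K (W.H X)) (N : ℕ) : Prop :=
  ∃ J J' F : Module.End W.K (W.H X), RC r X X 0 J ∧ RC r X X 0 F ∧ Adj W D f D f J J' ∧
    Adj W D f D f F F ∧ J' * J = F - 1 ∧ Module.finrank W.K (LinearMap.range F) ≤ N

/-- The rank of an external product. -/
lemma finrank_ext (u : Module.End W.K (W.H X)) (w : Module.End W.K (W.H Y)) :
    Module.finrank W.K (LinearMap.range (extOp W u w)) ≤
      Module.finrank W.K (LinearMap.range u) * Module.finrank W.K (LinearMap.range w) := by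
  have h1 : LinearMap.range (extOp W u w) ≤ LinearMap.range ((kappa W X Y).toLinearMap ∘ₗ
      TensorProduct.map (LinearMap.range u).subtype (LinearMap.range w).subtype) := by
    have h2 : extOp W u w = ((kappa W X Y).toLinearMap ∘ₗ
      TensorProduct.map (LinearMap.range u).subtype (LinearMap.range w).subtype) ∘ₗ
        TensorProduct.map u.rangeRestrict w.rangeRestrict ∘ₗ (kappa W X Y).symm.toLinearMap := by
      have e : TensorProduct.map u w = TensorProduct.map (LinearMap.range u).subtype
          (LinearMap.range w).subtype ∘ₗ TensorProduct.map u.rangeRestrict w.rangeRestrict := by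
        rw [← TensorProduct.map_comp]; rfl
      rw [extOp, e]
      rfl
    rw [h2]
    exact LinearMap.range_comp_le_range _ _
  refine (Submodule.finrank_mono h1).trans ?_
  refine (LinearMap.finrank_range_le _).trans ?_
  rw [Module.finrank_tensorProduct]

theorem AntiIso.step {D : X.Cycles} {f : Module.End W.K (W.H X)} (G : Gd W X D f) {E : Y.Cycles}
    {g : Module.End W.K (W.H Y)} (G' : Gd W Y E g) {N : ℕ}
    {h j j' : Module.End W.K (W.H X)} (hh : RC r X X 0 h) (hj : RC r X X 0 j)
    (hadh : Adj W D f D f h h) (hadj : Adj W D f D f j j') (h1 : h * h = h) (h2 : h * j = j)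
    (h3 : j * h = j) (h4 : j' * j = -h) (h5 : 2 ≤ Module.finrank W.K (LinearMap.range h))
    (hN : AntiIso r E g N) :
    AntiIso r (ops.pull (fst X Y) D + ops.pull (snd X Y) E) (extSum W f g)
      ((Module.finrank W.K (W.H X) - 2) * N) := by
  obtain ⟨J, J', F, hJ, hF, haJ, haF, hJJ, hr⟩ := hN
  have hF1 : RC r X X 0 (1 - h) := RC.one.sub hh
  have ha1 : Adj W D f D f (1 - h) (1 - h) := by
    intro p q
    rw [LinearMap.sub_apply, map_sub, LinearMap.sub_apply, hadh, LinearMap.sub_apply, map_sub]
    rfl
  have h6 : j' * (1 - h) = 0 := by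
    -- the adjoint of `(1 - h) * j = 0`
    have e1 : (1 - h) * j = 0 := by rw [sub_mul, one_mul, h2, sub_self]
    have e2 : Adj W D f D f ((1 - h) * j) (j' * (1 - h)) := hadj.comp ha1
    rw [e1] at e2
    exact Adj.uniq G e2 Adj.zero
  have h7 : (1 - h) * (1 - h) = 1 - h := by
    rw [sub_mul, mul_sub, mul_sub, h1]; simp
  have h8 : (1 - h) * j = 0 := by rw [sub_mul, one_mul, h2, sub_self]
  refine ⟨extOp W j 1 + extOp W (1 - h) J, extOp W j' 1 + extOp W (1 - h) J',
    extOp W (1 - h) F, (hj.ext RC.one).add (hF1.ext hJ), hF1.ext hF,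
    (Adj.ext G G' hadj Adj.one).add (Adj.ext G G' ha1 haJ), Adj.ext G G' ha1 haF, ?_, ?_⟩
  · rw [add_mul, mul_add, mul_add, extOp_mul, extOp_mul, extOp_mul, extOp_mul, h4, h6, h7, h8,
      hJJ, extOp_zero_left, extOp_zero_left, mul_one, add_zero, zero_add]
    have e1 : extOp W (1 - h) (F - 1) = extOp W (1 - h) F - extOp W (1 - h) 1 := by
      refine eq_sub_of_add_eq ?_
      rw [← extOp_add_right, sub_add_cancel]
    have e2 : extOp W (-h) (1 : Module.End W.K (W.H Y)) - extOp W (1 - h) 1 = -1 := by
      rw [sub_eq_iff_eq_add, ← extOp_one (W := W) (Y := X) (Z := Y)]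
      have h9 : (1 - h : Module.End W.K (W.H X)) = 1 + -h := sub_eq_add_neg 1 h
      rw [h9, extOp_add_left]
      abel
    rw [e1]
    calc extOp W (-h) 1 + (extOp W (1 - h) F - extOp W (1 - h) 1) =
        extOp W (1 - h) F + (extOp W (-h) 1 - extOp W (1 - h) 1) := by abel
      _ = _ := by rw [e2]; abel
  · refine (finrank_ext _ _).trans (Nat.mul_le_mul ?_ hr)
    have e1 : Module.finrank W.K (LinearMap.range (1 - h)) +
        Module.finrank W.K (LinearMap.range h) ≤ Module.finrank W.K (W.H X) := by
      have e2 : LinearMap.range h ≤ LinearMap.ker (1 - h) := by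
        rintro _ ⟨x, rfl⟩
        rw [LinearMap.mem_ker, ← Module.End.mul_apply, sub_mul, one_mul, h1, sub_self,
          LinearMap.zero_apply]
      have e3 := LinearMap.finrank_range_add_finrank_ker (1 - h)
      have e4 := Submodule.finrank_mono e2
      omega
    omega

/-- The operator on `X` itself. -/
theorem AntiIso.base {D : X.Cycles} {f : Module.End W.K (W.H X)}
    {h j j' : Module.End W.K (W.H X)} (hh : RC r X X 0 h) (hj : RC r X X 0 j)
    (hadh : Adj W D f D f h h) (hadj : Adj W D f D f j j') (h1 : h * h = h)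
    (h4 : j' * j = -h) (h5 : 2 ≤ Module.finrank W.K (LinearMap.range h)) :
    AntiIso r D f (Module.finrank W.K (W.H X) - 2) := by
  refine ⟨j, j', 1 - h, hj, RC.one.sub hh, hadj, ?_, ?_, ?_⟩
  · intro p q
    rw [LinearMap.sub_apply, map_sub, LinearMap.sub_apply, hadh, LinearMap.sub_apply, map_sub]
    rfl
  · rw [h4]; abel
  · have e2 : LinearMap.range h ≤ LinearMap.ker (1 - h) := by
      rintro _ ⟨x, rfl⟩
      rw [LinearMap.mem_ker, ← Module.End.mul_apply, sub_mul, one_mul, h1, sub_self,
        LinearMap.zero_apply]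
    have e3 := LinearMap.finrank_range_add_finrank_ker (1 - h)
    have e4 := Submodule.finrank_mono e2
    omega

end Pool.Agent.J4H47.SG
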