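import Pool.Agent.R940.KBase
import Pool.Agent.X310.Mom5
import Pool.Agent.W539.Sig.Core
import Pool.Agent.W552.Main

/-!
# The Lefschetz standard conjecture and extensions of the field of coefficients
-/

set_option linter.unusedVariables false
set_option linter.unusedSectionVars false

open CategoryTheory AlgebraicGeometry CategoryTheory.Limits TensorProduct

universe u v

namespace Pool.Agent.J4H47.SG

open Pool.Agent.H914 Pool.Agent.H447 Pool.Agent.W534 Pool.Agent.Y163 VarClass Obj WeilCohomology
  Module

variable {k : Type u} [Field k] {𝒱 : VarClass k} {ops : CycleOps 𝒱}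
  {W : WeilCohomology.{u, v} ops} {X Y Z : 𝒱.Obj} (L : Type v) [Field L] [Algebra W.K L]

lemma wt_base (n : ℕ) : wt ((baseW W L).isInternal X) n =
    ((wt (W.isInternal X) n).baseChange L : L ⊗[W.K] W.H X →ₗ[L] L ⊗[W.K] W.H X) := by
  apply LinearMap.ext
  intro x
  refine gr_induction ((baseW W L).isInternal X) (p := fun x => wt ((baseW W L).isInternal X) n x =
    ((wt (W.isInternal X) n).baseChange L : L ⊗[W.K] W.H X →ₗ[L] L ⊗[W.K] W.H X) x) ?_ ?_ x
  · intro i a ha
    have ha1 : a ∈ (W.gr X i).baseChange L := ha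
    rw [Submodule.baseChange_eq_span] at ha1
    have h0 : wt ((baseW W L).isInternal X) n a = ((node n i : ℚ) : (baseW W L).K) • a :=
      scal_apply ((baseW W L).isInternal X) _ ha
    rw [h0]
    clear h0 ha
    change (((node n i : ℚ) : L)) • (show L ⊗[W.K] W.H X from a) =
      (wt (W.isInternal X) n).baseChange L (show L ⊗[W.K] W.H X from a)
    change (show L ⊗[W.K] W.H X from a) ∈ _ at ha1
    generalize (show L ⊗[W.K] W.H X from a) = y at ha1 ⊢
    induction ha1 using Submodule.span_induction with
    | mem x hx =>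
      obtain ⟨c, hc, rfl⟩ := hx
      have h1 : wt (W.isInternal X) n c = ((node n i : ℚ) : W.K) • c := scal_apply _ _ hc
      rw [TensorProduct.mk_apply, LinearMap.baseChange_tmul, h1, TensorProduct.tmul_smul,
        ← algebraMap_smul L ((node n i : ℚ) : W.K), map_ratCast]
    | zero => rw [smul_zero, map_zero]
    | add x y hx' hy' hx hy =>
      rw [smul_add, map_add, hx, hy]
    | smul c x hx' hx =>
      rw [smul_comm, hx, map_smul]
  · intro a b ha hb
    rw [map_add, ha, hb]
    exact (map_add ((wt (W.isInternal X) n).baseChange L) a b).symm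

/-- **The Lefschetz standard conjecture after an extension of the field of coefficients.** -/
theorem lefschetzB_base {D : X.Cycles} (hD : X.IsCyc 1 D) (hHL : HardLefschetz W X D)
    (hB : LefschetzB W X D) : LefschetzB (baseW W L) X D := by
  obtain ⟨f, t, hf⟩ := Pool.Agent.X310.Mom.exists_low_kop hD hHL hB
  have t' : Sl2 (wt (W.isInternal X) X.dim) (LinearMap.mulLeft W.K (W.cl X D)) f := t
  have hmap := t'.map (Module.End.baseChangeHom W.K L (W.H X)).toRingHom
  have h1 : Sl2 (wt ((baseW W L).isInternal X) X.dim)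
      (LinearMap.mulLeft (baseW W L).K ((baseW W L).cl X D))
      (f.baseChange L : L ⊗[W.K] W.H X →ₗ[L] L ⊗[W.K] W.H X) := by
    have e1 : (LinearMap.mulLeft (baseW W L).K ((baseW W L).cl X D)) =
        ((LinearMap.mulLeft W.K (W.cl X D)).baseChange L :
          L ⊗[W.K] W.H X →ₗ[L] L ⊗[W.K] W.H X) := mulLeft_base (L := L) (W.cl X D)
    rw [wt_base, e1]
    exact hmap
  exact Pool.Agent.X310.Mom.lefschetzB_of_low hD (base_hardLefschetz hD hHL) h1 (KOp.base hf)

end Pool.Agent.J4H47.SG
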