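import Mathlib

/-!
# Comparison of the numbers of positive and negative squares
-/

open Finset

namespace Pool.Agent.J4H47.SG

theorem count {K : Type*} [Field K] (r : ℝ →+* K) {E : Type*} [AddCommGroup E] [Module K E]
    [Module.Finite K E] (Bf : E →ₗ[K] E →ₗ[K] K) (P : E → Prop)
    (hreal : ∀ a b, P a → P b → ∃ t : ℝ, Bf a b = r t) {ι : Type*} [Fintype ι]
    (u : ι → E) (s : ι → ℝ) (hu : ∀ i, P (u i)) (hsum : ∀ c : ι → ℝ, P (∑ i, r (c i) • u i))
    (hs : ∀ i, s i ≠ 0) (hd : ∀ i, Bf (u i) (u i) = r (s i))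
    (ho : ∀ i j, i ≠ j → Bf (u i) (u j) = 0)
    (hdec : ∀ w, P w → ∃ (e : ι → ℝ) (w' : E), w = w' + ∑ i, r (e i) • u i ∧
      (∀ i, Bf w' (u i) = 0) ∧ (∀ i, Bf (u i) w' = 0) ∧ Bf w' w' = 0)
    (J F : E →ₗ[K] E) (hPJ : ∀ a, P a → P (J a)) (hPF : ∀ a, P a → P (F a))
    (hJ : ∀ a b, P a → P b → Bf (J a) (J b) = Bf (F a) b - Bf a b) {M : ℕ}
    (hM : Module.finrank K (LinearMap.range F) ≤ M) :
    (univ.filter (fun i => 0 < s i)).card ≤ (univ.filter (fun i => s i < 0)).card + M := by
  classical
  by_contra hcon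
  have hcon := not_le.1 hcon
  set ιp := {i // 0 < s i}
  set ιn := {i // s i < 0}
  have hrinj := r.injective
  -- a maximal independent subfamily
  obtain ⟨κ, a, ha, hspan, hli⟩ := exists_linearIndependent' K (fun i : ιp => F (u i.1))
  have hκ : Finite κ := Finite.of_injective a ha
  have : Fintype κ := Fintype.ofFinite κ
  have hκM : Fintype.card κ ≤ M := by
    have h1 : LinearIndependent K (fun x : κ => (⟨F (u (a x).1), ⟨_, rfl⟩⟩ :
        LinearMap.range F)) := by
      apply LinearIndependent.of_comp (LinearMap.range F).subtype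
      exact hli
    exact h1.fintype_card_le_finrank.trans hM
  choose g hg using fun (x : κ) (i : ιp) => hreal (F (u (a x).1)) (u i.1) (hPF _ (hu _)) (hu _)
  choose h hh using fun (j : ιn) (i : ιp) => hreal (J (u i.1)) (u j.1) (hPJ _ (hu _)) (hu _)
  let Φ : (ιp → ℝ) →ₗ[ℝ] (κ ⊕ ιn → ℝ) :=
    LinearMap.pi (Sum.elim (fun x => Fintype.linearCombination ℝ (g x))
      (fun j => Fintype.linearCombination ℝ (h j)))
  obtain ⟨c, hc, hc0⟩ : ∃ c, Φ c = 0 ∧ c ≠ 0 := by
    by_contra hno
    push Not at hno
    have hinj : Function.Injective Φ := by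
      rw [← LinearMap.ker_eq_bot, LinearMap.ker_eq_bot']
      intro c hc; exact hno c hc
    have h1 := LinearMap.finrank_le_finrank_of_injective hinj
    rw [Module.finrank_fintype_fun_eq_card, Module.finrank_fintype_fun_eq_card,
      Fintype.card_sum, Fintype.card_subtype, Fintype.card_subtype] at h1
    omega
  have hc1 : ∀ x, ∑ i, c i * g x i = 0 := by
    intro x
    have := congrFun hc (Sum.inl x)
    simpa [Φ, Fintype.linearCombination_apply] using this
  have hc2 : ∀ j, ∑ i, c i * h j i = 0 := by
    intro j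
    have := congrFun hc (Sum.inr j)
    simpa [Φ, Fintype.linearCombination_apply] using this
  set v := ∑ i : ιp, r (c i) • u i.1 with hv
  have hPv : P v := by
    have h1 := hsum (fun i => if hi : 0 < s i then c ⟨i, hi⟩ else 0)
    have h2 : ∑ i, r (if hi : 0 < s i then c ⟨i, hi⟩ else 0) • u i = v := by
      rw [hv]
      rw [← Finset.sum_subset (Finset.subset_univ (univ.filter (fun i => 0 < s i)))]
      · rw [Finset.sum_subtype (univ.filter (fun i => 0 < s i)) (p := fun i => 0 < s i) (by simp)]
        apply Finset.sum_congr rfl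
        rintro ⟨i, hi⟩ _
        simp only [dif_pos hi]
      · intro i _ hi
        have : ¬ 0 < s i := by simpa using hi
        rw [dif_neg this, map_zero, zero_smul]
    rwa [h2] at h1
  -- the squares
  have hvv : Bf v v = r (∑ i : ιp, c i * c i * s i.1) := by
    rw [hv, map_sum Bf, LinearMap.sum_apply, map_sum r]
    apply Finset.sum_congr rfl
    intro i _
    rw [map_sum, Finset.sum_eq_single i]
    · rw [map_smul, map_smul, LinearMap.smul_apply, hd, smul_eq_mul, smul_eq_mul, map_mul, map_mul]
      ring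
    · intro j _ hj
      rw [map_smul, map_smul, LinearMap.smul_apply, ho i.1 j.1 (fun h => hj (Subtype.ext h.symm)),
        smul_zero, smul_zero]
    · intro h0; exact absurd (Finset.mem_univ _) h0
  have hpos : 0 < ∑ i : ιp, c i * c i * s i.1 := by
    obtain ⟨i, hi⟩ : ∃ i, c i ≠ 0 := by
      by_contra hall
      push Not at hall
      exact hc0 (funext hall)
    exact Finset.sum_pos' (fun j _ => mul_nonneg (mul_self_nonneg _) j.2.le)
      ⟨i, Finset.mem_univ _, mul_pos (mul_self_pos.2 hi) i.2⟩
  have hFv : Bf (F v) v = 0 := by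
    have h1 : F v ∈ Submodule.span K (Set.range ((fun i : ιp => F (u i.1)) ∘ a)) := by
      rw [hspan, hv, map_sum]
      apply Submodule.sum_mem
      intro i _
      rw [map_smul]
      exact Submodule.smul_mem _ _ (Submodule.subset_span ⟨i, rfl⟩)
    have h2 : ∀ y ∈ Submodule.span K (Set.range ((fun i : ιp => F (u i.1)) ∘ a)), Bf y v = 0 := by
      intro y hy
      induction hy using Submodule.span_induction with
      | mem y hy =>
        obtain ⟨x, rfl⟩ := hy
        change Bf (F (u (a x).1)) v = 0
        have h3 : Bf (F (u (a x).1)) v = r (∑ i, c i * g x i) := by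
          rw [hv, map_sum, map_sum r]
          apply Finset.sum_congr rfl
          intro i _
          rw [map_smul, hg, smul_eq_mul, map_mul]
        rw [h3, hc1, map_zero]
      | zero => rw [map_zero, LinearMap.zero_apply]
      | add y z _ _ hy hz => rw [map_add, LinearMap.add_apply, hy, hz, add_zero]
      | smul b y _ hy => rw [map_smul, LinearMap.smul_apply, hy, smul_zero]
    exact h2 _ h1
  have hww : Bf (J v) (J v) = r (-∑ i : ιp, c i * c i * s i.1) := by
    rw [hJ v v hPv hPv, hFv, hvv, map_neg, zero_sub]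
  have hwj : ∀ j : ιn, Bf (J v) (u j.1) = 0 := by
    intro j
    have h3 : Bf (J v) (u j.1) = r (∑ i, c i * h j i) := by
      rw [hv, map_sum J, map_sum Bf, LinearMap.sum_apply, map_sum r]
      apply Finset.sum_congr rfl
      intro i _
      rw [map_smul J, map_smul, LinearMap.smul_apply, hh, smul_eq_mul, map_mul]
    rw [h3, hc2, map_zero]
  obtain ⟨e, w', hw, hw1, hw2, hw3⟩ := hdec (J v) (hPJ _ hPv)
  have hBu : ∀ i, Bf (J v) (u i) = r (e i * s i) := by
    intro i
    rw [hw, map_add, LinearMap.add_apply, hw1, zero_add, map_sum Bf, LinearMap.sum_apply,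
      Finset.sum_eq_single i]
    · rw [map_smul, LinearMap.smul_apply, hd, smul_eq_mul, map_mul]
    · intro j _ hj
      rw [map_smul, LinearMap.smul_apply, ho j i hj, smul_zero]
    · intro h0; exact absurd (Finset.mem_univ _) h0
  have hen : ∀ i, s i < 0 → e i = 0 := by
    intro i hi
    have h1 := hwj ⟨i, hi⟩
    rw [hBu] at h1
    have h2 := hrinj (h1.trans (map_zero r).symm)
    exact (mul_eq_zero.1 h2).resolve_right hi.ne
  have hww2 : Bf (J v) (J v) = r (∑ i, e i * e i * s i) := by
    have h1 : Bf (J v) w' = 0 := by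
      rw [hw, map_add, LinearMap.add_apply, hw3, zero_add, map_sum Bf, LinearMap.sum_apply]
      apply Finset.sum_eq_zero
      intro i _
      rw [map_smul, LinearMap.smul_apply, hw2, smul_zero]
    have h2 : Bf (J v) (J v) = Bf (J v) (w' + ∑ i, r (e i) • u i) := by rw [← hw]
    rw [h2, map_add, h1, zero_add, map_sum, map_sum r]
    apply Finset.sum_congr rfl
    intro i _
    rw [map_smul, hBu, smul_eq_mul, map_mul, map_mul, map_mul]
    ring
  have hfin := hrinj (hww.symm.trans hww2)
  have hnn : 0 ≤ ∑ i, e i * e i * s i := by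
    apply Finset.sum_nonneg
    intro i _
    rcases lt_or_gt_of_ne (hs i) with h0 | h0
    · rw [hen i h0]; simp
    · exact mul_nonneg (mul_self_nonneg _) h0.le
  linarith

end Pool.Agent.J4H47.SG
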