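import Pool.Agent.J4H47.SG.Anti
import Pool.Agent.J4H47.SG.Count

/-!
# The bound for the signature of the form on the algebraic classes on `X × X`
-/

open CategoryTheory AlgebraicGeometry Finset

universe u v

namespace Pool.Agent.J4H47.SG

open Pool.Agent.H914 Pool.Agent.H914.VarClass Pool.Agent.H914.VarClass.Obj
  Pool.Agent.H914.WeilCohomology Pool.Agent.H281R3.HT Pool.Agent.W552 Pool.Agent.W539.Ker

variable {k : Type u} [Field k] {𝒱 : VarClass k} {ops : CycleOps 𝒱}
  {W : WeilCohomology.{u, v} ops} {r : ℝ →+* W.K} {X Y Z : 𝒱.Obj}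

/-- A maximal orthogonal family of algebraic classes of weight `m`. -/
structure Fam (W : WeilCohomology.{u, v} ops) (Z : 𝒱.Obj) (E : Z.Cycles)
    (g : Module.End W.K (W.H Z)) (m : ℤ) {ι : Type} (y : ι → W.H Z) (s : ι → ℚ) : Prop where
  as : ∀ i, AS W Z (y i)
  wtt : ∀ i, H914.wt (W.isInternal Z) Z.dim (y i) = (m : W.K) • y i
  ne : ∀ i, s i ≠ 0
  sq : ∀ i, bf W Z E g (y i) (y i) = (s i : W.K)
  orth : ∀ i j, i ≠ j → bf W Z E g (y i) (y j) = 0
  max : ∀ u, AS W Z u → H914.wt (W.isInternal Z) Z.dim u = (m : W.K) • u →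
      (∀ i, bf W Z E g u (y i) = 0) → bf W Z E g u u = 0

lemma par_AS {z : W.H Z} (hz : AS W Z z) : par (W.isInternal Z) z = z := by
  refine AS.ind (p := fun y => par (W.isInternal Z) y = y) ?_ ?_ hz
  · intro j y hy
    rw [par, scal_apply _ _ (alg_gr hy), pow_mul]
    simp
  · intro y y' hy hy'
    rw [map_add, hy, hy']

lemma bf_symm {E : Z.Cycles} {g : Module.End W.K (W.H Z)} (S : Sy W Z E g) {x z : W.H Z}
    (hz : AS W Z z) : bf W Z E g x z = bf W Z E g z x := by
  rw [S, par_AS hz]

/-- The projection to the radical. -/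
lemma Fam.rad {E : Z.Cycles} {g : Module.End W.K (W.H Z)} (F : Fr W Z E g) (S : Sy W Z E g)
    {m : ℤ} {ι : Type} [Fintype ι] {y : ι → W.H Z} {s : ι → ℚ} (Q : Fam W Z E g m y s)
    {x : W.H Z} (hx : AS W Z x) (hxw : wt (W.isInternal Z) Z.dim x = (m : W.K) • x) :
    ∃ q : ι → ℚ, AS W Z (x - ∑ i, (q i : W.K) • y i) ∧
      wt (W.isInternal Z) Z.dim (x - ∑ i, (q i : W.K) • y i) =
        (m : W.K) • (x - ∑ i, (q i : W.K) • y i) ∧
      ∀ z, AS W Z z → wt (W.isInternal Z) Z.dim z = (m : W.K) • z →
        bf W Z E g (x - ∑ i, (q i : W.K) • y i) z = 0 := by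
  classical
  have proj : ∀ x : W.H Z, AS W Z x → wt (W.isInternal Z) Z.dim x = (m : W.K) • x →
      ∃ q : ι → ℚ, AS W Z (x - ∑ i, (q i : W.K) • y i) ∧
      wt (W.isInternal Z) Z.dim (x - ∑ i, (q i : W.K) • y i) =
        (m : W.K) • (x - ∑ i, (q i : W.K) • y i) ∧
      ∀ j, bf W Z E g (x - ∑ i, (q i : W.K) • y i) (y j) = 0 := by
    intro x hx hxw
    choose c hc using fun i => F.bf_rat hx (Q.as i)
    refine ⟨fun i => c i / s i, ?_, ?_, ?_⟩
    · have h1 : AS W Z (∑ i, ((c i / s i : ℚ) : W.K) • y i) := by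
        exact AS.ratSub.sum _ (fun i _ => (Q.as i).smul _)
      have h2 := hx.add (h1.smul (-1))
      rw [Rat.cast_neg, Rat.cast_one, neg_one_smul, ← sub_eq_add_neg] at h2
      exact h2
    · rw [map_sub, map_sum, hxw, smul_sub, Finset.smul_sum]
      congr 1
      apply Finset.sum_congr rfl
      intro i _
      rw [map_smul, Q.wtt, smul_comm]
    · intro j
      rw [map_sub, LinearMap.sub_apply, hc, map_sum, LinearMap.sum_apply, Finset.sum_eq_single j]
      · rw [map_smul, LinearMap.smul_apply, Q.sq, smul_eq_mul, ← Rat.cast_mul,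
          div_mul_cancel₀ _ (Q.ne j), sub_self]
      · intro i _ hi
        rw [map_smul, LinearMap.smul_apply, Q.orth i j hi, smul_zero]
      · intro h0; exact absurd (Finset.mem_univ _) h0
  obtain ⟨q, hq1, hq2, hq3⟩ := proj x hx hxw
  refine ⟨q, hq1, hq2, ?_⟩
  set x' := x - ∑ i, (q i : W.K) • y i with hx'
  intro z hz hzw
  obtain ⟨p, hp1, hp2, hp3⟩ := proj z hz hzw
  set z' := z - ∑ i, (p i : W.K) • y i with hz'
  have h1 := Q.max x' hq1 hq2 hq3
  have h2 := Q.max z' hp1 hp2 hp3
  have h3 := Q.max (x' + z') (hq1.add hp1) (by rw [map_add, hq2, hp2, smul_add])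
    (fun i => by rw [map_add, LinearMap.add_apply, hq3, hp3, add_zero])
  have h3' : bf W Z E g x' x' + bf W Z E g x' z' + (bf W Z E g z' x' + bf W Z E g z' z') = 0 := by
    rw [← h3, map_add (bf W Z E g), LinearMap.add_apply, map_add, map_add]
  have h6 : bf W Z E g x' z' = 0 := by
    rw [h1, h2, zero_add, add_zero, bf_symm S hp1, ← two_mul] at h3'
    rw [bf_symm S hp1]
    exact (mul_eq_zero.1 h3').resolve_left two_ne_zero
  have h5 : z = z' + ∑ i, (p i : W.K) • y i := by rw [hz', sub_add_cancel]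
  rw [h5, map_add, h6, zero_add, map_sum]
  apply Finset.sum_eq_zero
  intro i _
  rw [map_smul, hq3, smul_zero]

section Main

variable {D : X.Cycles} {f : Module.End W.K (W.H X)} (G : Gd W X D f)

include G

/-- The adjoint as a linear map. -/
lemma exists_adjL : ∃ A : Module.End W.K (W.H X) →ₗ[W.K] Module.End W.K (W.H X),
    ∀ u, Adj W D f D f u (A u) := by
  have hinj : Function.Injective (bf W X D f).flip := by
    rw [← LinearMap.ker_eq_bot, LinearMap.ker_eq_bot']
    intro q hq
    apply G.nondeg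
    intro p
    exact congrArg (fun F => F p) hq
  let e : W.H X ≃ₗ[W.K] Module.Dual W.K (W.H X) :=
    LinearMap.linearEquivOfInjective _ hinj (Subspace.dual_finrank_eq).symm
  have he : ∀ q p, e q p = bf W X D f p q := fun q p => rfl
  refine ⟨{ toFun := fun u => e.symm.toLinearMap ∘ₗ u.dualMap ∘ₗ e.toLinearMap
            map_add' := ?_
            map_smul' := ?_ }, ?_⟩
  · intro u w
    have : (u + w).dualMap = u.dualMap + w.dualMap := by
      apply LinearMap.ext; intro φ
      apply LinearMap.ext; intro x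
      simp
    rw [this, LinearMap.add_comp, LinearMap.comp_add]
  · intro c u
    have : (c • u).dualMap = c • u.dualMap := by
      apply LinearMap.ext; intro φ
      apply LinearMap.ext; intro x
      simp
    rw [this, LinearMap.smul_comp, LinearMap.comp_smul, RingHom.id_apply]
  · intro u p q
    change _ = bf W X D f p (e.symm (u.dualMap (e q)))
    rw [← he (e.symm (u.dualMap (e q))) p, LinearEquiv.apply_symm_apply, LinearMap.dualMap_apply,
      he]

/-- **The bound for the signature.** -/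
theorem Fam.bound {N : ℕ} (hN : AntiIso r D f N) {m : ℤ} {ι : Type} [Fintype ι]
    {y : ι → W.H (X.prod X)} {s : ι → ℚ}
    (Q : Fam W (X.prod X) (ops.pull (fst X X) D + ops.pull (snd X X) D) (extSum W f f) m y s)
    (ε : ℚ) (hε : ε = 1 ∨ ε = -1) :
    (univ.filter (fun i => 0 < ε * s i)).card ≤ (univ.filter (fun i => ε * s i < 0)).card +
      N * Module.finrank W.K (W.H X) := by
  classical
  obtain ⟨J, J', F, hJ, hF, haJ, haF, hJJ, hr⟩ := hN
  obtain ⟨A, hA⟩ := exists_adjL G
  have FP := G.fr.prod G.fr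
  have SP : Sy W (X.prod X) (ops.pull (fst X X) D + ops.pull (snd X X) D) (extSum W f f) :=
    Sy.prod G.fr G.fr G.sy G.sy
  have hAmul : ∀ u w, A (u * w) = A w * A u := by
    intro u w
    refine Adj.uniq G (hA (u * w)) ?_
    exact (hA w).comp (hA u)
  have hAJ : A J = J' := Adj.uniq G (hA J) haJ
  have hε0 : ε ≠ 0 := by rcases hε with h | h <;> rw [h] <;> norm_num
  let Bf : Module.End W.K (W.H X) →ₗ[W.K] Module.End W.K (W.H X) →ₗ[W.K] W.K :=
    LinearMap.mk₂ W.K (fun a b => (ε : W.K) * LinearMap.trace W.K (W.H X) (A b * a))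
      (fun a a' b => by rw [mul_add (A b), map_add, mul_add])
      (fun c a b => by rw [mul_smul_comm, map_smul, smul_eq_mul, smul_eq_mul]; ring)
      (fun a b b' => by rw [map_add A, add_mul, map_add, mul_add])
      (fun c a b => by rw [map_smul A, smul_mul_assoc, map_smul, smul_eq_mul, smul_eq_mul]; ring)
  have hBf : ∀ a b, Bf a b = (ε : W.K) * LinearMap.trace W.K (W.H X) (A b * a) := fun _ _ => rfl
  have hRA : ∀ b : Module.End W.K (W.H X), RC r X X m b → RC r X X (-m) (A b) := by
    intro b hb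
    obtain ⟨b', hb', hadj⟩ := RC.adj G G hb
    rw [Adj.uniq G (hA b) hadj]; exact hb'
  have hreal : ∀ a b, RC r X X m a → RC r X X m b → ∃ t : ℝ, Bf a b = r t := by
    intro a b ha hb
    obtain ⟨t, ht⟩ := RC.trace G (RC.comp (hRA b hb) ha)
    refine ⟨ε * t, ?_⟩
    rw [hBf, map_mul r, map_ratCast, ← ht]
    rfl
  have hcorr : ∀ (x x' : W.H (X.prod X)), AS W _ x → AS W _ x' →
      Bf (W.corr x) (W.corr x') = (ε : W.K) * bf W (X.prod X) (ops.pull (fst X X) D +
        ops.pull (snd X X) D) (extSum W f f) x' x := by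
    intro x x' hx hx'
    rw [hBf]
    congr 1
    exact G.trace_corr G hx hx' (hA (W.corr x'))
  have hu : ∀ i, RC r X X m (W.corr (y i)) := fun i =>
    RC.of ⟨_, Q.as i, rfl⟩ (hm_corr.2 (Q.wtt i))
  have hdec : ∀ w, RC r X X m w → ∃ (e : ι → ℝ) (w' : Module.End W.K (W.H X)),
      w = w' + ∑ i, r (e i) • W.corr (y i) ∧
      ∀ w'', RC r X X m w'' → Bf w' w'' = 0 ∧ Bf w'' w' = 0 := by
    intro w hw
    refine RC.ind (p := fun w => ∃ (e : ι → ℝ) (w' : Module.End W.K (W.H X)),
      w = w' + ∑ i, r (e i) • W.corr (y i) ∧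
      ∀ w'', RC r X X m w'' → Bf w' w'' = 0 ∧ Bf w'' w' = 0) ?_ ?_ ?_ hw
    · refine ⟨0, 0, ?_, ?_⟩
      · simp
      · intro w'' _
        rw [map_zero, map_zero]
        exact ⟨rfl, rfl⟩
    · rintro a b ⟨e, a', ha, ha'⟩ ⟨e', b', hb, hb'⟩
      refine ⟨e + e', a' + b', ?_, ?_⟩
      · rw [ha, hb]
        simp only [Pi.add_apply, map_add, add_smul, Finset.sum_add_distrib]
        abel
      · intro w'' hw''
        rw [map_add, LinearMap.add_apply, (ha' w'' hw'').1, (hb' w'' hw'').1, map_add,
          (ha' w'' hw'').2, (hb' w'' hw'').2, add_zero]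
        exact ⟨rfl, rfl⟩
    · intro c w0 hw0 hw0m
      obtain ⟨x, hx, rfl⟩ := hw0
      obtain ⟨q, hq1, hq2, hq3⟩ := Q.rad FP SP hx (hm_corr.1 hw0m)
      refine ⟨fun i => c * q i, r c • W.corr (x - ∑ i, (q i : W.K) • y i), ?_, ?_⟩
      · have h1 : W.corr (x - ∑ i, (q i : W.K) • y i) =
            W.corr x - ∑ i, (q i : W.K) • W.corr (y i) := by
          rw [eq_sub_iff_add_eq]
          have h2 : ∑ i, (q i : W.K) • W.corr (y i) = W.corr (∑ i, (q i : W.K) • y i) := by
            have h3 : ∀ t : Finset ι, ∑ i ∈ t, (q i : W.K) • W.corr (y i) =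
                W.corr (∑ i ∈ t, (q i : W.K) • y i) := by
              intro t
              induction t using Finset.induction_on with
              | empty => rw [Finset.sum_empty, Finset.sum_empty, corr_zero]
              | insert a t ha ih => rw [Finset.sum_insert ha, Finset.sum_insert ha, corr_add, ih,
                  corr_smul]
            exact h3 _
          rw [h2, ← corr_add, sub_add_cancel]
        rw [h1, smul_sub, Finset.smul_sum]
        have h4 : ∑ i, r (c * (q i : ℝ)) • W.corr (y i) =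
            ∑ i, r c • (q i : W.K) • W.corr (y i) := by
          apply Finset.sum_congr rfl
          intro i _
          rw [map_mul, map_ratCast, mul_smul]
        rw [h4, sub_add_cancel]
      · intro w'' hw''
        refine RC.ind (p := fun w'' => Bf (r c • W.corr (x - ∑ i, (q i : W.K) • y i)) w'' = 0 ∧
          Bf w'' (r c • W.corr (x - ∑ i, (q i : W.K) • y i)) = 0) ?_ ?_ ?_ hw''
        · rw [map_zero, map_zero, LinearMap.zero_apply]; exact ⟨rfl, rfl⟩
        · rintro a b ⟨ha, ha'⟩ ⟨hb, hb'⟩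
          rw [map_add, ha, hb, map_add, LinearMap.add_apply, ha', hb', add_zero]
          exact ⟨rfl, rfl⟩
        · rintro c' _ ⟨z, hz, rfl⟩ hzm
          have h5 := hq3 z hz (hm_corr.1 hzm)
          constructor
          · rw [map_smul, map_smul Bf, LinearMap.smul_apply, hcorr _ _ hq1 hz, bf_symm SP hq1, h5,
              mul_zero, smul_zero, smul_zero]
          · rw [map_smul, map_smul Bf, LinearMap.smul_apply, hcorr _ _ hz hq1, h5,
              mul_zero, smul_zero, smul_zero]
  have hmain := count r Bf (fun u => RC r X X m u) hreal (fun i => W.corr (y i))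
    (fun i => ((ε * s i : ℚ) : ℝ)) hu
    (fun c => RC.sum _ (fun i _ => (hu i).smul _))
    (fun i => by
      have := mul_ne_zero hε0 (Q.ne i)
      exact_mod_cast this)
    (fun i => by
      rw [hcorr _ _ (Q.as i) (Q.as i), Q.sq, map_ratCast, Rat.cast_mul])
    (fun i j hij => by
      rw [hcorr _ _ (Q.as i) (Q.as j), Q.orth j i (Ne.symm hij), mul_zero])
    (fun w hw => by
      obtain ⟨e, w', h1, h2⟩ := hdec w hw
      have hw' : RC r X X m w' := by
        have h3 : w' = w - ∑ i, r (e i) • W.corr (y i) := by rw [h1, add_sub_cancel_right]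
        rw [h3]
        exact hw.sub (RC.sum _ (fun i _ => (hu i).smul _))
      exact ⟨e, w', h1, fun i => (h2 _ (hu i)).1, fun i => (h2 _ (hu i)).2, (h2 _ hw').1⟩)
    (LinearMap.mulLeft W.K J) (LinearMap.mulLeft W.K F)
    (fun a ha => by
      have h1 := RC.comp hJ ha
      rw [zero_add] at h1; exact h1)
    (fun a ha => by
      have h1 := RC.comp hF ha
      rw [zero_add] at h1; exact h1)
    (fun a b _ _ => by
      rw [LinearMap.mulLeft_apply, LinearMap.mulLeft_apply, LinearMap.mulLeft_apply, hBf, hBf, hBf,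
        hAmul, hAJ]
      have h1 : A b * J' * (J * a) = A b * (F * a) - A b * a := by
        calc A b * J' * (J * a) = A b * (J' * J) * a := by simp only [mul_assoc]
          _ = _ := by rw [hJJ, mul_sub, sub_mul, mul_one, mul_assoc]
      rw [h1, map_sub, mul_sub])
    (M := N * Module.finrank W.K (W.H X)) (by
      let T : (W.H X →ₗ[W.K] LinearMap.range F) →ₗ[W.K] Module.End W.K (W.H X) :=
        { toFun := fun a => (LinearMap.range F).subtype ∘ₗ a
          map_add' := fun a b => LinearMap.comp_add _ _ _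
          map_smul' := fun c a => LinearMap.comp_smul _ _ _ }
      have h1 : LinearMap.range (LinearMap.mulLeft W.K F) ≤ LinearMap.range T := by
        rintro _ ⟨a, rfl⟩
        refine ⟨F.rangeRestrict ∘ₗ a, ?_⟩
        apply LinearMap.ext
        intro x
        rfl
      refine (Submodule.finrank_mono h1).trans ((LinearMap.finrank_range_le _).trans ?_)
      rw [Module.finrank_linearMap, mul_comm]
      exact Nat.mul_le_mul_right _ hr)
  have e1 : (univ.filter (fun i => 0 < ε * s i)) =
      univ.filter (fun i => (0 : ℝ) < ((ε * s i : ℚ) : ℝ)) := by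
    ext i; simp only [Finset.mem_filter, Finset.mem_univ, true_and]; norm_cast
  have e2 : (univ.filter (fun i => ε * s i < 0)) =
      univ.filter (fun i => ((ε * s i : ℚ) : ℝ) < 0) := by
    ext i; simp only [Finset.mem_filter, Finset.mem_univ, true_and]; norm_cast
  rw [e1, e2]
  exact hmain

end Main

end Pool.Agent.J4H47.SG
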