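import Pool.Agent.W539.Ker.Defs
import Pool.Agent.Y163.Defs

/-!
# The numbers of positive and of negative squares on the powers of a variety
-/

open CategoryTheory AlgebraicGeometry

universe u v

namespace Pool.Agent.J4H47.SG

open Pool.Agent.H914 Pool.Agent.H914.VarClass Pool.Agent.H914.VarClass.Obj
  Pool.Agent.W539.Ker Pool.Agent.Y163

variable {k : Type u} [Field k] {𝒱 : VarClass k}

/-- The cycle `z` of codimension `n` on `Z` is primitive modulo numerical equivalence for the
divisor `E`: the cycle `E ^ (d - 2 n + 1) · z`, `d = dim Z`, is numerically equivalent to zero (its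
intersection numbers with the cycles of codimension `n - 1` vanish). -/
def NumPrimitive (ops : CycleOps 𝒱) (Z : 𝒱.Obj) (E : Z.Cycles) (n : ℕ) (z : Z.Cycles) : Prop :=
  Z.IsCyc n z ∧ ∀ l w, l + 1 = n → Z.IsCyc l w →
    Z.V.degCycle (ops.mul w (divPow ops E (Z.dim - 2 * n + 1) z)) = 0

/-- **The numerical Hodge standard conjecture** for `Z` and the divisor `E`: for `2 n ≤ d = dim Z` and
each cycle `z` of codimension `n` which is primitive modulo numerical equivalence and is not
numerically equivalent to zero, `⟨z, z⟩ = (-1) ^ n deg (z · E ^ (d - 2 n) · z)` is positive. -/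
def NumHodge (ops : CycleOps 𝒱) (Z : 𝒱.Obj) (E : Z.Cycles) : Prop :=
  ∀ n, 2 * n ≤ Z.dim → ∀ z, NumPrimitive ops Z E n z →
    (∃ w, Z.IsCyc (Z.dim - n) w ∧ Z.V.degCycle (ops.mul z w) ≠ 0) → 0 < pairing ops Z E n z z

/-- There are `r` pairwise orthogonal cycles `z` of codimension `n`, primitive modulo numerical
equivalence, for which `s * ⟨z, z⟩` is positive. -/
def NumFamily (ops : CycleOps 𝒱) (Z : 𝒱.Obj) (E : Z.Cycles) (n : ℕ) (s : ℚ) (r : ℕ) : Prop :=
  ∃ z : Fin r → Z.Cycles, (∀ i, NumPrimitive ops Z E n (z i)) ∧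
    (∀ i, 0 < s * pairing ops Z E n (z i) (z i)) ∧
    ∀ i j, i ≠ j → pairing ops Z E n (z i) (z j) = 0

/-- The number of positive squares (`s = 1`) or of negative squares (`s = -1`) of the form `⟨·, ·⟩`
on the primitive classes of codimension `n` modulo numerical equivalence. -/
noncomputable def squares (ops : CycleOps 𝒱) (Z : 𝒱.Obj) (E : Z.Cycles) (s : ℚ) (n : ℕ) : ℕ :=
  sSup {r | NumFamily ops Z E n s r}

/-- The divisor `∑ D_i` on the power `X ^ (n + 1)`, where `D_i` is the inverse image of `D` under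
the `i`-th projection. -/
noncomputable def pwD (ops : CycleOps 𝒱) {X : 𝒱.Obj} (D : X.Cycles) : ∀ n, (pw X n).Cycles
  | 0 => D
  | n + 1 => ops.pull (fst X (pw X n)) D + ops.pull (snd X (pw X n)) (pwD ops D n)

/-- The divisor `∑ D_i` on the even power `X ^ (2 n + 2) = X ^ (n + 1) × X ^ (n + 1)`. -/
noncomputable def sqD (ops : CycleOps 𝒱) {X : 𝒱.Obj} (D : X.Cycles) (n : ℕ) : (sq X n).Cycles :=
  ops.pull (fst (pw X n) (pw X n)) (pwD ops D n) + ops.pull (snd (pw X n) (pw X n)) (pwD ops D n)

/-- The number of positive squares (`s = 1`) or of negative squares (`s = -1`) on the primitive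
classes of the codimensions at most `c` on `X ^ (2 n + 2)`, modulo numerical equivalence. -/
noncomputable def sqs (ops : CycleOps 𝒱) {X : 𝒱.Obj} (D : X.Cycles) (s : ℚ) (n c : ℕ) : ℕ :=
  ∑ j ∈ Finset.range (c + 1), squares ops (sq X n) (sqD ops D n) s j

end Pool.Agent.J4H47.SG
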