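import Pool.Agent.J4H47.SG.Defs
import Pool.Agent.W539.Ker.Lef

/-!
# Primitive classes modulo numerical equivalence
-/

open CategoryTheory AlgebraicGeometry Finset

universe u v

namespace Pool.Agent.J4H47.SG

open Pool.Agent.H914 Pool.Agent.H914.VarClass Pool.Agent.H914.VarClass.Obj
  Pool.Agent.H914.WeilCohomology Pool.Agent.H281R3.HT Pool.Agent.W552 Pool.Agent.W539.Ker

variable {k : Type u} [Field k] {𝒱 : VarClass k} {ops : CycleOps 𝒱}
  {W : WeilCohomology.{u, v} ops} {Z : 𝒱.Obj} {E : Z.Cycles} {g : Module.End W.K (W.H Z)}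

/-- A primitive decomposition of the class `x` of codimension `n`. -/
structure Dec (W : WeilCohomology.{u, v} ops) (Z : 𝒱.Obj) (E : Z.Cycles) (n : ℕ) (x : W.H Z)
    (a : ℕ → W.H Z) : Prop where
  alg : ∀ b ≤ n, a b ∈ algClasses W Z (n - b)
  prim : ∀ b ≤ n, ((LinearMap.mulLeft W.K (W.cl Z E)) ^ (Z.dim - 2 * (n - b) + 1)) (a b) = 0
  sum : x = ∑ b ∈ range (n + 1), ((LinearMap.mulLeft W.K (W.cl Z E)) ^ b) (a b)

lemma exists_dec (F : Fr W Z E g) {n : ℕ} (hn : 2 * n ≤ Z.dim) {x : W.H Z}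
    (hx : x ∈ algClasses W Z n) : ∃ a, Dec W Z E n x a := by
  obtain ⟨a, ha, hs⟩ := (ap_alg F).decomp_low (mulLeft_isHom F.hD) W_hbd n hn x hx
  exact ⟨a, fun b hb => (ha b hb).1, fun b hb => (ha b hb).2, hs⟩

lemma prim_cross (hE : Z.IsCyc 1 E) {p q e : ℕ} (hp : 2 * p ≤ Z.dim) (hq : 2 * q ≤ Z.dim)
    (hpq : p ≠ q) (he : p + q + e = Z.dim) {x y : W.H Z}
    (hx : ((LinearMap.mulLeft W.K (W.cl Z E)) ^ (Z.dim - 2 * p + 1)) x = 0)
    (hy : ((LinearMap.mulLeft W.K (W.cl Z E)) ^ (Z.dim - 2 * q + 1)) y = 0) :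
    W.tr Z (y * ((LinearMap.mulLeft W.K (W.cl Z E)) ^ e) x) = 0 := by
  rcases lt_or_gt_of_ne hpq with h | h
  · rw [← L_pow_self hE, show e = (e - (Z.dim - 2 * q + 1)) + (Z.dim - 2 * q + 1) by omega,
      pow_add, Module.End.mul_apply, hy, map_zero, zero_mul, map_zero]
  · rw [show e = (e - (Z.dim - 2 * p + 1)) + (Z.dim - 2 * p + 1) by omega,
      pow_add, Module.End.mul_apply, hx, map_zero, mul_zero, map_zero]

lemma pair_dec (hE : Z.IsCyc 1 E) {n : ℕ} (hn : 2 * n ≤ Z.dim) {x y : W.H Z} {a b : ℕ → W.H Z}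
    (ha : Dec W Z E n x a) (hb : Dec W Z E n y b) :
    W.tr Z (x * ((LinearMap.mulLeft W.K (W.cl Z E)) ^ (Z.dim - 2 * n)) y) =
      ∑ i ∈ range (n + 1), W.tr Z (a i *
        ((LinearMap.mulLeft W.K (W.cl Z E)) ^ (Z.dim - 2 * (n - i))) (b i)) := by
  conv_lhs => rw [ha.sum, hb.sum]
  rw [Finset.sum_mul, map_sum]
  apply Finset.sum_congr rfl
  intro i hi
  rw [Finset.mem_range] at hi
  rw [map_sum, Finset.mul_sum, map_sum, Finset.sum_eq_single i]
  · rw [L_pow_self hE, ← Module.End.mul_apply, ← Module.End.mul_apply, ← pow_add, ← pow_add,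
      show i + (Z.dim - 2 * n) + i = Z.dim - 2 * (n - i) by omega]
  · intro j hj hji
    rw [Finset.mem_range] at hj
    rw [L_pow_self hE, ← Module.End.mul_apply, ← Module.End.mul_apply, ← pow_add, ← pow_add]
    exact prim_cross hE (p := n - j) (q := n - i) (by omega) (by omega) (by omega) (by omega)
      (hb.prim j (by omega)) (ha.prim i (by omega))
  · intro h0; exact absurd (Finset.mem_range.2 hi) h0

lemma num_zero (hE : Z.IsCyc 1 E) {n : ℕ} (hn : 2 * n ≤ Z.dim) {z : Z.Cycles}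
    (hz : NumPrimitive ops Z E n z) {a : ℕ → W.H Z} (ha : Dec W Z E n (W.cl Z z) a) {b : ℕ}
    (hb0 : 1 ≤ b) (hb : b ≤ n) {y : W.H Z} (hy : y ∈ algClasses W Z (n - b))
    (hyp : ((LinearMap.mulLeft W.K (W.cl Z E)) ^ (Z.dim - 2 * (n - b) + 1)) y = 0) :
    W.tr Z (y * ((LinearMap.mulLeft W.K (W.cl Z E)) ^ (Z.dim - 2 * (n - b))) (a b)) = 0 := by
  obtain ⟨y', hy', rfl⟩ := hy
  have hw : Z.IsCyc (n - 1) (divPow ops E (b - 1) y') := by
    have := divPow_mem (ops := ops) hE (b - 1) hy'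
    rwa [show n - b + (b - 1) = n - 1 by omega] at this
  have h1 := hz.2 (n - 1) _ (by omega) hw
  have h2 := divPow_mem (ops := ops) hE (Z.dim - 2 * n + 1) hz.1
  have h3 := ops.mul_mem hw h2
  rw [show n - 1 + (n + (Z.dim - 2 * n + 1)) = Z.dim by omega] at h3
  have h4 := W.tr_cl h3
  rw [h1, Rat.cast_zero, W.cl_mul, cl_divPow, cl_divPow, ha.sum, map_sum, Finset.mul_sum,
    map_sum, Finset.sum_eq_single b] at h4
  · rw [← h4, L_pow_self hE, ← Module.End.mul_apply, ← Module.End.mul_apply, ← pow_add, ← pow_add,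
      show b - 1 + (Z.dim - 2 * n + 1) + b = Z.dim - 2 * (n - b) by omega]
  · intro c hc hcb
    rw [Finset.mem_range] at hc
    rw [L_pow_self hE, ← Module.End.mul_apply, ← Module.End.mul_apply, ← pow_add, ← pow_add]
    exact prim_cross hE (p := n - c) (q := n - b) (by omega) (by omega) (by omega) (by omega)
      (ha.prim c (by omega)) hyp
  · intro h0; exact absurd (Finset.mem_range.2 (by omega)) h0

/-- The primitive component of a cycle. -/
lemma exists_comp {n : ℕ} {x : W.H Z} {a : ℕ → W.H Z} (ha : Dec W Z E n x a) :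
    ∃ z, Primitive W Z E n z ∧ W.cl Z z = a 0 := by
  obtain ⟨z, hz, h⟩ := ha.alg 0 (by omega)
  refine ⟨z, ⟨hz, ?_⟩, h⟩
  rw [cl_divPow, h]
  exact ha.prim 0 (by omega)

lemma pairing_num (hE : Z.IsCyc 1 E) {n : ℕ} (hn : 2 * n ≤ Z.dim) {z w : Z.Cycles}
    (hz : NumPrimitive ops Z E n z) (hw : Z.IsCyc n w) {a b : ℕ → W.H Z}
    (ha : Dec W Z E n (W.cl Z z) a) (hb : Dec W Z E n (W.cl Z w) b) {z' w' : Z.Cycles}
    (hz' : Primitive W Z E n z') (hw' : Primitive W Z E n w') (hza : W.cl Z z' = a 0)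
    (hwb : W.cl Z w' = b 0) : pairing ops Z E n z w = pairing ops Z E n z' w' := by
  have h1 : ((pairing ops Z E n z w : ℚ) : W.K) = ((pairing ops Z E n z' w' : ℚ) : W.K) := by
    rw [pairing_cast hE hn hz.1 hw, pairing_cast hE hn hz'.1 hw'.1, hza, hwb, pair_dec hE hn ha hb]
    congr 1
    rw [Finset.sum_eq_single 0]
    · rw [Nat.sub_zero]
    · intro i hi hi0
      rw [Finset.mem_range] at hi
      have h2 := num_zero hE hn hz ha (b := i) (by omega) (by omega) (hb.alg i (by omega))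
        (hb.prim i (by omega))
      rw [W.even_comm (alg_gr (ha.alg i (by omega))), L_pow_self hE]
      exact h2
    · intro h0; exact absurd (Finset.mem_range.2 (by omega)) h0
  exact_mod_cast h1

lemma prim_num (hE : Z.IsCyc 1 E) {n : ℕ} (hn : 2 * n ≤ Z.dim) {z : Z.Cycles}
    (hz : Primitive W Z E n z) : NumPrimitive ops Z E n z := by
  refine ⟨hz.1, fun l w hl hw => ?_⟩
  have h2 := divPow_mem (ops := ops) hE (Z.dim - 2 * n + 1) hz.1
  have h3 := ops.mul_mem hw h2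
  rw [show l + (n + (Z.dim - 2 * n + 1)) = Z.dim by omega] at h3
  have h4 := W.tr_cl h3
  rw [W.cl_mul, hz.2, mul_zero, map_zero] at h4
  exact_mod_cast h4.symm

/-- The numbers of squares can be computed with the primitive cohomology classes. -/
theorem numFamily_iff (F : Fr W Z E g) {n : ℕ} (hn : 2 * n ≤ Z.dim) (s : ℚ) (r : ℕ) :
    NumFamily ops Z E n s r ↔ HasFamily W Z E n s r := by
  constructor
  · rintro ⟨z, h1, h2, h3⟩
    choose a ha using fun i => exists_dec F hn (x := W.cl Z (z i)) ⟨z i, (h1 i).1, rfl⟩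
    choose z' hz' hza using fun i => exists_comp (ha i)
    have h4 : ∀ i j, pairing ops Z E n (z i) (z j) = pairing ops Z E n (z' i) (z' j) := fun i j =>
      pairing_num F.hD hn (h1 i) (h1 j).1 (ha i) (ha j) (hz' i) (hz' j) (hza i) (hza j)
    exact ⟨z', hz', fun i => by rw [← h4]; exact h2 i, fun i j hij => by rw [← h4]; exact h3 i j hij⟩
  · rintro ⟨z, h1, h2, h3⟩
    exact ⟨z, fun i => prim_num F.hD hn (h1 i), h2, h3⟩

/-- A failure of the numerical Hodge standard conjecture gives a primitive class with negative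
square. -/
theorem exists_neg (F : Fr W Z E g) (h : ¬ NumHodge ops Z E) :
    ∃ n, 2 * n ≤ Z.dim ∧ ∃ z, Primitive W Z E n z ∧ pairing ops Z E n z z < 0 := by
  rw [NumHodge] at h
  push Not at h
  obtain ⟨n, hn, z, hz, ⟨w, hw, hzw⟩, hle⟩ := h
  refine ⟨n, hn, ?_⟩
  obtain ⟨a, ha⟩ := exists_dec F hn (x := W.cl Z z) ⟨z, hz.1, rfl⟩
  obtain ⟨z', hz', hza⟩ := exists_comp ha
  have h1 := pairing_num F.hD hn hz hz.1 ha ha hz' hz' hza hza
  rw [h1] at hle
  rcases lt_or_eq_of_le hle with h2 | h2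
  · exact ⟨z', hz', h2⟩
  · obtain ⟨w1, hw1, hww⟩ := F.lefschetzA n hn w hw
    obtain ⟨b, hb⟩ := exists_dec F hn (x := W.cl Z w1) ⟨w1, hw1, rfl⟩
    obtain ⟨w', hw', hwb⟩ := exists_comp hb
    have h3 := pairing_num F.hD hn hz hw1 ha hb hz' hw' hza hwb
    have h4 : pairing ops Z E n z w1 ≠ 0 := by
      intro h0
      apply hzw
      have h5 : ((pairing ops Z E n z w1 : ℚ) : W.K) = 0 := by rw [h0, Rat.cast_zero]
      rw [pairing_cast F.hD hn hz.1 hw1, ← cl_divPow, hww, ← W.cl_mul] at h5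
      have h6 := ops.mul_mem hz.1 hw
      rw [show n + (Z.dim - n) = Z.dim by omega] at h6
      rw [W.tr_cl h6] at h5
      have h7 := (mul_eq_zero.1 h5).resolve_left (pow_ne_zero _ (by norm_num))
      exact_mod_cast h7
    rw [h3] at h4
    set β := pairing ops Z E n z' w' with hβ
    set γ := pairing ops Z E n w' w' with hγ
    set t : ℚ := -(γ + 1) / (2 * β) with ht
    refine ⟨w' + t • z', Submodule.add_mem (PM W Z E n) hw' (Submodule.smul_mem _ t hz'), ?_⟩
    have e1 : pairing ops Z E n (w' + t • z') (w' + t • z') = γ + 2 * t * β := by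
      let z0 : PM W Z E n := ⟨z', hz'⟩
      let w0 : PM W Z E n := ⟨w', hw'⟩
      have e2 : BP W F.hD n hn w0 z0 = BP W F.hD n hn z0 w0 := BP_symm F.hD hn _ _
      have e4 : BP W F.hD n hn z0 z0 = 0 := h2
      have e5 : BP W F.hD n hn z0 w0 = β := rfl
      have e6 : BP W F.hD n hn w0 w0 = γ := rfl
      have e3 : BP W F.hD n hn (w0 + t • z0) (w0 + t • z0) = γ + 2 * t * β := by
        simp only [map_add, LinearMap.add_apply, map_smul, LinearMap.smul_apply, smul_eq_mul]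
        rw [e4, e2, e5, e6]
        ring
      exact e3
    rw [e1, ht]
    have h8 : 2 * (-(γ + 1) / (2 * β)) * β = -(γ + 1) := by
      field_simp
    rw [h8]
    linarith

end Pool.Agent.J4H47.SG
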