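import Pool.Agent.J4H47.SG.Pow
import Pool.Agent.R940.DGeo

/-!
# Transport of anti-isometries along isomorphisms
-/

open CategoryTheory AlgebraicGeometry Finset

universe u v

namespace Pool.Agent.J4H47.SG

open Pool.Agent.H914 Pool.Agent.H914.VarClass Pool.Agent.H914.VarClass.Obj
  Pool.Agent.H914.WeilCohomology Pool.Agent.H281R3.HT Pool.Agent.W552 Pool.Agent.W539.Ker
  Pool.Agent.Y163 Pool.Agent.W534
open Pool.Agent.R940 (tw tw_cancel tw_cancel' tw_mul tw_one)

variable {k : Type u} [Field k] {𝒱 : VarClass k} {ops : CycleOps 𝒱}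
  {W : WeilCohomology.{u, v} ops} {r : ℝ →+* W.K} {X Y Z A B : 𝒱.Obj}

lemma map_aop (f : X ⟶ Y) : AOp W Y X (W.map f).toLinearMap := by
  have h1 : (W.map f).toLinearMap = W.corr (W.cl _ (ops.push (Obj.lift f (𝟙 X)) X.V.fundCycle)) := by
    apply LinearMap.ext
    intro a
    rw [W.cl_push, W.cl_fund, corr_apply, ← W.push_mul, one_mul, ← W.push_comp, ← W.map_comp]
    have e1 : Obj.lift f (𝟙 X) ≫ snd Y X = 𝟙 X := Obj.lift_snd _ _
    have e2 : Obj.lift f (𝟙 X) ≫ fst Y X = f := Obj.lift_fst _ _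
    rw [e1, e2, W.push_id]
    rfl
  rw [h1]
  exact ⟨_, AS.of (j := Y.dim) ⟨_, ops.push_mem _ X.V.fundCycle_mem
    (by simp only [dim_prod]; ring), rfl⟩, rfl⟩

lemma map_wt (f : X ⟶ Y) (hd : X.dim = Y.dim) (x : W.H Y) :
    wt (W.isInternal X) X.dim (W.map f x) = W.map f (wt (W.isInternal Y) Y.dim x) := by
  refine gr_induction (W.isInternal Y) (p := fun x => wt (W.isInternal X) X.dim (W.map f x) =
    W.map f (wt (W.isInternal Y) Y.dim x)) ?_ ?_ x
  · intro i a ha
    rw [Fr.wt_gr (W.map_mem f ha), Fr.wt_gr ha, map_smul, hd]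
  · intro a b ha hb
    rw [map_add, map_add, map_add, map_add, ha, hb]

lemma map_hm (f : X ⟶ Y) (hd : X.dim = Y.dim) :
    Hm W (X := Y) (Y := X) 0 (W.map f).toLinearMap := by
  rw [Hm, Int.cast_zero, zero_smul, add_zero]
  apply LinearMap.ext
  intro x
  exact map_wt f hd x

lemma map_RC (f : X ⟶ Y) (hd : X.dim = Y.dim) : RC r Y X 0 (W.map f).toLinearMap :=
  RC.of (map_aop f) (map_hm f hd)

/-- The transport of operators, as a ring homomorphism. -/
noncomputable def twR (θ : A ≅ B) : Module.End W.K (W.H A) →+* Module.End W.K (W.H B) where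
  toFun := tw θ
  map_one' := tw_one θ
  map_mul' := tw_mul θ
  map_zero' := by
    apply LinearMap.ext
    intro x
    change W.map θ.inv ((0 : Module.End W.K (W.H A)) (W.map θ.hom x)) = 0
    rw [LinearMap.zero_apply, map_zero]
  map_add' f g := by
    apply LinearMap.ext
    intro x
    change W.map θ.inv (f (W.map θ.hom x) + g (W.map θ.hom x)) = _
    rw [map_add]
    rfl

lemma twR_apply (θ : A ≅ B) (f : Module.End W.K (W.H A)) : twR θ f = tw θ f := rfl

lemma hom_tw (θ : A ≅ B) (f : Module.End W.K (W.H A)) (x : W.H B) :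
    W.map θ.hom (tw θ f x) = f (W.map θ.hom x) := tw_cancel θ _

/-- An isomorphism of polarized varieties. -/
structure Cmp (W : WeilCohomology.{u, v} ops) (θ : A ≅ B) (E : A.Cycles) (E' : B.Cycles) :
    Prop where
  dim : A.dim = B.dim
  cl : W.map θ.hom (W.cl B E') = W.cl A E
  cyc : B.IsCyc 1 E'

section

variable {θ : A ≅ B} {E : A.Cycles} {E' : B.Cycles} (C : Cmp W θ E E')

include C

lemma Cmp.wt : tw θ (H914.wt (W.isInternal A) A.dim) = H914.wt (W.isInternal B) B.dim := by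
  apply LinearMap.ext
  intro x
  change W.map θ.inv (H914.wt (W.isInternal A) A.dim (W.map θ.hom x)) = _
  rw [map_wt θ.hom C.dim, tw_cancel']

lemma Cmp.mulLeft : tw θ (LinearMap.mulLeft W.K (W.cl A E)) =
    LinearMap.mulLeft W.K (W.cl B E') := by
  apply LinearMap.ext
  intro x
  change W.map θ.inv (W.cl A E * W.map θ.hom x) = W.cl B E' * x
  rw [← C.cl, ← map_mul, tw_cancel']

lemma Cmp.fr {f : Module.End W.K (W.H A)} (F : Fr W A E f) : Fr W B E' (tw θ f) where
  hD := C.cyc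
  sl2 := by
    have h := F.sl2.map (twR θ)
    rw [twR_apply, twR_apply, twR_apply, C.wt, C.mulLeft] at h
    exact h
  aop := (map_aop θ.inv).comp (F.aop.comp (map_aop θ.hom))

lemma Cmp.wop {f : Module.End W.K (W.H A)} (F : Fr W A E f) :
    wop W B E' (tw θ f) = tw θ (wop W A E f) := by
  let _ : Module ℚ (Module.End W.K (W.H A)) :=
    Module.compHom (Module.End W.K (W.H A)) (algebraMap ℚ W.K)
  let _ : Module ℚ (Module.End W.K (W.H B)) :=
    Module.compHom (Module.End W.K (W.H B)) (algebraMap ℚ W.K)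
  have h := weyl_map (twR (W := W) θ) F.sl2.nil_e F.sl2.nil_f
  rw [twR_apply, twR_apply, twR_apply, C.mulLeft] at h
  exact h.symm

lemma Cmp.st {f : Module.End W.K (W.H A)} (F : Fr W A E f) :
    W552.st W B E' (tw θ f) = tw θ (W552.st W A E f) := by
  apply LinearMap.ext
  intro x
  refine gr_induction (W.isInternal B) (p := fun x => W552.st W B E' (tw θ f) x =
    tw θ (W552.st W A E f) x) ?_ ?_ x
  · intro i a ha
    have h1 : W.map θ.hom a ∈ W.gr A i := W.map_mem _ ha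
    rw [st_apply ha, C.wop F]
    change _ = W.map θ.inv (W552.st W A E f (W.map θ.hom a))
    rw [st_apply h1, map_smul]
    rfl
  · intro a b ha hb
    rw [map_add, map_add, ha, hb]

lemma Cmp.bf {f : Module.End W.K (W.H A)} (F : Fr W A E f) : ∃ c : W.K,
    (∀ x y, W552.bf W A E f (W.map θ.hom x) (W.map θ.hom y) = c * W552.bf W B E' (tw θ f) x y) ∧
    (c = 0 → ∀ x : W.H B, x = 0) := by
  obtain ⟨c, hc⟩ := tr_map_iso (W := W) θ.hom C.dim.symm
  refine ⟨c, fun x y => ?_, ?_⟩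
  · rw [bf_apply, bf_apply, ← hc, map_mul (W.map θ.hom), C.st F, hom_tw]
  · intro h0 x
    have htr : ∀ b : W.H A, W.tr A b = 0 := by
      intro b
      rw [← tw_cancel θ b, hc, h0, zero_mul]
    have h1 : ∀ a : W.H A, a = 0 := fun a => W.nondeg a (fun b => htr _)
    rw [← tw_cancel' θ x, h1 (W.map θ.hom x), map_zero]

lemma Cmp.adj {f : Module.End W.K (W.H A)} (F : Fr W A E f) {u u' : Module.End W.K (W.H A)}
    (h : Adj W E f E f u u') : Adj W E' (tw θ f) E' (tw θ f) (tw θ u) (tw θ u') := by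
  obtain ⟨c, hc, hc0⟩ := C.bf F
  intro p q
  by_cases h0 : c = 0
  · rw [hc0 h0 q, hc0 h0 p]
    simp
  · apply mul_left_cancel₀ h0
    rw [← hc, ← hc, hom_tw, hom_tw]
    exact h _ _

lemma Cmp.rc {u : Module.End W.K (W.H A)} (h : RC r A A 0 u) : RC r B B 0 (tw θ u) := by
  have h1 : RC r B B (0 + (0 + 0)) ((W.map θ.inv).toLinearMap ∘ₗ (u ∘ₗ (W.map θ.hom).toLinearMap)) :=
    RC.comp (map_RC θ.inv C.dim.symm) (RC.comp h (map_RC θ.hom C.dim))
  exact h1

theorem Cmp.antiIso {f : Module.End W.K (W.H A)} (F : Fr W A E f) {N : ℕ}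
    (h : AntiIso r E f N) : AntiIso r E' (tw θ f) N := by
  obtain ⟨J, J', G, hJ, hG, haJ, haG, hJJ, hr⟩ := h
  refine ⟨tw θ J, tw θ J', tw θ G, C.rc hJ, C.rc hG, C.adj F haJ, C.adj F haG, ?_, ?_⟩
  · rw [← tw_mul, hJJ, ← twR_apply, map_sub, map_one]
    rfl
  · refine le_trans ?_ hr
    have h1 : LinearMap.range (tw θ G) ≤
        (LinearMap.range G).map (W.map θ.inv).toLinearMap := by
      rintro _ ⟨x, rfl⟩
      exact ⟨G (W.map θ.hom x), ⟨_, rfl⟩, rfl⟩
    exact (Submodule.finrank_mono h1).trans (Submodule.finrank_map_le _ _)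

end

/-! ### The product of two powers -/

/-- The product of two powers. -/
noncomputable def pwI (X : 𝒱.Obj) : ∀ m n : ℕ, (pw X m).prod (pw X n) ≅ pw X (n + m + 1)
  | 0, _ => Iso.refl _
  | m + 1, n => assocIso X (pw X m) (pw X n) ≪≫ prodIso (Iso.refl X) (pwI X m n)

lemma pwD_cyc {D : X.Cycles} (hD : X.IsCyc 1 D) (n : ℕ) : (pw X n).IsCyc 1 (pwD ops D n) := by
  induction n with
  | zero => exact hD
  | succ n ih => exact SmVar.IsCyc.add (ops.pull_mem _ hD) (ops.pull_mem _ ih)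

lemma cl_step {V U P : 𝒱.Obj} (φ : V.prod U ≅ P) {D : X.Cycles} {EV : V.Cycles} {EU : U.Cycles}
    {EP : P.Cycles} (h : W.map φ.hom (W.cl P EP) =
      W.cl _ (ops.pull (fst V U) EV + ops.pull (snd V U) EU)) :
    W.map (assocIso X V U ≪≫ prodIso (Iso.refl X) φ).hom
      (W.cl (X.prod P) (ops.pull (fst X P) D + ops.pull (snd X P) EP)) =
      W.cl ((X.prod V).prod U) (ops.pull (fst (X.prod V) U)
        (ops.pull (fst X V) D + ops.pull (snd X V) EV) + ops.pull (snd (X.prod V) U) EU) := by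
  have e0 : (assocIso X V U ≪≫ prodIso (Iso.refl X) φ).hom = (assocIso X V U).hom ≫
    (prodIso (Iso.refl X) φ).hom := rfl
  have e3 : (prodIso (Iso.refl X) φ).hom ≫ fst X P = fst X (V.prod U) := by
    change Obj.lift _ _ ≫ _ = _
    rw [Obj.lift_fst]
    exact Category.comp_id _
  have e4 : (prodIso (Iso.refl X) φ).hom ≫ snd X P = snd X (V.prod U) ≫ φ.hom :=
    Obj.lift_snd _ _
  have e5 : (assocIso X V U).hom ≫ fst X (V.prod U) = fst (X.prod V) U ≫ fst X V :=
    Obj.lift_fst _ _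
  have e6 : (assocIso X V U).hom ≫ snd X (V.prod U) =
      Obj.lift (fst (X.prod V) U ≫ snd X V) (snd (X.prod V) U) := Obj.lift_snd _ _
  rw [e0, W.map_comp, map_add, W.cl_pull, W.cl_pull, map_add, ← W.map_comp, ← W.map_comp, e3, e4,
    W.map_comp, h, map_add, ← W.map_comp, e5, ← W.map_comp, e6, map_add, W.cl_pull, W.cl_pull,
    map_add, ← W.map_comp, ← W.map_comp, Obj.lift_fst, Obj.lift_snd, map_add, W.cl_pull, W.cl_pull,
    map_add, W.cl_pull, W.cl_pull, map_add, ← W.map_comp, ← W.map_comp, add_assoc]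

lemma cl_pwI (D : X.Cycles) (m n : ℕ) : W.map (pwI X m n).hom (W.cl _ (pwD ops D (n + m + 1))) =
    W.cl _ (ops.pull (fst (pw X m) (pw X n)) (pwD ops D m) +
      ops.pull (snd (pw X m) (pw X n)) (pwD ops D n)) := by
  induction m with
  | zero => exact W.map_id _ _
  | succ m ih => exact cl_step (pwI X m n) ih

lemma cmp_pwI {D : X.Cycles} (hD : X.IsCyc 1 D) (m n : ℕ) : Cmp W (pwI X m n)
    (ops.pull (fst (pw X m) (pw X n)) (pwD ops D m) +
      ops.pull (snd (pw X m) (pw X n)) (pwD ops D n)) (pwD ops D (n + m + 1)) :=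
  ⟨by rw [dim_prod, dim_pw, dim_pw, dim_pw]; ring, cl_pwI D m n, pwD_cyc hD _⟩

end Pool.Agent.J4H47.SG
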