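import Pool.Agent.J4H47.SG.Main

/-!
# The zero–one-half law
-/

open CategoryTheory AlgebraicGeometry Finset Filter Topology

universe u v

namespace Pool.Agent.J4H47.SG

open Pool.Agent.H914 Pool.Agent.H914.VarClass Pool.Agent.H914.VarClass.Obj
  Pool.Agent.H914.WeilCohomology Pool.Agent.H281R3.HT Pool.Agent.W552 Pool.Agent.W539.Ker
  Pool.Agent.Y163 Pool.Agent.W534

/-- The bound for the proportion. -/
lemma ratio_bound {b κ n P N : ℕ} (hB : 2 ≤ b ^ (κ + 1))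
    (hg : (b ^ 2) ^ (n + 1) ≤ (P + N) * (n + 2) ^ (b ^ 2))
    (h1 : P ≤ N + (b ^ (κ + 1) - 2) ^ ((n + 1) / (κ + 1)) * b ^ ((n + 1) % (κ + 1)) * b ^ (n + 1))
    (h2 : N ≤ P + (b ^ (κ + 1) - 2) ^ ((n + 1) / (κ + 1)) * b ^ ((n + 1) % (κ + 1)) *
      b ^ (n + 1)) :
    |(N : ℝ) / (P + N) - 1 / 2| ≤
      (n + 2) ^ (b ^ 2) / 2 * (1 - 2 / b ^ (κ + 1)) ^ ((n + 1) / (κ + 1)) := by
  have hb : 0 < b := by
    rcases Nat.eq_zero_or_pos b with rfl | h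
    · rw [zero_pow (by omega)] at hB; omega
    · exact h
  have hbR : (0 : ℝ) < b := by exact_mod_cast hb
  set q := (n + 1) / (κ + 1) with hq
  set s := (n + 1) % (κ + 1) with hs
  have hqs : (κ + 1) * q + s = n + 1 := Nat.div_add_mod _ _
  have hT : 0 < P + N := by
    rcases Nat.eq_zero_or_pos (P + N) with h | h
    · rw [h, zero_mul] at hg
      have : 0 < (b ^ 2) ^ (n + 1) := by positivity
      omega
    · exact h
  have hTR : (0 : ℝ) < (P : ℝ) + N := by exact_mod_cast hT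
  have hgR : ((b : ℝ) ^ 2) ^ (n + 1) ≤ ((P : ℝ) + N) * ((n : ℝ) + 2) ^ (b ^ 2) := by
    exact_mod_cast hg
  have hBR : (2 : ℝ) ≤ (b : ℝ) ^ (κ + 1) := by exact_mod_cast hB
  have hcast : ((b ^ (κ + 1) - 2 : ℕ) : ℝ) = (b : ℝ) ^ (κ + 1) - 2 := by
    rw [Nat.cast_sub hB]; push_cast; ring
  have h1R : (P : ℝ) ≤ N + ((b : ℝ) ^ (κ + 1) - 2) ^ q * (b : ℝ) ^ s * (b : ℝ) ^ (n + 1) := by
    rw [← hcast]; exact_mod_cast h1
  have h2R : (N : ℝ) ≤ P + ((b : ℝ) ^ (κ + 1) - 2) ^ q * (b : ℝ) ^ s * (b : ℝ) ^ (n + 1) := by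
    rw [← hcast]; exact_mod_cast h2
  set E := ((b : ℝ) ^ (κ + 1) - 2) ^ q * (b : ℝ) ^ s * (b : ℝ) ^ (n + 1) with hE
  have h3 : |(N : ℝ) / (P + N) - 1 / 2| ≤ E / (2 * (P + N)) := by
    rw [div_sub_div _ _ hTR.ne' two_ne_zero, abs_div, abs_of_pos (show (0:ℝ) < (P + N) * 2 by
      positivity), mul_comm (2 : ℝ) ((P : ℝ) + N)]
    apply div_le_div_of_nonneg_right _ (by positivity)
    rw [abs_le]
    constructor <;> linarith
  refine h3.trans ?_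
  rw [div_le_iff₀ (by positivity)]
  have h4 : (1 - 2 / (b : ℝ) ^ (κ + 1)) ^ q * (((b : ℝ) ^ 2) ^ (n + 1)) = E := by
    have h5 : (1 - 2 / (b : ℝ) ^ (κ + 1)) = ((b : ℝ) ^ (κ + 1) - 2) / (b : ℝ) ^ (κ + 1) := by
      field_simp
    have h6 : ((b : ℝ) ^ 2) ^ (n + 1) = ((b : ℝ) ^ (κ + 1)) ^ q * (b : ℝ) ^ s * (b : ℝ) ^ (n + 1) := by
      rw [← pow_mul, ← pow_mul, ← pow_add, ← pow_add, hqs]
      congr 1
      ring
    rw [h5, h6, div_pow, hE]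
    field_simp
  have h7 : (0 : ℝ) ≤ (1 - 2 / (b : ℝ) ^ (κ + 1)) ^ q := by
    apply pow_nonneg
    rw [sub_nonneg, div_le_one (by positivity)]
    exact hBR
  calc E = (1 - 2 / (b : ℝ) ^ (κ + 1)) ^ q * (((b : ℝ) ^ 2) ^ (n + 1)) := h4.symm
    _ ≤ (1 - 2 / (b : ℝ) ^ (κ + 1)) ^ q * (((P : ℝ) + N) * ((n : ℝ) + 2) ^ (b ^ 2)) :=
        mul_le_mul_of_nonneg_left hgR h7
    _ = _ := by ring

/-- The bound tends to zero. -/
lemma bound_tendsto (m κ : ℕ) {ρ : ℝ} (h0 : 0 ≤ ρ) (h1 : ρ < 1) :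
    Tendsto (fun n : ℕ => ((n : ℝ) + 2) ^ m / 2 * ρ ^ ((n + 1) / (κ + 1))) atTop (𝓝 0) := by
  have hq : Tendsto (fun n : ℕ => (n + 1) / (κ + 1)) atTop atTop := by
    rw [tendsto_atTop_atTop]
    intro M
    refine ⟨M * (κ + 1), fun n hn => ?_⟩
    rw [Nat.le_div_iff_mul_le (by omega)]
    omega
  have h2 : Tendsto (fun t : ℕ => ((κ : ℝ) + 2) ^ m * 2 ^ m * ((t : ℝ) ^ m * ρ ^ t)) atTop
      (𝓝 0) := by
    have := (tendsto_pow_const_mul_const_pow_of_abs_lt_one m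
      (show |ρ| < 1 by rwa [abs_of_nonneg h0])).const_mul (((κ : ℝ) + 2) ^ m * 2 ^ m)
    rwa [mul_zero] at this
  refine squeeze_zero' (Eventually.of_forall fun n => by positivity) ?_ (h2.comp hq)
  filter_upwards [hq.eventually_ge_atTop 1] with n hn
  have h3 : (κ + 1) * ((n + 1) / (κ + 1)) + (n + 1) % (κ + 1) = n + 1 := Nat.div_add_mod _ _
  have h4 : (n + 1) % (κ + 1) < κ + 1 := Nat.mod_lt _ (by omega)
  set q := (n + 1) / (κ + 1) with hq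
  have h5 : n + 2 ≤ (κ + 2) * (2 * q) := by nlinarith
  have h6 : ((n : ℝ) + 2) ≤ ((κ : ℝ) + 2) * (2 * q) := by exact_mod_cast h5
  have h7 : ((n : ℝ) + 2) ^ m ≤ (((κ : ℝ) + 2) * (2 * q)) ^ m :=
    pow_le_pow_left₀ (by positivity) h6 m
  change ((n : ℝ) + 2) ^ m / 2 * ρ ^ q ≤ ((κ : ℝ) + 2) ^ m * 2 ^ m * ((q : ℝ) ^ m * ρ ^ q)
  have h8 : (0 : ℝ) ≤ ρ ^ q := pow_nonneg h0 _
  have h9 : (0 : ℝ) ≤ ((n : ℝ) + 2) ^ m := by positivity
  calc ((n : ℝ) + 2) ^ m / 2 * ρ ^ q ≤ ((n : ℝ) + 2) ^ m * ρ ^ q := by nlinarith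
    _ ≤ (((κ : ℝ) + 2) * (2 * q)) ^ m * ρ ^ q := mul_le_mul_of_nonneg_right h7 h8
    _ = _ := by rw [mul_pow, mul_pow]; ring

variable {k : Type u} [Field k] {𝒱 : VarClass k} {ops : CycleOps 𝒱}

/-- The numbers of squares are well defined. -/
theorem bdd (W : WeilCohomology.{u, v} ops) {X : 𝒱.Obj} {D : X.Cycles}
    (hD : X.IsCyc 1 D) (hHL : HardLefschetz W X D) (hB : LefschetzB W X D) {n j : ℕ}
    (hj : j ≤ (n + 1) * X.dim) :
    BddAbove {r | NumFamily ops (sq X n) (sqD ops D n) j 1 r} ∧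
      BddAbove {r | NumFamily ops (sq X n) (sqD ops D n) j (-1) r} := by
  have hs := sq0 (W := W) hD hHL hB n
  have hc : (sq X n).IsCyc 1 (sqD ops D n) :=
    SmVar.IsCyc.add (ops.pull_mem _ (pwD_cyc hD n)) (ops.pull_mem _ (pwD_cyc hD n))
  obtain ⟨f, G⟩ := exists_gd hc hs.1 hs.2
  have hd : 2 * j ≤ (sq X n).dim := by rw [dim_sq]; omega
  have h := bddAbove_family W hc hd
  constructor
  · have e : {r | NumFamily ops (sq X n) (sqD ops D n) j 1 r} =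
        {r | HasFamily W (sq X n) (sqD ops D n) j 1 r} := by
      ext r; exact numFamily_iff G.fr hd 1 r
    rw [e]; exact h.1
  · have e : {r | NumFamily ops (sq X n) (sqD ops D n) j (-1) r} =
        {r | HasFamily W (sq X n) (sqD ops D n) j (-1) r} := by
      ext r; exact numFamily_iff G.fr hd (-1) r
    rw [e]; exact h.2

/-- **The zero–one-half law.** -/
theorem signature_law (W : WeilCohomology.{u, v} ops) (X : 𝒱.Obj) (D : X.Cycles)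
    (hD : X.IsCyc 1 D) (hdeg : 0 < X.V.degCycle (divPow ops D X.dim X.V.fundCycle))
    (hHL : HardLefschetz W X D) (hB : LefschetzB W X D) (b : ℕ)
    (hb : b = Module.finrank W.K (W.H X)) (P N : ℕ → ℕ)
    (hP : ∀ n, P n = sqs ops D 1 n ((n + 1) * X.dim))
    (hN : ∀ n, N n = sqs ops D (-1) n ((n + 1) * X.dim)) :
    (∀ n j, j ≤ (n + 1) * X.dim → BddAbove {r | NumFamily ops (sq X n) (sqD ops D n) j 1 r} ∧
      BddAbove {r | NumFamily ops (sq X n) (sqD ops D n) j (-1) r}) ∧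
    (∀ n, P n + N n = numRank ops (sq X n) ((n + 1) * X.dim) ∧
      (b ^ 2) ^ (n + 1) ≤ (P n + N n) * (n + 2) ^ (b ^ 2)) ∧
    (∀ κ, ¬ (NumHodge ops (pw X κ) (pwD ops D κ) ∧ NumHodge ops (sq X κ) (sqD ops D κ)) → ∀ n,
      (∀ c ≤ (n + 1) * X.dim, |(sqs ops D 1 n c : ℤ) - sqs ops D (-1) n c| ≤
        (b ^ (κ + 1) - 2 : ℤ) ^ ((n + 1) / (κ + 1)) * b ^ ((n + 1) % (κ + 1)) * b ^ (n + 1)) ∧
      |(N n : ℝ) / (P n + N n) - 1 / 2| ≤
        (n + 2) ^ (b ^ 2) / 2 * (1 - 2 / b ^ (κ + 1)) ^ ((n + 1) / (κ + 1))) ∧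
    ((∀ n, NumHodge ops (pw X n) (pwD ops D n) ∧ NumHodge ops (sq X n) (sqD ops D n) ∧
        ∀ c ≤ (n + 1) * X.dim, sqs ops D (-1) n c = 0) ∨
      Tendsto (fun n => (N n : ℝ) / (P n + N n)) atTop (𝓝 (1 / 2))) := by
  subst hb
  have hg := growth W hD hHL hB
  have hratio : ∀ κ, ¬ (NumHodge ops (pw X κ) (pwD ops D κ) ∧
      NumHodge ops (sq X κ) (sqD ops D κ)) → ∀ n, |(N n : ℝ) / (P n + N n) - 1 / 2| ≤
        (n + 2) ^ (Module.finrank W.K (W.H X) ^ 2) / 2 *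
          (1 - 2 / Module.finrank W.K (W.H X) ^ (κ + 1)) ^ ((n + 1) / (κ + 1)) := by
    intro κ hκ n
    obtain ⟨h2, h3⟩ := law_eff W hD hdeg hHL hB hκ
    have h4 := h3 n _ le_rfl
    rw [← hP, ← hN] at h4
    refine ratio_bound h2 ?_ h4.1 h4.2
    rw [hP, hN]
    exact hg n
  refine ⟨fun n j hj => bdd W hD hHL hB hj,
    fun n => ⟨by rw [hP, hN]; exact sqs_add W hD hHL hB n, by rw [hP, hN]; exact hg n⟩,
    fun κ hκ n => ⟨fun c hc => ?_, hratio κ hκ n⟩, ?_⟩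
  · obtain ⟨h2, h3⟩ := law_eff W hD hdeg hHL hB hκ
    obtain ⟨h4, h5⟩ := h3 n c hc
    have hcast : ((Module.finrank W.K (W.H X) ^ (κ + 1) - 2 : ℕ) : ℤ) =
        (Module.finrank W.K (W.H X) : ℤ) ^ (κ + 1) - 2 := by
      rw [Nat.cast_sub h2]; push_cast; ring
    rw [← hcast, abs_le]
    constructor
    · have : (sqs ops D (-1) n c : ℤ) ≤ sqs ops D 1 n c +
          ((Module.finrank W.K (W.H X) ^ (κ + 1) - 2 : ℕ) : ℤ) ^ ((n + 1) / (κ + 1)) *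
          (Module.finrank W.K (W.H X) : ℤ) ^ ((n + 1) % (κ + 1)) *
          (Module.finrank W.K (W.H X) : ℤ) ^ (n + 1) := by exact_mod_cast h5
      linarith
    · have : (sqs ops D 1 n c : ℤ) ≤ sqs ops D (-1) n c +
          ((Module.finrank W.K (W.H X) ^ (κ + 1) - 2 : ℕ) : ℤ) ^ ((n + 1) / (κ + 1)) *
          (Module.finrank W.K (W.H X) : ℤ) ^ ((n + 1) % (κ + 1)) *
          (Module.finrank W.K (W.H X) : ℤ) ^ (n + 1) := by exact_mod_cast h4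
      linarith
  · by_cases h : ∀ n, NumHodge ops (pw X n) (pwD ops D n) ∧ NumHodge ops (sq X n) (sqD ops D n)
    · left
      exact fun n => ⟨(h n).1, (h n).2, fun c hc => sqs_zero hD (h n).2 hc⟩
    · right
      push Not at h
      obtain ⟨κ, hκ⟩ := h
      have hκ' : ¬ (NumHodge ops (pw X κ) (pwD ops D κ) ∧ NumHodge ops (sq X κ) (sqD ops D κ)) :=
        fun h => hκ h.1 h.2
      obtain ⟨h2, -⟩ := law_eff W hD hdeg hHL hB hκ'
      have h2R : (2 : ℝ) ≤ (Module.finrank W.K (W.H X) : ℝ) ^ (κ + 1) := by exact_mod_cast h2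
      have h3 := bound_tendsto (Module.finrank W.K (W.H X) ^ 2) κ
        (ρ := 1 - 2 / (Module.finrank W.K (W.H X) : ℝ) ^ (κ + 1))
        (by rw [sub_nonneg, div_le_one (by linarith)]; exact h2R)
        (by
          have : 0 < 2 / (Module.finrank W.K (W.H X) : ℝ) ^ (κ + 1) := by positivity
          linarith)
      rw [tendsto_iff_norm_sub_tendsto_zero]
      refine squeeze_zero (fun n => norm_nonneg _) (fun n => ?_) h3
      rw [Real.norm_eq_abs]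
      exact hratio κ hκ' n

end Pool.Agent.J4H47.SG
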