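import Pool.Agent.J4H47.SG.Iso
import Pool.Agent.Y163.TateB

/-!
# Anti-isometries on all powers of a variety, from a failure on one power
-/

open CategoryTheory AlgebraicGeometry Finset

universe u v

namespace Pool.Agent.J4H47.SG

open Pool.Agent.H914 Pool.Agent.H914.VarClass Pool.Agent.H914.VarClass.Obj
  Pool.Agent.H914.WeilCohomology Pool.Agent.H281R3.HT Pool.Agent.W552 Pool.Agent.W539.Ker
  Pool.Agent.Y163 Pool.Agent.W534
open Pool.Agent.R940 (tw tw_cancel tw_cancel' tw_mul tw_one)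

variable {k : Type u} [Field k] {𝒱 : VarClass k} {ops : CycleOps 𝒱}
  {W : WeilCohomology.{u, v} ops} {r : ℝ →+* W.K} {X Y Z A B : 𝒱.Obj}

lemma tower0 {D : X.Cycles} (hD : X.IsCyc 1 D) (hHL : HardLefschetz W X D)
    (hB : LefschetzB W X D) (n : ℕ) :
    HardLefschetz W (pw X n) (pwD ops D n) ∧ LefschetzB W (pw X n) (pwD ops D n) := by
  induction n with
  | zero => exact ⟨hHL, hB⟩
  | succ n ih =>
    exact ⟨TH125.Gal.hardLefschetz_prod hD (pwD_cyc hD n) hHL ih.1,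
      Pool.Agent.X310.Mom.lefschetzB_prod hD (pwD_cyc hD n) hHL ih.1 hB ih.2⟩

lemma sq0 {D : X.Cycles} (hD : X.IsCyc 1 D) (hHL : HardLefschetz W X D)
    (hB : LefschetzB W X D) (n : ℕ) :
    HardLefschetz W (sq X n) (sqD ops D n) ∧ LefschetzB W (sq X n) (sqD ops D n) := by
  have ih := tower0 hD hHL hB n
  exact ⟨TH125.Gal.hardLefschetz_prod (pwD_cyc hD n) (pwD_cyc hD n) ih.1 ih.1,
      Pool.Agent.X310.Mom.lefschetzB_prod (pwD_cyc hD n) (pwD_cyc hD n) ih.1 ih.1 ih.2 ih.2⟩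

lemma AntiIso.triv {E : Z.Cycles} {g : Module.End W.K (W.H Z)} :
    AntiIso r E g (Module.finrank W.K (W.H Z)) :=
  ⟨0, 0, 1, RC.zero, RC.one, Adj.zero, Adj.one, by rw [mul_zero, sub_self],
    Submodule.finrank_le _⟩

/-- **Anti-isometries on all powers.** -/
theorem exists_good {D : X.Cycles} (hD : X.IsCyc 1 D) (hHL : HardLefschetz W X D)
    (hB : LefschetzB W X D) {κ : ℕ} {f : Module.End W.K (W.H (pw X κ))}
    (G : Gd W (pw X κ) (pwD ops D κ) f) {h j j' : Module.End W.K (W.H (pw X κ))}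
    (h1 : RC r (pw X κ) (pw X κ) 0 h) (h2 : RC r (pw X κ) (pw X κ) 0 j)
    (h3 : Adj W (pwD ops D κ) f (pwD ops D κ) f h h) (h4 : Adj W (pwD ops D κ) f (pwD ops D κ) f j j')
    (h5 : h * h = h) (h6 : h * j = j) (h7 : j * h = j) (h8 : j' * j = -h)
    (h9 : 2 ≤ Module.finrank W.K (LinearMap.range h)) (n : ℕ) :
    ∃ g, Gd W (pw X n) (pwD ops D n) g ∧ AntiIso r (pwD ops D n) g
      ((Module.finrank W.K (W.H X) ^ (κ + 1) - 2) ^ ((n + 1) / (κ + 1)) *
        Module.finrank W.K (W.H X) ^ ((n + 1) % (κ + 1))) := by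
  induction n using Nat.strong_induction_on with
  | _ n ih =>
  have hT := tower0 hD hHL hB n
  rcases lt_trichotomy n κ with hn | rfl | hn
  · obtain ⟨g, hg⟩ := exists_gd (pwD_cyc hD n) hT.1 hT.2
    refine ⟨g, hg, ?_⟩
    rw [Nat.div_eq_of_lt (by omega), Nat.mod_eq_of_lt (by omega), pow_zero, one_mul,
      ← finrank_pw]
    exact AntiIso.triv
  · refine ⟨f, G, ?_⟩
    rw [Nat.div_self (by omega), Nat.mod_self, pow_zero, mul_one, pow_one, ← finrank_pw]
    exact AntiIso.base h1 h2 h3 h4 h5 h8 h9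
  · obtain ⟨m, rfl⟩ : ∃ m, n = m + κ + 1 := ⟨n - κ - 1, by omega⟩
    obtain ⟨g, hg, hA⟩ := ih m (by omega)
    have hs := AntiIso.step G hg h1 h2 h3 h4 h5 h6 h7 h8 h9 hA
    have C := cmp_pwI (W := W) hD κ m
    have F := G.fr.prod hg.fr
    refine ⟨tw (pwI X κ m) (extSum W f g), gd_of (C.fr F) hT.1 hT.2, ?_⟩
    have hs' := C.antiIso F hs
    have e1 : (m + κ + 1 + 1) / (κ + 1) = (m + 1) / (κ + 1) + 1 := by
      rw [show m + κ + 1 + 1 = (m + 1) + (κ + 1) by ring, Nat.add_div_right _ (by omega)]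
    have e2 : (m + κ + 1 + 1) % (κ + 1) = (m + 1) % (κ + 1) := by
      rw [show m + κ + 1 + 1 = (m + 1) + (κ + 1) by ring, Nat.add_mod_right]
    rw [finrank_pw] at hs'
    rw [e1, e2, pow_succ', mul_assoc]
    exact hs'

/-- **The bound for the numbers of squares.** -/
theorem sqs_le {D : X.Cycles} {n N : ℕ} {g : Module.End W.K (W.H (pw X n))}
    (G : Gd W (pw X n) (pwD ops D n) g) (hA : AntiIso r (pwD ops D n) g N) {c : ℕ}
    (hc : c ≤ (n + 1) * X.dim) :
    sqs ops D 1 n c ≤ sqs ops D (-1) n c + N * Module.finrank W.K (W.H X) ^ (n + 1) ∧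
    sqs ops D (-1) n c ≤ sqs ops D 1 n c + N * Module.finrank W.K (W.H X) ^ (n + 1) := by
  classical
  obtain ⟨ι, hι, y, s, Q, hp, hm⟩ := exists_fam2 (G.fr.prod G.fr) (2 * (((n + 1) * X.dim : ℕ) - c))
  have hd : ((pw X n).prod (pw X n)).dim = 2 * ((n + 1) * X.dim) := dim_sq X n
  rw [hd, csum_eq hc] at hp hm
  have b1 := Q.bound G hA 1 (Or.inl rfl)
  have b2 := Q.bound G hA (-1) (Or.inr rfl)
  simp only [one_mul] at b1
  have e1 : (univ.filter (fun i => 0 < (-1 : ℚ) * s i)) = univ.filter (fun i => s i < 0) := by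
    ext i; simp
  have e2 : (univ.filter (fun i => (-1 : ℚ) * s i < 0)) = univ.filter (fun i => 0 < s i) := by
    ext i; simp
  rw [e1, e2] at b2
  rw [hp, hm, finrank_pw] at b1
  rw [hp, hm, finrank_pw] at b2
  exact ⟨b1, b2⟩

/-- The degree of a sum of divisors on a product. -/
lemma deg_prod_pos (W : WeilCohomology.{u, v} ops) {D : X.Cycles} (hD : X.IsCyc 1 D)
    (h : 0 < X.V.degCycle (divPow ops D X.dim X.V.fundCycle))
    {E : Z.Cycles} (hE : Z.IsCyc 1 E) (h' : 0 < Z.V.degCycle (divPow ops E Z.dim Z.V.fundCycle)) :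
    0 < (X.prod Z).V.degCycle (divPow ops (ops.pull (fst X Z) D + ops.pull (snd X Z) E)
      (X.prod Z).dim (X.prod Z).V.fundCycle) := by
  have hG : (X.prod Z).IsCyc 1 (ops.pull (fst X Z) D + ops.pull (snd X Z) E) :=
    (ops.pull_mem _ hD).add (ops.pull_mem _ hE)
  have key : ∀ {V : 𝒱.Obj} {G : V.Cycles}, V.IsCyc 1 G →
      ((V.V.degCycle (divPow ops G V.dim V.V.fundCycle) : ℚ) : W.K) = W.tr V (W.cl V G ^ V.dim) := by
    intro V G hG
    rw [← cl_divPow_fund, W.tr_cl (divPow_fund_mem hG _)]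
  have h1 : W.tr (X.prod Z) (W.cl (X.prod Z) (ops.pull (fst X Z) D + ops.pull (snd X Z) E) ^
      (X.prod Z).dim) = ((X.dim + Z.dim).choose X.dim : W.K) *
        (W.tr X (W.cl X D ^ X.dim) * W.tr Z (W.cl Z E ^ Z.dim)) := by
    rw [map_add, W.cl_pull, W.cl_pull, dim_prod]
    have hc : Commute (W.map (fst X Z) (W.cl X D)) (W.map (snd X Z) (W.cl Z E)) :=
      W.even_comm (p := 1) (W.map_mem _ (W.cl_mem hD)) _
    rw [hc.add_pow, map_sum]
    have hterm : ∀ i ∈ Finset.range (X.dim + Z.dim + 1),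
        W.tr (X.prod Z) (W.map (fst X Z) (W.cl X D) ^ i *
          W.map (snd X Z) (W.cl Z E) ^ (X.dim + Z.dim - i) *
            ((X.dim + Z.dim).choose i : W.H (X.prod Z))) =
        if i = X.dim then ((X.dim + Z.dim).choose X.dim : W.K) *
          (W.tr X (W.cl X D ^ X.dim) * W.tr Z (W.cl Z E ^ Z.dim)) else 0 := by
      intro i hi
      rw [← map_pow (W.map (fst X Z)), ← map_pow (W.map (snd X Z)), ← nsmul_eq_mul', map_nsmul,
        W.tr_prod]
      split_ifs with h1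
      · subst h1
        rw [show X.dim + Z.dim - X.dim = Z.dim by omega, nsmul_eq_mul]
      · rw [W.tr_eq_zero (pow_mem_gr hD i) (by omega), zero_mul, nsmul_zero]
    rw [Finset.sum_congr rfl hterm, Finset.sum_ite_eq', if_pos (Finset.mem_range.2 (by omega))]
  rw [← key hG, ← key hD, ← key hE] at h1
  have h2 : (X.prod Z).V.degCycle (divPow ops (ops.pull (fst X Z) D + ops.pull (snd X Z) E)
      (X.prod Z).dim (X.prod Z).V.fundCycle) = ((X.dim + Z.dim).choose X.dim : ℚ) *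
        (X.V.degCycle (divPow ops D X.dim X.V.fundCycle) *
          Z.V.degCycle (divPow ops E Z.dim Z.V.fundCycle)) := by exact_mod_cast h1
  rw [h2]
  exact mul_pos (by exact_mod_cast Nat.choose_pos (by omega)) (mul_pos h h')

lemma deg_pw_pos (W : WeilCohomology.{u, v} ops) {D : X.Cycles} (hD : X.IsCyc 1 D)
    (h : 0 < X.V.degCycle (divPow ops D X.dim X.V.fundCycle)) (n : ℕ) :
    0 < (pw X n).V.degCycle (divPow ops (pwD ops D n) (pw X n).dim (pw X n).V.fundCycle) := by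
  induction n with
  | zero => exact h
  | succ n ih => exact deg_prod_pos W hD h (pwD_cyc hD n) ih

end Pool.Agent.J4H47.SG
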