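import Pool.Agent.J4H47.SG.Rank
import Pool.Agent.J4H47.SG.Tower
import Pool.Agent.W539.Sig.Main

/-!
# The signature law
-/

open CategoryTheory AlgebraicGeometry Finset Filter

universe u v

namespace Pool.Agent.J4H47.SG

open Pool.Agent.H914 Pool.Agent.H914.VarClass Pool.Agent.H914.VarClass.Obj
  Pool.Agent.H914.WeilCohomology Pool.Agent.H281R3.HT Pool.Agent.W552 Pool.Agent.W539.Ker
  Pool.Agent.Y163 Pool.Agent.W534

variable {k : Type u} [Field k] {𝒱 : VarClass k} {ops : CycleOps 𝒱}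
  (W : WeilCohomology.{u, v} ops) {X Z : 𝒱.Obj}

/-- **The total number of squares.** -/
theorem sqs_add {D : X.Cycles} (hD : X.IsCyc 1 D) (hHL : HardLefschetz W X D)
    (hB : LefschetzB W X D) (n : ℕ) :
    sqs ops D 1 n ((n + 1) * X.dim) + sqs ops D (-1) n ((n + 1) * X.dim) =
      numRank ops (sq X n) ((n + 1) * X.dim) := by
  classical
  have hs := sq0 (W := W) hD hHL hB n
  have hc : (sq X n).IsCyc 1 (sqD ops D n) :=
    SmVar.IsCyc.add (ops.pull_mem _ (pwD_cyc hD n)) (ops.pull_mem _ (pwD_cyc hD n))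
  obtain ⟨f, G⟩ := exists_gd hc hs.1 hs.2
  obtain ⟨ι, hι, y, s, Q, hp, hm⟩ := exists_fam2 G.fr 0
  have hd : (sq X n).dim = 2 * ((n + 1) * X.dim) := dim_sq X n
  have h0 : (0 : ℤ) = 2 * ((((n + 1) * X.dim : ℕ) : ℤ) - (((n + 1) * X.dim : ℕ) : ℤ)) := by ring
  rw [hd, h0, csum_eq le_rfl] at hp hm
  rw [numRank_mid G hd Q, sqs, sqs, ← hp, ← hm, ← Finset.card_union_of_disjoint]
  · rw [← Finset.card_univ]
    congr 1
    ext i
    simp only [Finset.mem_union, Finset.mem_filter, Finset.mem_univ, true_and, iff_true]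
    exact (lt_or_gt_of_ne (Q.ne i)).symm
  · rw [Finset.disjoint_filter]
    intro i _ h1 h2
    exact absurd h1 (not_lt.2 h2.le)

/-- The growth of the total number of squares. -/
theorem growth {D : X.Cycles} (hD : X.IsCyc 1 D) (hHL : HardLefschetz W X D)
    (hB : LefschetzB W X D) (n : ℕ) :
    (Module.finrank W.K (W.H X) ^ 2) ^ (n + 1) ≤
      (sqs ops D 1 n ((n + 1) * X.dim) + sqs ops D (-1) n ((n + 1) * X.dim)) *
        (n + 2) ^ (Module.finrank W.K (W.H X) ^ 2) := by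
  obtain ⟨f, G⟩ := exists_gd hD hHL hB
  rw [sqs_add W hD hHL hB]
  exact Pool.Agent.R940.growth_any (par_kop G) n

/-- The numerical Hodge standard conjecture gives no negative squares. -/
theorem squares_zero {E : Z.Cycles} (hE : Z.IsCyc 1 E) (h : NumHodge ops Z E) {j : ℕ}
    (hj : 2 * j ≤ Z.dim) : squares ops Z E (-1) j = 0 := by
  have h1 : {r | NumFamily ops Z E j (-1) r} = {0} := by
    ext r
    rw [Set.mem_setOf_eq, Set.mem_singleton_iff]
    constructor
    · rintro ⟨z, hz, hn, -⟩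
      by_contra h0
      have hr : 0 < r := Nat.pos_of_ne_zero h0
      have h2 := hz ⟨0, hr⟩
      have h3 := hn ⟨0, hr⟩
      by_cases h4 : ∃ w, Z.IsCyc (Z.dim - j) w ∧ Z.V.degCycle (ops.mul (z ⟨0, hr⟩) w) ≠ 0
      · have h5 := h j hj _ h2 h4
        linarith
      · push Not at h4
        have h5 := divPow_mem (ops := ops) hE (Z.dim - 2 * j) h2.1
        rw [show j + (Z.dim - 2 * j) = Z.dim - j by omega] at h5
        have h6 := h4 _ h5
        rw [pairing, h6, mul_zero, mul_zero] at h3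
        exact lt_irrefl _ h3
    · rintro rfl
      exact ⟨fun i => i.elim0, fun i => i.elim0, fun i => i.elim0, fun i => i.elim0⟩
  rw [squares, h1, csSup_singleton]

theorem sqs_zero {D : X.Cycles} (hD : X.IsCyc 1 D) {n : ℕ}
    (h : NumHodge ops (sq X n) (sqD ops D n)) {c : ℕ} (hc : c ≤ (n + 1) * X.dim) :
    sqs ops D (-1) n c = 0 := by
  have hcy : (sq X n).IsCyc 1 (sqD ops D n) :=
    SmVar.IsCyc.add (ops.pull_mem _ (pwD_cyc hD n)) (ops.pull_mem _ (pwD_cyc hD n))
  have hd : (sq X n).dim = 2 * ((n + 1) * X.dim) := dim_sq X n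
  refine Finset.sum_eq_zero fun j hj => squares_zero hcy h ?_
  rw [Finset.mem_range] at hj
  rw [hd]
  omega

/-- **The effective signature law.** -/
theorem law_eff {D : X.Cycles} (hD : X.IsCyc 1 D)
    (hdeg : 0 < X.V.degCycle (divPow ops D X.dim X.V.fundCycle))
    (hHL : HardLefschetz W X D) (hB : LefschetzB W X D) {κ : ℕ}
    (hκ : ¬ (NumHodge ops (pw X κ) (pwD ops D κ) ∧ NumHodge ops (sq X κ) (sqD ops D κ))) :
    2 ≤ Module.finrank W.K (W.H X) ^ (κ + 1) ∧ ∀ n c, c ≤ (n + 1) * X.dim →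
      sqs ops D 1 n c ≤ sqs ops D (-1) n c +
        (Module.finrank W.K (W.H X) ^ (κ + 1) - 2) ^ ((n + 1) / (κ + 1)) *
          Module.finrank W.K (W.H X) ^ ((n + 1) % (κ + 1)) *
          Module.finrank W.K (W.H X) ^ (n + 1) ∧
      sqs ops D (-1) n c ≤ sqs ops D 1 n c +
        (Module.finrank W.K (W.H X) ^ (κ + 1) - 2) ^ ((n + 1) / (κ + 1)) *
          Module.finrank W.K (W.H X) ^ ((n + 1) % (κ + 1)) *
          Module.finrank W.K (W.H X) ^ (n + 1) := by
  obtain ⟨L, _, _, _, _, ⟨φ⟩⟩ := Pool.Agent.W539.Sig.exists_ext W.K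
  let _ : Algebra W.K L := φ.toAlgebra
  have hHL' : HardLefschetz (baseW W L) X D := base_hardLefschetz hD hHL
  have hB' : LefschetzB (baseW W L) X D := lefschetzB_base L hD hHL hB
  let r : ℝ →+* (baseW W L).K := (algebraMap ℂ L).comp Complex.ofRealHom
  have hT := tower0 hD hHL' hB' κ
  obtain ⟨f, G⟩ := exists_gd (pwD_cyc hD κ) hT.1 hT.2
  obtain ⟨y, q, hy, hw, hq, hb⟩ : ∃ (y : (baseW W L).H ((pw X κ).prod (pw X κ))) (q : ℚ),
      AS (baseW W L) _ y ∧
      wt ((baseW W L).isInternal ((pw X κ).prod (pw X κ))) ((pw X κ).prod (pw X κ)).dim y =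
        ((0 : ℤ) : (baseW W L).K) • y ∧ q < 0 ∧
      bf (baseW W L) ((pw X κ).prod (pw X κ)) (ops.pull (fst (pw X κ) (pw X κ)) (pwD ops D κ) +
        ops.pull (snd (pw X κ) (pw X κ)) (pwD ops D κ)) (extSum (baseW W L) f f) y y = q := by
    by_cases h1 : NumHodge ops (pw X κ) (pwD ops D κ)
    · exact neg_of_square G (fun h2 => hκ ⟨h1, h2⟩)
    · exact neg_of_self G (deg_pw_pos W hD hdeg κ) h1
  obtain ⟨h, j, j', h1, h2, -, h3, h4, h5, h6, h7, h8, h9⟩ := pair_of_neg (r := r) G hy hw hq hb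
  have hfin : Module.finrank (baseW W L).K ((baseW W L).H (pw X κ)) =
      Module.finrank W.K (W.H X) ^ (κ + 1) := by
    rw [finrank_pw, Pool.Agent.R940.finrank_baseW]
  constructor
  · rw [← hfin]
    exact h9.trans (Submodule.finrank_le _)
  · intro n c hc
    obtain ⟨g, hg, hA⟩ := exists_good (r := r) hD hHL' hB' G h1 h2 h3 h4 h5 h6 h7 h8 h9 n
    have h10 := sqs_le hg hA hc
    rw [Pool.Agent.R940.finrank_baseW] at h10
    exact h10

end Pool.Agent.J4H47.SG
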