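import Pool.Agent.J4H47.SG.Fam2
import Pool.Agent.J4H47.SG.Base

/-!
# The numbers of squares on the even powers of a variety
-/

open CategoryTheory AlgebraicGeometry Finset

universe u v

namespace Pool.Agent.J4H47.SG

open Pool.Agent.H914 Pool.Agent.H914.VarClass Pool.Agent.H914.VarClass.Obj
  Pool.Agent.H914.WeilCohomology Pool.Agent.H281R3.HT Pool.Agent.W552 Pool.Agent.W539.Ker
  Pool.Agent.Y163 Pool.Agent.W534

variable {k : Type u} [Field k] {𝒱 : VarClass k} {ops : CycleOps 𝒱}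
  {W : WeilCohomology.{u, v} ops} {r : ℝ →+* W.K} {X Y Z : 𝒱.Obj}

lemma gd_of {E : Z.Cycles} {g : Module.End W.K (W.H Z)} (F : Fr W Z E g)
    (hHL : HardLefschetz W Z E) (hB : LefschetzB W Z E) : Gd W Z E g := by
  have hp := proj_aop F.hD hHL hB
  exact ⟨F, ⟨mulLeft_isHom F.hD, W_hbd, hHL, F.sl2⟩, st_aop F hp, par_aop hp⟩

section Neg

variable {D : X.Cycles} {f : Module.End W.K (W.H X)} (G : Gd W X D f)

include G

/-- The class of negative square in the middle codimension of `X × X`. -/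
lemma neg_of_square (h : ¬ NumHodge ops (X.prod X) (ops.pull (fst X X) D + ops.pull (snd X X) D)) :
    ∃ (y : W.H (X.prod X)) (q : ℚ), AS W _ y ∧
      wt (W.isInternal (X.prod X)) (X.prod X).dim y = ((0 : ℤ) : W.K) • y ∧ q < 0 ∧
      bf W (X.prod X) (ops.pull (fst X X) D + ops.pull (snd X X) D) (extSum W f f) y y = q := by
  have F := G.fr.prod G.fr
  obtain ⟨n, hn, z, hz, hneg⟩ := exists_neg F h
  have hd : (X.prod X).dim = 2 * X.dim := by rw [dim_prod]; ring
  have hj : X.dim - n ≤ (X.prod X).dim - 2 * n := by omega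
  have h1 := bf_same F hn hz hz hj
  have h2 := (ap_alg F).map_L_pow (X.dim - n) (l := n) ⟨z, hz.1, rfl⟩
  refine ⟨_, _, AS.of h2, ?_, ?_, h1⟩
  · rw [Fr.wt_gr (alg_gr h2)]
    congr 1
    have h3 : n + (X.dim - n) = X.dim := by omega
    rw [h3, hd]
    push_cast
    ring
  · have h4 : (0 : ℚ) < ((X.dim - n).factorial : ℚ) *
        (((X.prod X).dim - 2 * n - (X.dim - n)).factorial : ℚ)⁻¹ := by positivity
    exact mul_neg_of_pos_of_neg h4 hneg

/-- The class of negative square in the middle codimension of `X × X`, for a failure on `X`. -/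
lemma neg_of_self (hdeg : 0 < X.V.degCycle (divPow ops D X.dim X.V.fundCycle))
    (h : ¬ NumHodge ops X D) :
    ∃ (y : W.H (X.prod X)) (q : ℚ), AS W _ y ∧
      wt (W.isInternal (X.prod X)) (X.prod X).dim y = ((0 : ℤ) : W.K) • y ∧ q < 0 ∧
      bf W (X.prod X) (ops.pull (fst X X) D + ops.pull (snd X X) D) (extSum W f f) y y = q := by
  have F := G.fr
  obtain ⟨n, hn, z, hz, hneg⟩ := exists_neg F h
  have h1 := bf_same F hn hz hz (j := 0) (by omega)
  rw [pow_zero, Module.End.one_apply] at h1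
  have hfund : X.IsCyc 0 X.V.fundCycle := X.V.fundCycle_mem
  have hp : Primitive W X D 0 X.V.fundCycle := by
    refine ⟨hfund, ?_⟩
    have h2 := W.cl_mem (divPow_mem (ops := ops) F.hD (X.dim - 2 * 0 + 1) hfund)
    rw [W.gr_eq_bot X _ (by omega)] at h2
    exact (Submodule.mem_bot _).1 h2
  have h3 := bf_same F (n := 0) (by omega) hp hp (j := X.dim - n) (by omega)
  have hpp : pairing ops X D 0 X.V.fundCycle X.V.fundCycle =
      X.V.degCycle (divPow ops D X.dim X.V.fundCycle) := by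
    have h4 : ((pairing ops X D 0 X.V.fundCycle X.V.fundCycle : ℚ) : W.K) =
        ((X.V.degCycle (divPow ops D X.dim X.V.fundCycle) : ℚ) : W.K) := by
      rw [pairing_cast F.hD (by omega) hfund hfund, pow_zero, one_mul, W.cl_fund, one_mul,
        Nat.mul_zero, Nat.sub_zero, ← W.cl_fund, ← cl_divPow, W.tr_cl]
      have := divPow_mem (ops := ops) F.hD X.dim hfund
      rwa [zero_add] at this
    exact_mod_cast h4
  rw [hpp] at h3
  set y1 := W.cl X z with hy1
  set y2 := ((LinearMap.mulLeft W.K (W.cl X D)) ^ (X.dim - n)) (W.cl X X.V.fundCycle) with hy2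
  have a1 : y1 ∈ algClasses W X n := ⟨z, hz.1, rfl⟩
  have a2 : y2 ∈ algClasses W X (0 + (X.dim - n)) :=
    (ap_alg F).map_L_pow (X.dim - n) (l := 0) ⟨X.V.fundCycle, hfund, rfl⟩
  have a3 : Pool.Agent.H281R3.HT.ext W y1 y2 ∈ W.gr (X.prod X) (2 * n + 2 * (0 + (X.dim - n))) :=
    W.mul_mem (W.map_mem _ (alg_gr a1)) (W.map_mem _ (alg_gr a2))
  obtain ⟨q1, hq1, hb1⟩ : ∃ q : ℚ, q < 0 ∧ bf W X D f y1 y1 = q :=
    ⟨_, mul_neg_of_pos_of_neg (by positivity) hneg, h1⟩
  obtain ⟨q2, hq2, hb2⟩ : ∃ q : ℚ, 0 < q ∧ bf W X D f y2 y2 = q :=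
    ⟨_, mul_pos (by positivity) hdeg, h3⟩
  refine ⟨Pool.Agent.H281R3.HT.ext W y1 y2, q1 * q2, (AS.of a1).ext (AS.of a2), ?_,
    mul_neg_of_neg_of_pos hq1 hq2, ?_⟩
  · rw [Fr.wt_gr a3]
    congr 1
    have h3 : 2 * n + 2 * (0 + (X.dim - n)) = 2 * X.dim := by omega
    have hd : (X.prod X).dim = 2 * X.dim := by rw [dim_prod]; ring
    rw [h3, hd]
    push_cast
    ring
  · rw [G.fr.bf_ext G.fr, hb1, hb2, ← Rat.cast_mul]

/-- A class of negative square gives an exact anti-isometry. -/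
theorem pair_of_neg {y : W.H (X.prod X)} {q : ℚ} (hy : AS W _ y)
    (hw : wt (W.isInternal (X.prod X)) (X.prod X).dim y = ((0 : ℤ) : W.K) • y) (hq : q < 0)
    (h : bf W (X.prod X) (ops.pull (fst X X) D + ops.pull (snd X X) D) (extSum W f f) y y = q) :
    ∃ h j j' : Module.End W.K (W.H X), RC r X X 0 h ∧ RC r X X 0 j ∧
      RC r X X 0 j' ∧ Adj W D f D f h h ∧ Adj W D f D f j j' ∧ h * h = h ∧ h * j = j ∧
      j * h = j ∧ j' * j = -h ∧ 2 ≤ Module.finrank W.K (LinearMap.range h) := by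
  have hu : RC r X X 0 (W.corr y) := RC.of ⟨_, hy, rfl⟩ (hm_corr.2 hw)
  obtain ⟨u', -, hadj⟩ := RC.adj G G hu
  refine exists_pair G hu hadj (t := (q : ℝ)) ?_ (by exact_mod_cast hq)
  rw [map_ratCast, ← h]
  exact G.trace_corr G hy hy hadj

end Neg

/-- The operators on the powers. -/
theorem exists_tower {D : X.Cycles} {f : Module.End W.K (W.H X)} (G : Gd W X D f)
    (hHL : HardLefschetz W X D) (hB : LefschetzB W X D) (n : ℕ) :
    ∃ fn, Gd W (pw X n) (pwD ops D n) fn ∧ HardLefschetz W (pw X n) (pwD ops D n) ∧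
      LefschetzB W (pw X n) (pwD ops D n) ∧
      ∀ h j j' : Module.End W.K (W.H X), RC r X X 0 h → RC r X X 0 j →
        Adj W D f D f h h → Adj W D f D f j j' → h * h = h → h * j = j →
        j * h = j → j' * j = -h → 2 ≤ Module.finrank W.K (LinearMap.range h) →
        AntiIso r (pwD ops D n) fn ((Module.finrank W.K (W.H X) - 2) ^ (n + 1)) := by
  induction n with
  | zero =>
    refine ⟨f, G, hHL, hB, fun h j j' h1 h2 h3 h4 h5 h6 h7 h8 h9 => ?_⟩
    rw [zero_add, pow_one]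
    exact AntiIso.base h1 h2 h3 h4 h5 h8 h9
  | succ n ih =>
    obtain ⟨fn, Gn, hHn, hBn, hA⟩ := ih
    have hH' : HardLefschetz W (X.prod (pw X n)) (ops.pull (fst X (pw X n)) D +
        ops.pull (snd X (pw X n)) (pwD ops D n)) :=
      TH125.Gal.hardLefschetz_prod G.fr.hD Gn.fr.hD hHL hHn
    have hB' : LefschetzB W (X.prod (pw X n)) (ops.pull (fst X (pw X n)) D +
        ops.pull (snd X (pw X n)) (pwD ops D n)) :=
      Pool.Agent.X310.Mom.lefschetzB_prod G.fr.hD Gn.fr.hD hHL hHn hB hBn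
    refine ⟨extSum W f fn, gd_of (G.fr.prod Gn.fr) hH' hB', hH', hB',
      fun h j j' h1 h2 h3 h4 h5 h6 h7 h8 h9 => ?_⟩
    rw [pow_succ']
    exact AntiIso.step G Gn h1 h2 h3 h4 h5 h6 h7 h8 h9 (hA h j j' h1 h2 h3 h4 h5 h6 h7 h8 h9)

lemma csum_eq {M c : ℕ} (hc : c ≤ M) (σ : ℕ → ℕ) :
    csum (2 * M) σ (2 * ((M : ℤ) - c)) = ∑ j ∈ range (c + 1), σ j := by
  rw [csum, show 2 * M / 2 = M by omega, ← Finset.sum_filter]
  apply Finset.sum_congr _ (fun _ _ => rfl)
  ext j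
  rw [Finset.mem_filter, Finset.mem_range, Finset.mem_range]
  constructor
  · rintro ⟨h1, h2, -⟩
    have := (abs_le.1 h2).2
    push_cast at this
    omega
  · intro h
    refine ⟨by omega, abs_le.2 ⟨by push_cast; omega, by push_cast; omega⟩, ?_⟩
    exact ⟨(M : ℤ) + (M - c), by push_cast; ring⟩

/-- **The bound for the numbers of squares.** -/
theorem sqs_bound {D : X.Cycles} {f : Module.End W.K (W.H X)} (G : Gd W X D f)
    (hHL : HardLefschetz W X D) (hB : LefschetzB W X D) {h j j' : Module.End W.K (W.H X)}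
    (h1 : RC r X X 0 h) (h2 : RC r X X 0 j) (h3 : Adj W D f D f h h) (h4 : Adj W D f D f j j')
    (h5 : h * h = h) (h6 : h * j = j) (h7 : j * h = j) (h8 : j' * j = -h)
    (h9 : 2 ≤ Module.finrank W.K (LinearMap.range h)) (n c : ℕ) (hc : c ≤ (n + 1) * X.dim) :
    sqs ops D 1 n c ≤ sqs ops D (-1) n c + (Module.finrank W.K (W.H X) - 2) ^ (n + 1) *
        Module.finrank W.K (W.H X) ^ (n + 1) ∧
    sqs ops D (-1) n c ≤ sqs ops D 1 n c + (Module.finrank W.K (W.H X) - 2) ^ (n + 1) *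
        Module.finrank W.K (W.H X) ^ (n + 1) := by
  classical
  obtain ⟨fn, Gn, hHn, hBn, hA⟩ := exists_tower (r := r) G hHL hB n
  have hAn := hA h j j' h1 h2 h3 h4 h5 h6 h7 h8 h9
  obtain ⟨ι, hι, y, s, Q, hp, hm⟩ := exists_fam2 (Gn.fr.prod Gn.fr) (2 * (((n + 1) * X.dim : ℕ) - c))
  have hd : ((pw X n).prod (pw X n)).dim = 2 * ((n + 1) * X.dim) := dim_sq X n
  rw [hd, csum_eq hc] at hp hm
  have b1 := Q.bound Gn hAn 1 (Or.inl rfl)
  have b2 := Q.bound Gn hAn (-1) (Or.inr rfl)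
  simp only [one_mul] at b1
  have e1 : (univ.filter (fun i => 0 < (-1 : ℚ) * s i)) = univ.filter (fun i => s i < 0) := by
    ext i; simp
  have e2 : (univ.filter (fun i => (-1 : ℚ) * s i < 0)) = univ.filter (fun i => 0 < s i) := by
    ext i; simp
  rw [e1, e2] at b2
  rw [hp, hm, finrank_pw] at b1
  rw [hp, hm, finrank_pw] at b2
  exact ⟨b1, b2⟩

end Pool.Agent.J4H47.SG
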