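import Pool.Agent.J4H47.SG.AlgL
import Pool.Agent.W539.Ker.Blk

/-!
# Real combinations of algebraic operators
-/

open CategoryTheory AlgebraicGeometry Finset

universe u v

namespace Pool.Agent.J4H47.SG

open Pool.Agent.H914 Pool.Agent.H914.VarClass Pool.Agent.H914.VarClass.Obj
  Pool.Agent.H914.WeilCohomology Pool.Agent.H281R3.HT Pool.Agent.W552 Pool.Agent.W539.Ker

variable {k : Type u} [Field k] {𝒱 : VarClass k} {ops : CycleOps 𝒱}
  {W : WeilCohomology.{u, v} ops} (r : ℝ →+* W.K) {X Y Z : 𝒱.Obj}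

/-- The external product. -/
lemma hm_ext {u : Module.End W.K (W.H X)} {u' : Module.End W.K (W.H Y)} (h : Hm W 0 u)
    (h' : Hm W 0 u') : Hm W 0 (extOp W u u') := by
  have a1 : ∀ a, wt (W.isInternal X) X.dim (u a) = u (wt (W.isInternal X) X.dim a) := by
    intro a
    rw [h.apply a, Int.cast_zero, zero_smul, add_zero]
  have a2 : ∀ b, wt (W.isInternal Y) Y.dim (u' b) = u' (wt (W.isInternal Y) Y.dim b) := by
    intro b
    rw [h'.apply b, Int.cast_zero, zero_smul, add_zero]
  have key : wt (W.isInternal (X.prod Y)) (X.prod Y).dim ∘ₗ extOp W u u' =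
      extOp W u u' ∘ₗ wt (W.isInternal (X.prod Y)) (X.prod Y).dim := by
    rw [wt_prod]
    have h1 : ∀ a b, (extSum W (wt (W.isInternal X) X.dim) (wt (W.isInternal Y) Y.dim) ∘ₗ
        extOp W u u') (W.map (fst X Y) a * W.map (snd X Y) b) = (extOp W u u' ∘ₗ
        extSum W (wt (W.isInternal X) X.dim) (wt (W.isInternal Y) Y.dim))
          (W.map (fst X Y) a * W.map (snd X Y) b) := by
      intro a b
      rw [LinearMap.comp_apply, LinearMap.comp_apply, extOp_tmul, extSum_tmul, extSum_tmul,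
        map_add, extOp_tmul, extOp_tmul, a1, a2]
    exact ext_kunneth_lin h1
  rw [Hm, key, Int.cast_zero, zero_smul, add_zero]

/-- Real linear combinations of algebraic operators of weight `m`. -/
def RC (X Y : 𝒱.Obj) (m : ℤ) (u : W.H X →ₗ[W.K] W.H Y) : Prop :=
  u ∈ AddSubmonoid.closure {v | ∃ (c : ℝ) (w : W.H X →ₗ[W.K] W.H Y),
    AOp W X Y w ∧ Hm W m w ∧ v = r c • w}

namespace RC

variable {r} {m m' : ℤ}

lemma of {w : W.H X →ₗ[W.K] W.H Y} (h : AOp W X Y w) (h' : Hm W m w) : RC r X Y m w :=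
  AddSubmonoid.subset_closure ⟨1, w, h, h', by rw [map_one, one_smul]⟩

lemma add {u u' : W.H X →ₗ[W.K] W.H Y} (h : RC r X Y m u) (h' : RC r X Y m u') :
    RC r X Y m (u + u') := AddSubmonoid.add_mem _ h h'

lemma zero : RC r X Y m (0 : W.H X →ₗ[W.K] W.H Y) := AddSubmonoid.zero_mem _

lemma ind {p : (W.H X →ₗ[W.K] W.H Y) → Prop} (h0 : p 0) (hadd : ∀ u u', p u → p u' → p (u + u'))
    (h : ∀ (c : ℝ) (w : W.H X →ₗ[W.K] W.H Y), AOp W X Y w → Hm W m w → p (r c • w))
    {u : W.H X →ₗ[W.K] W.H Y} (hu : RC r X Y m u) : p u := by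
  induction hu using AddSubmonoid.closure_induction with
  | mem x hx =>
    obtain ⟨c, w, hw, hw', rfl⟩ := hx
    exact h c w hw hw'
  | zero => exact h0
  | add x y _ _ hx hy => exact hadd x y hx hy

lemma smul (c : ℝ) {u : W.H X →ₗ[W.K] W.H Y} (h : RC r X Y m u) : RC r X Y m (r c • u) := by
  refine ind (p := fun u => RC r X Y m (r c • u)) ?_ ?_ ?_ h
  · rw [smul_zero]; exact zero
  · intro u u' hu hu'; rw [smul_add]; exact hu.add hu'
  · intro c' w hw hw'
    rw [smul_smul, ← map_mul]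
    exact AddSubmonoid.subset_closure ⟨_, w, hw, hw', rfl⟩

lemma neg {u : W.H X →ₗ[W.K] W.H Y} (h : RC r X Y m u) : RC r X Y m (-u) := by
  have e : r (-1) • u = -u := by
    apply LinearMap.ext
    intro x
    simp
  rw [← e]
  exact h.smul (-1)

lemma sub {u u' : W.H X →ₗ[W.K] W.H Y} (h : RC r X Y m u) (h' : RC r X Y m u') :
    RC r X Y m (u - u') := by rw [sub_eq_add_neg]; exact h.add h'.neg

lemma sum {ι : Type*} (s : Finset ι) {u : ι → (W.H X →ₗ[W.K] W.H Y)}
    (h : ∀ i ∈ s, RC r X Y m (u i)) : RC r X Y m (∑ i ∈ s, u i) :=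
  AddSubmonoid.sum_mem _ h

lemma comp {u : W.H X →ₗ[W.K] W.H Y} {u' : W.H Y →ₗ[W.K] W.H Z} (h' : RC r Y Z m' u')
    (h : RC r X Y m u) : RC r X Z (m' + m) (u' ∘ₗ u) := by
  refine ind (p := fun u' => RC r X Z (m' + m) (u' ∘ₗ u)) ?_ ?_ ?_ h'
  · rw [LinearMap.zero_comp]; exact zero
  · intro a b ha hb; rw [LinearMap.add_comp]; exact ha.add hb
  · intro c w hw hwm
    rw [LinearMap.smul_comp]
    apply smul
    refine ind (p := fun u => RC r X Z (m' + m) (w ∘ₗ u)) ?_ ?_ ?_ h
    · rw [LinearMap.comp_zero]; exact zero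
    · intro a b ha hb; rw [LinearMap.comp_add]; exact ha.add hb
    · intro c w' hw' hwm'
      rw [LinearMap.comp_smul]
      exact smul c (of (hw.comp hw') (hwm.comp hwm'))

lemma one : RC r X X 0 (1 : Module.End W.K (W.H X)) := of AOp.one Hm.one

lemma mul {u u' : Module.End W.K (W.H X)} (h : RC r X X 0 u) (h' : RC r X X 0 u') :
    RC r X X 0 (u * u') := by
  have h1 : RC r X X (0 + 0) (u ∘ₗ u') := RC.comp h h'
  rw [add_zero] at h1
  rw [Module.End.mul_eq_comp]
  exact h1

lemma ext {u : Module.End W.K (W.H X)} {u' : Module.End W.K (W.H Y)} (h : RC r X X 0 u)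
    (h' : RC r Y Y 0 u') : RC r (X.prod Y) (X.prod Y) 0 (extOp W u u') := by
  refine ind (p := fun u => RC r (X.prod Y) (X.prod Y) 0 (extOp W u u')) ?_ ?_ ?_ h
  · rw [extOp_zero_left]; exact zero
  · intro a b ha hb; rw [extOp_add_left]; exact ha.add hb
  · intro c w hw hwm
    rw [extOp_smul_left]
    apply smul
    refine ind (p := fun u' => RC r (X.prod Y) (X.prod Y) 0 (extOp W w u')) ?_ ?_ ?_ h'
    · rw [extOp_zero_right]; exact zero
    · intro a b ha hb; rw [extOp_add_right]; exact ha.add hb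
    · intro c w' hw' hwm'
      rw [extOp_smul_right]
      exact smul c (of (hw.ext hw') (hm_ext hwm hwm'))

/-- The operators commute with the parity operator. -/
lemma par_comm {u : W.H X →ₗ[W.K] W.H Y} (h : RC r X Y m u) :
    par (W.isInternal Y) ∘ₗ u = u ∘ₗ par (W.isInternal X) := by
  refine ind (p := fun u => par (W.isInternal Y) ∘ₗ u = u ∘ₗ par (W.isInternal X)) ?_ ?_ ?_ h
  · rw [LinearMap.comp_zero, LinearMap.zero_comp]
  · intro a b ha hb; rw [LinearMap.comp_add, LinearMap.add_comp, ha, hb]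
  · intro c w hw hwm
    obtain ⟨x, hx, rfl⟩ := hw
    rw [LinearMap.comp_smul, LinearMap.smul_comp]
    congr 1
    exact par_corr hx

end RC

section Gd

variable {r} {D : X.Cycles} {f : Module.End W.K (W.H X)} (G : Gd W X D f) {E : Y.Cycles}
  {g : Module.End W.K (W.H Y)} (G' : Gd W Y E g) {m : ℤ}

/-- The operators `u` and `u'` are adjoint. -/
def Adj (W : WeilCohomology.{u, v} ops) (D : X.Cycles) (f : Module.End W.K (W.H X)) (E : Y.Cycles)
    (g : Module.End W.K (W.H Y)) (u : W.H X →ₗ[W.K] W.H Y) (u' : W.H Y →ₗ[W.K] W.H X) : Prop :=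
  ∀ p q, bf W Y E g (u p) q = bf W X D f p (u' q)

include G in
lemma Adj.uniq {u : W.H X →ₗ[W.K] W.H Y} {u' u'' : W.H Y →ₗ[W.K] W.H X}
    (h : Adj W D f E g u u') (h' : Adj W D f E g u u'') : u' = u'' := by
  apply LinearMap.ext
  intro y
  rw [← sub_eq_zero]
  apply G.nondeg
  intro x
  rw [map_sub, ← h, ← h', sub_self]

include G G' in
/-- The adjoint of a real combination. -/
lemma RC.adj {u : W.H X →ₗ[W.K] W.H Y} (h : RC r X Y m u) :
    ∃ u', RC r Y X (-m) u' ∧ Adj W D f E g u u' := by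
  refine RC.ind (p := fun u => ∃ u', RC r Y X (-m) u' ∧ Adj W D f E g u u') ?_ ?_ ?_ h
  · exact ⟨0, RC.zero, fun p q => by simp⟩
  · rintro a b ⟨a', ha, ha'⟩ ⟨b', hb, hb'⟩
    exact ⟨a' + b', ha.add hb, fun p q => by
      rw [LinearMap.add_apply, map_add, LinearMap.add_apply, ha', hb', LinearMap.add_apply,
        map_add]⟩
  · intro c w hw hwm
    obtain ⟨w', hw', hadj⟩ := G.adj G' hw
    refine ⟨r c • w', (RC.of hw' (G.hm_adj G' hadj hwm)).smul c, fun p q => ?_⟩
    rw [LinearMap.smul_apply, map_smul, LinearMap.smul_apply, hadj, LinearMap.smul_apply,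
      map_smul]

include G G' in
/-- Adjunction is symmetric. -/
lemma Adj.symm' {u : W.H X →ₗ[W.K] W.H Y} {u' : W.H Y →ₗ[W.K] W.H X}
    (h : Adj W D f E g u u') (hu : par (W.isInternal Y) ∘ₗ u = u ∘ₗ par (W.isInternal X)) :
    Adj W E g D f u' u := by
  intro p q
  have h1 : ∀ q, par (W.isInternal Y) (u q) = u (par (W.isInternal X) q) := fun q =>
    congrArg (fun F => F q) hu
  rw [G.sy, ← h, ← h1, ← G'.sy]

include G in
lemma RC.trace {u : Module.End W.K (W.H X)} (h : RC r X X m u) :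
    ∃ t : ℝ, LinearMap.trace W.K (W.H X) u = r t := by
  refine RC.ind (p := fun u => ∃ t : ℝ, LinearMap.trace W.K (W.H X) u = r t) ?_ ?_ ?_ h
  · exact ⟨0, by simp⟩
  · rintro a b ⟨s, hs⟩ ⟨t, ht⟩
    exact ⟨s + t, by rw [map_add, hs, ht, map_add]⟩
  · intro c w hw _
    obtain ⟨q, hq⟩ := G.trace_rat hw
    refine ⟨c * q, ?_⟩
    rw [map_smul, hq, map_mul, map_ratCast, smul_eq_mul]

lemma Adj.comp {Z : 𝒱.Obj} {F : Z.Cycles} {l : Module.End W.K (W.H Z)}
    {u : W.H X →ₗ[W.K] W.H Y} {u' : W.H Y →ₗ[W.K] W.H X} {w : W.H Y →ₗ[W.K] W.H Z}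
    {w' : W.H Z →ₗ[W.K] W.H Y} (h : Adj W D f E g u u') (h' : Adj W E g F l w w') :
    Adj W D f F l (w ∘ₗ u) (u' ∘ₗ w') := by
  intro p q
  rw [LinearMap.comp_apply, h', h, LinearMap.comp_apply]

lemma Adj.add {u v : W.H X →ₗ[W.K] W.H Y} {u' v' : W.H Y →ₗ[W.K] W.H X}
    (h : Adj W D f E g u u') (h' : Adj W D f E g v v') : Adj W D f E g (u + v) (u' + v') := by
  intro p q
  rw [LinearMap.add_apply, map_add, LinearMap.add_apply, h, h', LinearMap.add_apply, map_add]

lemma Adj.smul (c : W.K) {u : W.H X →ₗ[W.K] W.H Y} {u' : W.H Y →ₗ[W.K] W.H X}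
    (h : Adj W D f E g u u') : Adj W D f E g (c • u) (c • u') := by
  intro p q
  rw [LinearMap.smul_apply, map_smul, LinearMap.smul_apply, h, LinearMap.smul_apply, map_smul]

lemma Adj.one : Adj W D f D f (1 : Module.End W.K (W.H X)) 1 := fun _ _ => rfl

lemma Adj.zero : Adj W D f E g (0 : W.H X →ₗ[W.K] W.H Y) 0 := fun p q => by simp

include G in
/-- The trace of the adjoint. -/
lemma Adj.trace_eq {u u' : Module.End W.K (W.H X)} (h : Adj W D f D f u u') :
    LinearMap.trace W.K (W.H X) u' = LinearMap.trace W.K (W.H X) u := by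
  have hinj : Function.Injective (bf W X D f).flip := by
    rw [← LinearMap.ker_eq_bot, LinearMap.ker_eq_bot']
    intro q hq
    apply G.nondeg
    intro p
    exact congrArg (fun F => F p) hq
  let e : W.H X ≃ₗ[W.K] Module.Dual W.K (W.H X) :=
    LinearMap.linearEquivOfInjective _ hinj (Subspace.dual_finrank_eq).symm
  have he : ∀ q p, e q p = bf W X D f p q := fun q p => rfl
  have h1 : e.conj u' = u.dualMap := by
    apply LinearMap.ext
    intro φ
    obtain ⟨q, rfl⟩ := e.surjective φ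
    apply LinearMap.ext
    intro p
    rw [LinearEquiv.conj_apply, LinearMap.comp_apply, LinearMap.comp_apply, LinearEquiv.coe_coe,
      LinearEquiv.coe_coe, LinearEquiv.symm_apply_apply, he, LinearMap.dualMap_apply, he, h]
  rw [← LinearMap.trace_conj' u' e, h1]
  exact LinearMap.trace_transpose' u

include G G' in
/-- The adjoint of an external product. -/
lemma Adj.ext {u u' : Module.End W.K (W.H X)} {w w' : Module.End W.K (W.H Y)}
    (h : Adj W D f D f u u') (h' : Adj W E g E g w w') :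
    Adj W (ops.pull (fst X Y) D + ops.pull (snd X Y) E) (extSum W f g)
      (ops.pull (fst X Y) D + ops.pull (snd X Y) E) (extSum W f g)
      (extOp W u w) (extOp W u' w') := by
  have key : ∀ (a : W.H X) (b : W.H Y) (a' : W.H X) (b' : W.H Y),
      bf W (X.prod Y) (ops.pull (fst X Y) D + ops.pull (snd X Y) E) (extSum W f g)
        (extOp W u w (W.map (fst X Y) a * W.map (snd X Y) b))
        (W.map (fst X Y) a' * W.map (snd X Y) b') =
      bf W (X.prod Y) (ops.pull (fst X Y) D + ops.pull (snd X Y) E) (extSum W f g)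
        (W.map (fst X Y) a * W.map (snd X Y) b)
        (extOp W u' w' (W.map (fst X Y) a' * W.map (snd X Y) b')) := by
    intro a b a' b'
    rw [extOp_tmul, extOp_tmul]
    have e1 := G.fr.bf_ext G'.fr (u a) a' (w b) b'
    have e2 := G.fr.bf_ext G'.fr a (u' a') b (w' b')
    rw [Pool.Agent.H281R3.HT.ext, Pool.Agent.H281R3.HT.ext] at e1 e2
    rw [e1, e2, h, h']
  set B := bf W (X.prod Y) (ops.pull (fst X Y) D + ops.pull (snd X Y) E) (extSum W f g) with hB
  intro p q
  have h1 : ∀ (a' : W.H X) (b' : W.H Y), B.flip (W.map (fst X Y) a' * W.map (snd X Y) b') ∘ₗ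
      extOp W u w = B.flip (extOp W u' w' (W.map (fst X Y) a' * W.map (snd X Y) b')) := by
    intro a' b'
    apply ext_kunneth_lin
    intro a b
    exact key a b a' b'
  have h2 : B (extOp W u w p) = (B p) ∘ₗ extOp W u' w' := by
    apply ext_kunneth_lin
    intro a' b'
    exact congrArg (fun F => F p) (h1 a' b')
  exact congrArg (fun F => F q) h2

end Gd

end Pool.Agent.J4H47.SG
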