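import Pool.Agent.J4H47.SG.Pow

/-!
# The total number of squares in the middle codimension
-/

open CategoryTheory AlgebraicGeometry Finset

universe u v

namespace Pool.Agent.J4H47.SG

open Pool.Agent.H914 Pool.Agent.H914.VarClass Pool.Agent.H914.VarClass.Obj
  Pool.Agent.H914.WeilCohomology Pool.Agent.H281R3.HT Pool.Agent.W552 Pool.Agent.W539.Ker
  Pool.Agent.Y163 Pool.Agent.W534

variable {k : Type u} [Field k] {𝒱 : VarClass k} {ops : CycleOps 𝒱}
  {W : WeilCohomology.{u, v} ops} {X Y Z : 𝒱.Obj}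

lemma AS_zero_wt {M : ℕ} (hd : Z.dim = 2 * M) {x : W.H Z} (hx : AS W Z x)
    (hw : wt (W.isInternal Z) Z.dim x = ((0 : ℤ) : W.K) • x) : x ∈ algClasses W Z M := by
  rcases AS_wt hx hw with rfl | ⟨j, hj, h⟩
  · exact ⟨0, SmVar.IsCyc.zero _ _, map_zero _⟩
  · obtain rfl : j = M := by omega
    exact h

/-- The parity operator is algebraic. -/
lemma par_kop {D : X.Cycles} {f : Module.End W.K (W.H X)} (G : Gd W X D f) :
    par (W.isInternal X) ∈ KOp W X X 0 := by
  obtain ⟨c, hc, h⟩ := G.pa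
  have h1 : Hm W (X := X) (Y := X) 0 (par (W.isInternal X)) := by
    rw [Hm, Int.cast_zero, zero_smul, add_zero]
    apply LinearMap.ext
    intro x
    refine gr_induction (W.isInternal X) (p := fun x => (wt (W.isInternal X) X.dim ∘ₗ
      par (W.isInternal X)) x = (par (W.isInternal X) ∘ₗ wt (W.isInternal X) X.dim) x) ?_ ?_ x
    · intro i a ha
      have h2 : par (W.isInternal X) a = ((-1 : W.K) ^ i) • a := scal_apply _ _ ha
      rw [LinearMap.comp_apply, LinearMap.comp_apply, h2, Fr.wt_gr ha, map_smul, map_smul,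
        Fr.wt_gr ha, h2, smul_comm]
    · intro a b ha hb
      rw [map_add, map_add, ha, hb]
  rw [← h] at h1
  have h2 := AS_zero_wt (M := X.dim) (by rw [dim_prod]; ring) hc (hm_corr.1 h1)
  obtain ⟨z, hz, hz'⟩ := h2
  rw [← h, ← hz']
  exact KOp.gen (p := X.dim) (by ring) hz

lemma bf_zero_wt {E : Z.Cycles} {g : Module.End W.K (W.H Z)} (G : Gd W Z E g) {x : W.H Z}
    (hx : wt (W.isInternal Z) Z.dim x = ((0 : ℤ) : W.K) • x) :
    wt (W.isInternal Z) Z.dim (st W Z E g x) = ((0 : ℤ) : W.K) • st W Z E g x := by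
  rw [Int.cast_zero, zero_smul] at hx ⊢
  have h1 := mem_gr_of_wt (W.isInternal Z) W_hbd (y := x) (μ := 0) (by rw [hx, zero_smul])
  by_cases h : ∃ i : ℕ, (0 : W.K) = (i : W.K) - Z.dim
  · obtain ⟨i, hi⟩ := h
    have h2 := h1.1 i hi
    have h3 : i = Z.dim := by
      have : ((i : ℕ) : W.K) = ((Z.dim : ℕ) : W.K) := (sub_eq_zero.1 hi.symm)
      exact_mod_cast this
    subst h3
    have h4 := G.fr.w_mem (i := Z.dim) (by omega) h2
    rw [st_apply h2, map_smul, Fr.wt_gr h4]
    rw [show 2 * Z.dim - Z.dim = Z.dim by omega, sub_self, zero_smul, smul_zero]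
  · rw [h1.2 (fun i hi => h ⟨i, hi⟩), map_zero, map_zero]

/-- **The rank in the middle codimension is the number of the members of a maximal orthogonal
family.** -/
theorem numRank_mid {E : Z.Cycles} {g : Module.End W.K (W.H Z)} (G : Gd W Z E g) {M : ℕ}
    (hd : Z.dim = 2 * M) {ι : Type} [Fintype ι] {y : ι → W.H Z} {s : ι → ℚ}
    (Q : Fam W Z E g 0 y s) : numRank ops Z M = Fintype.card ι := by
  classical
  have hy : ∀ i, y i ∈ algClasses W Z M := fun i => AS_zero_wt hd (Q.as i) (Q.wtt i)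
  choose z hz hzy using hy
  have hst : ∀ i, st W Z E g (y i) ∈ algClasses W Z M := fun i =>
    AS_zero_wt hd (G.fr.st_AS (Q.as i)) (bf_zero_wt G (Q.wtt i))
  choose w hw hwy using hst
  have hM : Z.dim - M = M := by omega
  let R : ι → ({w : Z.Cycles // Z.IsCyc (Z.dim - M) w} → ℚ) := fun i =>
    interNumbers ops Z M ⟨z i, hz i⟩
  have hint : ∀ (a : Z.Cycles) (ha : Z.IsCyc M a) (b : Z.Cycles) (hb : Z.IsCyc (Z.dim - M) b),
      ((interNumbers ops Z M ⟨a, ha⟩ ⟨b, hb⟩ : ℚ) : W.K) = W.tr Z (W.cl Z a * W.cl Z b) := by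
    intro a ha b hb
    rw [← W.cl_mul]
    have h1 := ops.mul_mem ha hb
    rw [show M + (Z.dim - M) = Z.dim by omega] at h1
    exact (W.tr_cl h1).symm
  have hli : LinearIndependent ℚ R := by
    rw [Fintype.linearIndependent_iff]
    intro c hc i
    have hwi : Z.IsCyc (Z.dim - M) (w i) := by rw [hM]; exact hw i
    have h1 := congrFun hc ⟨w i, hwi⟩
    rw [Finset.sum_apply, Finset.sum_eq_single i] at h1
    · rw [Pi.smul_apply, smul_eq_mul, Pi.zero_apply] at h1
      have h2 : ((R i ⟨w i, hwi⟩ : ℚ) : W.K) = (s i : W.K) := by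
        rw [hint, hzy, hwy, ← bf_apply, Q.sq]
      have h3 : R i ⟨w i, hwi⟩ = s i := by exact_mod_cast h2
      rw [h3] at h1
      exact (mul_eq_zero.1 h1).resolve_right (Q.ne i)
    · intro j _ hj
      have h2 : ((R j ⟨w i, hwi⟩ : ℚ) : W.K) = 0 := by
        rw [hint, hzy, hwy, ← bf_apply, Q.orth j i hj]
      have h3 : R j ⟨w i, hwi⟩ = 0 := by exact_mod_cast h2
      rw [Pi.smul_apply, h3, smul_zero]
    · intro h0; exact absurd (Finset.mem_univ _) h0
  have hspan : Submodule.span ℚ (Set.range (interNumbers ops Z M)) =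
      Submodule.span ℚ (Set.range R) := by
    apply le_antisymm
    · rw [Submodule.span_le]
      rintro _ ⟨⟨a, ha⟩, rfl⟩
      have haS : AS W Z (W.cl Z a) := AS.of ⟨a, ha, rfl⟩
      have haw : wt (W.isInternal Z) Z.dim (W.cl Z a) = ((0 : ℤ) : W.K) • W.cl Z a := by
        rw [Fr.wt_gr (W.cl_mem ha), hd]
        congr 1
        push_cast
        ring
      obtain ⟨q, hq1, hq2, hq3⟩ := Q.rad G.fr G.sy haS haw
      have h1 : interNumbers ops Z M ⟨a, ha⟩ = ∑ i, q i • R i := by
        funext ⟨b, hb⟩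
        have hbS : AS W Z (W.cl Z b) := AS.of ⟨b, hb, rfl⟩
        have hbw : wt (W.isInternal Z) Z.dim (W.cl Z b) = ((0 : ℤ) : W.K) • W.cl Z b := by
          rw [Fr.wt_gr (W.cl_mem hb), hM, hd]
          congr 1
          push_cast
          ring
        have h2 := hq3 _ (G.fr.st_AS hbS) (bf_zero_wt G hbw)
        rw [bf_apply, G.st_st_apply, sub_mul, map_sub, sub_eq_zero, ← hint a ha b hb] at h2
        have h3 : ((interNumbers ops Z M ⟨a, ha⟩ ⟨b, hb⟩ : ℚ) : W.K) =
            (((∑ i, q i • R i) ⟨b, hb⟩ : ℚ) : W.K) := by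
          rw [h2, Finset.sum_apply, Finset.sum_mul, map_sum, Rat.cast_sum]
          apply Finset.sum_congr rfl
          intro i _
          rw [Pi.smul_apply, smul_eq_mul, Rat.cast_mul, hint, smul_mul_assoc, map_smul, smul_eq_mul,
            hzy]
        exact_mod_cast h3
      rw [SetLike.mem_coe, h1]
      exact Submodule.sum_mem _ (fun i _ => Submodule.smul_mem _ _
        (Submodule.subset_span ⟨i, rfl⟩))
    · rw [Submodule.span_le]
      rintro _ ⟨i, rfl⟩
      exact Submodule.subset_span ⟨⟨z i, hz i⟩, rfl⟩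
  rw [numRank, hspan, finrank_span_eq_card hli]

end Pool.Agent.J4H47.SG
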